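import Pool.Agent.K7.H28.AF.Stage
import Pool.Agent.R765.CAll

/-!
# Homeomorphisms which are asymptotically affine at small scales are approximated by diffeomorphisms

Adapted from `Pool.Agent.R765.callR`.
-/

set_option autoImplicit false

open Set Filter Topology Metric Function MeasureTheory
open scoped Manifold ContDiff

noncomputable section

namespace Pool.Agent.K7.H28.AF

open Pool.Agent.Y522 Pool.Agent.R765

/-- a chart of the target in which the level function `τ` is affine -/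
structure TChart (n : ℕ) (Y : Type) [TopologicalSpace Y] [ChartedSpace (E n) Y] (T : Type)
    [NormedAddCommGroup T] [NormedSpace ℝ T] (τ : Y → T) (y : Y) where
  V : Set Y
  B : Y → E n
  Λ : E n →L[ℝ] T
  β₀ : T
  isOpen : IsOpen V
  mem : y ∈ V
  inj : InjOn B V
  ld : ∀ z ∈ V, LD n B z
  level : ∀ z ∈ V, τ z = Λ (B z) + β₀

theorem aallR (n : ℕ) (X Y : Type) [TopologicalSpace X] [T2Space X] [ChartedSpace (E n) X]
    [TopologicalSpace Y] [ChartedSpace (E n) Y] (f : C(X, Y)) (O : Set (X × Y))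
    (T : Type) [NormedAddCommGroup T] [NormedSpace ℝ T] [CompleteSpace T] (τ : Y → T)
    (hτ : ∀ y, Nonempty (TChart n Y T τ y))
    (hσ : ∀ x, ¬ LD n f x → Adapted n (fun x => τ (f x)) x)
    (hx : ∀ x, LD n f x ∨ AAM n f x) (hB : IsCompact {x | ¬ LD n f x}) (hO : IsOpen O)
    (hfO : ∀ x, (x, f x) ∈ O) :
    ∃ (f' : C(X, Y)) (C : Set X), IsCompact C ∧ HomRel O C f f' ∧ (∀ x, LD n f' x) ∧
      ∀ x, τ (f' x) = τ (f x) := by
  classical
  have hf : Continuous f := f.continuous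
  choose ch _ using fun y => exists_true_iff_nonempty.2 (hτ y)
  have hD : ∀ x : X, ∃ D : Set X, IsCompact D ∧ x ∈ interior D ∧ D ⊆ f ⁻¹' (ch (f x)).V := by
    intro x
    have : LocallyCompactSpace X := ChartedSpace.locallyCompactSpace (E n) X
    exact exists_compact_subset ((ch (f x)).isOpen.preimage hf) (ch (f x)).mem
  choose D hDc hDx hDV using hD
  obtain ⟨t, -, ht⟩ := hB.elim_nhds_subcover (fun x => interior (D x))
    (fun x _ => isOpen_interior.mem_nhds (hDx x))
  obtain ⟨O', hO'd⟩ : ∃ O' : Set (X × Y), O' = O ∩ ⋂ x ∈ t, {p : X × Y | p.1 ∉ D x ∨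
    p.2 ∈ (ch (f x)).V} := ⟨_, rfl⟩
  have hO'm : ∀ p : X × Y, p ∈ O' ↔ p ∈ O ∧ ∀ x ∈ t, p.1 ∉ D x ∨
      p.2 ∈ (ch (f x)).V := by
    intro p
    rw [hO'd]
    simp
  have hO'o : IsOpen O' := by
    rw [hO'd]
    refine hO.inter (isOpen_biInter_finset fun x _ => ?_)
    have h1 : IsOpen {p : X × Y | p.1 ∉ D x} :=
      (hDc x).isClosed.isOpen_compl.preimage continuous_fst
    have h2 : IsOpen {p : X × Y | p.2 ∈ (ch (f x)).V} :=
      (ch (f x)).isOpen.preimage continuous_snd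
    exact h1.union h2
  have hfO' : ∀ x, (x, f x) ∈ O' := by
    intro x
    rw [hO'm]
    refine ⟨hfO x, fun z _ => ?_⟩
    by_cases hz : x ∈ D z
    · exact Or.inr (hDV z hz)
    · exact Or.inl hz
  have hind : ∀ s : Finset X, s ⊆ t → ∃ (f' : C(X, Y)) (C : Set X), IsCompact C ∧
      (∀ x, LD n f' x ∨ AAM n f' x) ∧ HomRel O' C f f' ∧ (∀ x, LD n f x → LD n f' x) ∧
      (∀ z ∈ s, ∀ x ∈ D z, LD n f' x) ∧ ∀ x, τ (f' x) = τ (f x) := by
    intro s
    induction s using Finset.induction_on with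
    | empty =>
      intro _
      exact ⟨f, ∅, isCompact_empty, hx, HomRel.refl hfO', fun _ h => h,
        fun z hz => absurd hz (Finset.notMem_empty z), fun _ => rfl⟩
    | insert a s ha ih =>
      intro hst
      obtain ⟨f1, C1, hC1, h2, h0, h5, h4, ht1⟩ := ih ((Finset.subset_insert a s).trans hst)
      have hσ1 : ∀ x, ¬ LD n f1 x → Adapted n (fun x => τ (f1 x)) x := by
        intro x hx1
        have h20 : (fun x => τ (f1 x)) = fun x => τ (f x) := funext ht1
        rw [h20]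
        exact hσ x fun h21 => hx1 (h5 x h21)
      have h3 : ∀ x, (x, f1 x) ∈ O' := fun x => (h0.off x).1
      have hat : a ∈ t := hst (Finset.mem_insert_self a s)
      obtain ⟨f2, C2, hC2, h6, h7, h8, h9, ht2⟩ := astageR n X Y f1 (D a)
        (ch (f a)).V (ch (f a)).B O' T τ (ch (f a)).Λ (ch (f a)).β₀ h2 (ch (f a)).level hσ1
        (hDc a) (ch (f a)).isOpen (ch (f a)).inj (ch (f a)).ld
        (by
          intro x hxa
          rcases ((hO'm _).1 (h3 x)).2 a hat with h10 | h10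
          · exact absurd hxa h10
          · exact h10)
        hO'o h3
      refine ⟨f2, C1 ∪ C2, hC1.union hC2, h6, h0.trans h7, fun x hxl => h8 x (h5 x hxl),
        fun z hz x hxz => ?_, fun x => (ht2 x).trans (ht1 x)⟩
      rcases Finset.mem_insert.1 hz with h10 | h10
      · subst h10
        exact h9 x hxz
      · exact h8 x (h4 z h10 x hxz)
  obtain ⟨f', C, hC, h1, h2, h5, h4, ht1⟩ := hind t (Finset.Subset.refl t)
  refine ⟨f', C, hC, h2.mono (fun p hp => ((hO'm p).1 hp).1), fun x => ?_, ht1⟩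
  by_cases hxl : LD n f x
  · exact h5 x hxl
  · obtain ⟨z, hz, hxz⟩ := mem_iUnion₂.1 (ht hxl)
    exact h4 z hz x (interior_subset hxz)


/-- charts without level functions -/
theorem tchart_zero (n : ℕ) (Y : Type) [TopologicalSpace Y] [ChartedSpace (E n) Y]
    [IsManifold (𝓡 n) ∞ Y] (y : Y) : Nonempty (TChart n Y ℝ (fun _ => 0) y) :=
  ⟨{ V := (chartAt (E n) y).source
     B := chartAt (E n) y
     Λ := 0
     β₀ := 0
     isOpen := (chartAt (E n) y).open_source
     mem := mem_chart_source (E n) y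
     inj := (chartAt (E n) y).injOn
     ld := fun z hz => Pool.Agent.Y66.CM.LD_chart y z hz
     level := fun z _ => by simp }⟩

theorem adapted_zero (n : ℕ) (X : Type) [TopologicalSpace X] [ChartedSpace (E n) X]
    [IsManifold (𝓡 n) ∞ X] (x : X) : Adapted n (fun _ : X => (0 : ℝ)) x := by
  have h1 : LD n (chartAt (E n) x : X → E n) x :=
    Pool.Agent.Y66.CM.LD_chart x x (mem_chart_source (E n) x)
  obtain ⟨p, hp1, hp2, -, -⟩ := h1.exists_inverse
  obtain ⟨v, hv⟩ : ∃ v : E n, v = chartAt (E n) x x := ⟨_, rfl⟩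
  rw [← hv] at hp1 hp2
  refine ⟨fun z => p (z + v), 0, 0, by simp [hp2], ?_, Eventually.of_forall fun z => by simp⟩
  refine LD.comp_fun (g := p) (f := fun z : E n => z + v) ?_ (LD_add_const v 0)
  rw [zero_add]
  exact hp1

/-- **Homeomorphisms which are asymptotically affine at small scales at their bad points**, with a
compact set of bad points, are approximated by diffeomorphisms which agree with them off a compact
set. -/
theorem asymAffine (n : ℕ) (X Y : Type) [TopologicalSpace X] [T2Space X] [ChartedSpace (E n) X]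
    [IsManifold (𝓡 n) ∞ X] [TopologicalSpace Y] [ChartedSpace (E n) Y]
    [IsManifold (𝓡 n) ∞ Y] (f : X ≃ₜ Y) (O : Set (X × Y))
    (hx : ∀ x, LD n f x ∨ AAM n f x) (hB : IsCompact {x | ¬ LD n f x}) (hO : IsOpen O)
    (hfO : ∀ x, (x, f x) ∈ O) :
    ∃ (f' : X → Y) (C : Set X), IsCompact C ∧ Bijective f' ∧ (∀ x, LD n f' x) ∧
      (∀ x, (x, f' x) ∈ O) ∧ ∀ x, x ∉ C → f' x = f x := by
  obtain ⟨f', C, hC, hH, hL, -⟩ := aallR n X Y ⟨f, f.continuous⟩ O ℝ (fun _ => 0)
    (tchart_zero n Y) (fun x _ => adapted_zero n X x) hx hB hO hfO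
  have : T2Space Y := f.t2Space
  have hl : IsLocalDiffeomorph (𝓡 n) (𝓡 n) ∞ f' := hL
  refine ⟨f', C, hC, ?_, hL, fun x => (hH.off x).1, fun x hx' => (hH.off x).2 hx'⟩
  exact bijective_of_homRel f f' hl.isLocalHomeomorph O C hC hH

/-- level preserving version -/
theorem asymAffineLevel (n : ℕ) (X Y : Type) [TopologicalSpace X] [T2Space X]
    [ChartedSpace (E n) X] [TopologicalSpace Y] [ChartedSpace (E n) Y] (f : X ≃ₜ Y)
    (O : Set (X × Y)) (T : Type) [NormedAddCommGroup T] [NormedSpace ℝ T] [CompleteSpace T]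
    (τ : Y → T) (hτ : ∀ y, Nonempty (TChart n Y T τ y))
    (hσ : ∀ x, ¬ LD n f x → Adapted n (fun x => τ (f x)) x)
    (hx : ∀ x, LD n f x ∨ AAM n f x) (hB : IsCompact {x | ¬ LD n f x}) (hO : IsOpen O)
    (hfO : ∀ x, (x, f x) ∈ O) :
    ∃ (f' : X → Y) (C : Set X), IsCompact C ∧ Bijective f' ∧ (∀ x, LD n f' x) ∧
      (∀ x, (x, f' x) ∈ O) ∧ (∀ x, x ∉ C → f' x = f x) ∧ ∀ x, τ (f' x) = τ (f x) := by
  obtain ⟨f', C, hC, hH, hL, hlev⟩ := aallR n X Y ⟨f, f.continuous⟩ O T τ hτ hσ hx hB hO hfO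
  have : T2Space Y := f.t2Space
  have hl : IsLocalDiffeomorph (𝓡 n) (𝓡 n) ∞ f' := hL
  refine ⟨f', C, hC, ?_, hL, fun x => (hH.off x).1, fun x hx' => (hH.off x).2 hx', hlev⟩
  exact bijective_of_homRel f f' hl.isLocalHomeomorph O C hC hH

end Pool.Agent.K7.H28.AF
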