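import Pool.Agent.Y522.Basic

/-!
# Maps which are asymptotically affine at small scales: local theory

`AAt n h z`: at all points `p` near `z` and at all small scales `δ` the map `h` is, after
composition with a linear isomorphism (which depends on `p` and `δ`), close to the identity at the
scale `δ`.
-/

set_option autoImplicit false

open Set Filter Topology Metric Function
open scoped Manifold ContDiff

noncomputable section

namespace Pool.Agent.K7.H28.AF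

open Pool.Agent.Y522

variable {n : ℕ}

/-- at the points `p` of `S` and the scales `δ ≤ r` the map `h` is affine up to an error `ε δ`,
measured after composition with a linear isomorphism -/
def AffOn (n : ℕ) (h : E n → E n) (S : Set (E n)) (ε r : ℝ) : Prop :=
  ∀ p ∈ S, ∀ δ : ℝ, 0 < δ → δ ≤ r → ∃ L : E n ≃L[ℝ] E n, ∀ q : E n, ‖q - p‖ ≤ δ →
    ‖L.symm (h q - h p) - (q - p)‖ ≤ ε * δ

/-- `h` is asymptotically affine at small scales near `z` -/
def AAt (n : ℕ) (h : E n → E n) (z : E n) : Prop :=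
  ∀ ε : ℝ, 0 < ε → ∃ r : ℝ, 0 < r ∧ AffOn n h (closedBall z r) ε r

theorem AffOn.mono {h : E n → E n} {S S' : Set (E n)} {ε ε' r r' : ℝ} (H : AffOn n h S ε r)
    (hS : S' ⊆ S) (hε : ε ≤ ε') (hr : r' ≤ r) : AffOn n h S' ε' r' := by
  intro p hp δ hδ hδr
  obtain ⟨L, hL⟩ := H p (hS hp) δ hδ (hδr.trans hr)
  exact ⟨L, fun q hq => (hL q hq).trans (mul_le_mul_of_nonneg_right hε hδ.le)⟩

theorem AAt.congr {h h' : E n → E n} {z : E n} (H : AAt n h z) (he : h' =ᶠ[𝓝 z] h) :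
    AAt n h' z := by
  intro ε hε
  obtain ⟨r, hr, h1⟩ := H ε hε
  obtain ⟨ρ, hρ, h2⟩ := Metric.eventually_nhds_iff_ball.1 he
  refine ⟨min r (ρ / 3), lt_min hr (by linarith), ?_⟩
  intro p hp δ hδ hδr
  have hp1 : ‖p - z‖ ≤ ρ / 3 := by
    rw [mem_closedBall, dist_eq_norm] at hp
    exact hp.trans (min_le_right _ _)
  obtain ⟨L, hL⟩ := h1 p (closedBall_subset_closedBall (min_le_left _ _) hp) δ hδ
    (hδr.trans (min_le_left _ _))
  refine ⟨L, fun q hq => ?_⟩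
  have hq1 : ‖q - z‖ ≤ ρ / 3 + ρ / 3 := by
    have h3 : q - z = (q - p) + (p - z) := by abel
    rw [h3]
    exact (norm_add_le _ _).trans (add_le_add (hq.trans (hδr.trans (min_le_right _ _))) hp1)
  rw [h2 q (by rw [mem_ball, dist_eq_norm]; linarith),
    h2 p (by rw [mem_ball, dist_eq_norm]; linarith)]
  exact hL q hq

/-- change of coordinates in the source -/
theorem AAt.comp_right {h α : E n → E n} {z : E n} (D : E n ≃L[ℝ] E n)
    (hα : HasStrictFDerivAt α (D : E n →L[ℝ] E n) z) (H : AAt n h (α z)) :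
    AAt n (fun p => h (α p)) z := by
  intro ε hε
  obtain ⟨K, hKd⟩ : ∃ K : ℝ, K = ‖(D.symm : E n →L[ℝ] E n)‖ := ⟨_, rfl⟩
  obtain ⟨N, hNd⟩ : ∃ N : ℝ, N = ‖(D : E n →L[ℝ] E n)‖ := ⟨_, rfl⟩
  have hK : 0 ≤ K := by rw [hKd]; exact norm_nonneg _
  have hN : 0 ≤ N := by rw [hNd]; exact norm_nonneg _
  obtain ⟨ε₂, hε₂, hε₂1, hε₂K⟩ : ∃ e : ℝ, 0 < e ∧ e ≤ 1 ∧ K * e ≤ ε / 2 := by
    refine ⟨min 1 (ε / (2 * (K + 1))), lt_min one_pos (by positivity), min_le_left _ _, ?_⟩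
    calc K * min 1 (ε / (2 * (K + 1))) ≤ K * (ε / (2 * (K + 1))) :=
          mul_le_mul_of_nonneg_left (min_le_right _ _) hK
      _ ≤ (K + 1) * (ε / (2 * (K + 1))) :=
          mul_le_mul_of_nonneg_right (by linarith) (by positivity)
      _ = ε / 2 := by field_simp
  obtain ⟨ε₁, hε₁, hε₁K⟩ : ∃ e : ℝ, 0 < e ∧ K * (e * (N + 1)) ≤ ε / 2 := by
    refine ⟨ε / (2 * (K + 1) * (N + 1)), by positivity, ?_⟩
    calc K * (ε / (2 * (K + 1) * (N + 1)) * (N + 1))
        ≤ (K + 1) * (ε / (2 * (K + 1) * (N + 1)) * (N + 1)) :=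
          mul_le_mul_of_nonneg_right (by linarith) (by positivity)
      _ = ε / 2 := by field_simp
  obtain ⟨r', hr', h1⟩ := H ε₁ hε₁
  obtain ⟨ρ, hρ, h2⟩ : ∃ ρ : ℝ, 0 < ρ ∧ ∀ p q : E n, ‖p - z‖ ≤ ρ → ‖q - z‖ ≤ ρ →
      ‖α q - α p - D (q - p)‖ ≤ ε₂ * ‖q - p‖ := by
    have h3 := hα.isLittleO.def hε₂
    rw [nhds_prod_eq] at h3
    obtain ⟨P1, hP1, P2, hP2, hP⟩ := eventually_prod_iff.1 h3
    obtain ⟨ρ, hρ, h4⟩ := Metric.eventually_nhds_iff_ball.1 (hP1.and hP2)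
    refine ⟨ρ / 2, by linarith, fun p q hp hq => ?_⟩
    exact hP (h4 q (by rw [mem_ball, dist_eq_norm]; linarith)).1
      (h4 p (by rw [mem_ball, dist_eq_norm]; linarith)).2
  have h3 : ∀ p q : E n, ‖p - z‖ ≤ ρ → ‖q - z‖ ≤ ρ → ‖α q - α p‖ ≤ (N + 1) * ‖q - p‖ := by
    intro p q hp hq
    have h4 : α q - α p = (α q - α p - D (q - p)) + D (q - p) := by abel
    rw [h4]
    calc _ ≤ ‖α q - α p - D (q - p)‖ + ‖D (q - p)‖ := norm_add_le _ _
      _ ≤ ε₂ * ‖q - p‖ + N * ‖q - p‖ := by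
          refine add_le_add (h2 p q hp hq) ?_
          rw [hNd]
          exact (D : E n →L[ℝ] E n).le_opNorm _
      _ ≤ (N + 1) * ‖q - p‖ := by nlinarith [norm_nonneg (q - p)]
  obtain ⟨r, hr, hr1, hr2⟩ : ∃ r : ℝ, 0 < r ∧ 2 * r ≤ ρ ∧ (N + 1) * r ≤ r' := by
    refine ⟨min (ρ / 2) (r' / (N + 1)), lt_min (by linarith) (by positivity), ?_, ?_⟩
    · have := min_le_left (ρ / 2) (r' / (N + 1))
      linarith
    · calc (N + 1) * min (ρ / 2) (r' / (N + 1)) ≤ (N + 1) * (r' / (N + 1)) :=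
            mul_le_mul_of_nonneg_left (min_le_right _ _) (by linarith)
        _ = r' := by field_simp
  refine ⟨r, hr, fun p hp δ hδ hδr => ?_⟩
  rw [mem_closedBall, dist_eq_norm] at hp
  have hz : ‖z - z‖ ≤ ρ := by rw [sub_self, norm_zero]; exact hρ.le
  obtain ⟨L, hL⟩ := h1 (α p) (by
      rw [mem_closedBall, dist_eq_norm]
      calc ‖α p - α z‖ ≤ (N + 1) * ‖p - z‖ := h3 z p hz (by linarith)
        _ ≤ (N + 1) * r := mul_le_mul_of_nonneg_left hp (by linarith)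
        _ ≤ r' := hr2) ((N + 1) * δ) (by positivity)
    ((mul_le_mul_of_nonneg_left hδr (by linarith)).trans hr2)
  refine ⟨D.trans L, fun q hq => ?_⟩
  have hqz : ‖q - z‖ ≤ ρ := by
    have h4 : q - z = (q - p) + (p - z) := by abel
    rw [h4]
    refine (norm_add_le _ _).trans ?_
    linarith
  have hpz : ‖p - z‖ ≤ ρ := by linarith
  have h5 := hL (α q) ((h3 p q hpz hqz).trans (mul_le_mul_of_nonneg_left hq (by linarith)))
  have h6 : (D.trans L).symm (h (α q) - h (α p)) - (q - p) =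
      D.symm ((L.symm (h (α q) - h (α p)) - (α q - α p)) + (α q - α p - D (q - p))) := by
    have h7 : (D.trans L).symm (h (α q) - h (α p)) = D.symm (L.symm (h (α q) - h (α p))) := rfl
    rw [h7]
    have h8 : (q - p) = D.symm (D (q - p)) := (D.symm_apply_apply _).symm
    conv_lhs => rw [h8, ← map_sub]
    congr 1
    abel
  change ‖(D.trans L).symm (h (α q) - h (α p)) - (q - p)‖ ≤ ε * δ
  rw [h6]
  calc _ ≤ K * ‖(L.symm (h (α q) - h (α p)) - (α q - α p)) + (α q - α p - D (q - p))‖ := by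
        rw [hKd]
        exact (D.symm : E n →L[ℝ] E n).le_opNorm _
    _ ≤ K * (ε₁ * ((N + 1) * δ) + ε₂ * δ) := by
        refine mul_le_mul_of_nonneg_left ((norm_add_le _ _).trans (add_le_add h5 ?_)) hK
        exact (h2 p q hpz hqz).trans (mul_le_mul_of_nonneg_left hq hε₂.le)
    _ = (K * (ε₁ * (N + 1)) + K * ε₂) * δ := by ring
    _ ≤ (ε / 2 + ε / 2) * δ := mul_le_mul_of_nonneg_right (add_le_add hε₁K hε₂K) hδ.le
    _ = ε * δ := by ring

end Pool.Agent.K7.H28.AF
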