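import Pool.Agent.K7.H28.AF.Moll

/-!
# Maps which are asymptotically affine at small scales: the class on manifolds
-/

set_option autoImplicit false

open Set Filter Topology Metric Function MeasureTheory
open scoped Manifold ContDiff

noncomputable section

namespace Pool.Agent.K7.H28.AF

open Pool.Agent.Y522 Pool.Agent.Y954.SH
open Pool.Agent.Y207.SH3 (kr_smul_integrable)

variable {n : ℕ}

section defs

variable (n) {X Y : Type} [TopologicalSpace X] [ChartedSpace (E n) X]
  [TopologicalSpace Y] [ChartedSpace (E n) Y]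

/-- `F : X → ℝ^n` is asymptotically affine at small scales near `x`, in some smooth parametrization
around `x` -/
def AAE (F : X → E n) (x : X) : Prop :=
  ∃ A : E n → X, A 0 = x ∧ LD n A 0 ∧ AAt n (fun p => F (A p)) 0

/-- `f : X → Y` is asymptotically affine at small scales near `x`, in some smooth coordinates -/
def AAM (f : X → Y) (x : X) : Prop :=
  ∃ B : Y → E n, LD n B (f x) ∧ AAE n (fun y => B (f y)) x

end defs

theorem AAt.shift {h : E n → E n} {z : E n} (H : AAt n h z) : AAt n (fun p => h (z + p)) 0 := by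
  refine AAt.comp_right (h := h) (α := fun p => z + p) (ContinuousLinearEquiv.refl ℝ (E n)) ?_ ?_
  · exact (hasStrictFDerivAt_id (0 : E n)).const_add z
  · rw [add_zero]
    exact H

theorem AAt.of_LD {G : E n → E n} {z : E n} (hG : LD n G z) : AAt n G z := by
  obtain ⟨D, hD⟩ := hG.exists_equiv
  have h1 : HasStrictFDerivAt G (D : E n →L[ℝ] E n) z :=
    hG.contDiffAt.hasStrictFDerivAt' hD (by simp)
  refine AAt.comp_right (h := fun w => w) D h1 ?_
  intro ε hε
  refine ⟨1, one_pos, fun p _ δ hδ _ => ⟨ContinuousLinearEquiv.refl ℝ (E n), fun q _ => ?_⟩⟩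
  have : (ContinuousLinearEquiv.refl ℝ (E n)).symm (q - p) - (q - p) = 0 := sub_self _
  rw [this, norm_zero]
  positivity

section mfd

variable {X Y : Type} [TopologicalSpace X] [ChartedSpace (E n) X]
  [TopologicalSpace Y] [ChartedSpace (E n) Y]

theorem AAE.congr {F F' : X → E n} {x : X} (h : AAE n F x) (he : F' =ᶠ[𝓝 x] F) : AAE n F' x := by
  obtain ⟨A, hA0, hAd, hA⟩ := h
  refine ⟨A, hA0, hAd, hA.congr ?_⟩
  have h2 := hAd.continuousAt
  rw [ContinuousAt, hA0] at h2
  exact h2.eventually he

/-- the class in any chart of the source -/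
theorem AAE.chart {F : X → E n} {A : E n → X} {z : E n} (hA : LD n A z)
    (h : LD n F (A z) ∨ AAE n F (A z)) : AAt n (fun p => F (A p)) z := by
  rcases h with h | ⟨A₀, h0, hd, hm⟩
  · exact AAt.of_LD (LD.comp_fun h hA)
  · obtain ⟨p, hp1, hp2, hp3, hp4⟩ := hd.exists_inverse
    rw [h0] at hp1 hp2 hp4
    have hα : LD n (fun w => p (A w)) z := LD.comp_fun hp1 hA
    obtain ⟨D, hD⟩ := hα.exists_equiv
    have hDs : HasStrictFDerivAt (fun w => p (A w)) (D : E n →L[ℝ] E n) z :=
      hα.contDiffAt.hasStrictFDerivAt' hD (by simp)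
    have h1 : AAt n (fun w => F (A₀ (p (A w)))) z :=
      AAt.comp_right (h := fun q => F (A₀ q)) (α := fun w => p (A w)) D hDs (by
        rw [hp2]
        exact hm)
    refine h1.congr ?_
    filter_upwards [hA.continuousAt.eventually hp4] with w hw
    rw [hw]

theorem AAE.of_chart {F : X → E n} {A : E n → X} {z : E n} (hA : LD n A z)
    (h : AAt n (fun p => F (A p)) z) : AAE n F (A z) := by
  refine ⟨fun p => A (z + p), by simp, ?_, h.shift⟩
  have h1 : LD n (fun p : E n => z + p) 0 := by
    have h2 : (fun p : E n => z + p) = fun p => p + z := by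
      funext p
      exact add_comm _ _
    rw [h2]
    exact LD_add_const z 0
  refine LD.comp_fun ?_ h1
  simpa using hA

theorem AAE.change {f : X → Y} {x : X} {B B' : Y → E n} (hf : ContinuousAt f x)
    (hB : LD n B (f x)) (hB' : LD n B' (f x)) (h : AAE n (fun y => B (f y)) x) :
    AAE n (fun y => B' (f y)) x := by
  obtain ⟨p, hp1, hp2, hp3, -⟩ := hB.exists_inverse
  obtain ⟨A, hA0, hAd, hm⟩ := h
  have hfA : ContinuousAt (fun q => f (A q)) 0 := by
    refine ContinuousAt.comp (g := f) ?_ hAd.continuousAt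
    rw [hA0]
    exact hf
  have hc : ContinuousAt (fun q => B (f (A q))) 0 := by
    refine ContinuousAt.comp (g := B) ?_ hfA
    rw [hA0]
    exact hB.continuousAt
  have hτ : LD n (fun z => B' (p z)) (B (f (A 0))) := by
    rw [hA0]
    exact LD.comp_fun (by rw [hp2]; exact hB') hp1
  refine ⟨A, hA0, hAd, (AAt.comp_left (h := fun q => B (f (A q))) (β := fun z => B' (p z))
    hc hτ hm).congr ?_⟩
  have h1 : ∀ᶠ q in 𝓝 (0 : E n), p (B (f (A q))) = f (A q) := by
    have h2 : Tendsto (fun q => f (A q)) (𝓝 0) (𝓝 (f x)) := by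
      have := hfA.tendsto
      rwa [hA0] at this
    exact h2.eventually hp3
  filter_upwards [h1] with q hq
  rw [hq]

theorem AAM.congr {f f' : X → Y} {x : X} (h : AAM n f x) (he : f' =ᶠ[𝓝 x] f) : AAM n f' x := by
  obtain ⟨B, hB, h1⟩ := h
  refine ⟨B, ?_, AAE.congr h1 ?_⟩
  · rw [he.self_of_nhds]
    exact hB
  · filter_upwards [he] with y hy
    rw [hy]

end mfd

/-- The mollification of a map which is asymptotically affine at small scales is so at the points
where the radius vanishes. -/
theorem AAt.moll {G : E n → E n} {c : E n → ℝ} {z₀ : E n} (H : AAt n G z₀)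
    (hG : ContinuousOn G (closedBall 0 2)) (h0 : ∀ z, 0 ≤ c z) (h1 : ∀ z, c z ≤ 1 / 4)
    (h2 : ∀ z, 1 < ‖z‖ → c z = 0) (hL : ∀ y z, |c y - c z| ≤ 1 / 2 * ‖y - z‖)
    (hz₀ : ‖z₀‖ ≤ 1) (hcz : c z₀ = 0) : AAt n (Moll n G c) z₀ := by
  obtain ⟨C, hC0, hC⟩ := moll_aff n
  intro ε hε
  obtain ⟨ε', hε', hε'1, hε'2⟩ : ∃ e : ℝ, 0 < e ∧ 6 * e ≤ ε ∧ C * e ≤ ε := by
    refine ⟨ε / (6 + C), by positivity, ?_, ?_⟩
    · rw [mul_div_assoc', div_le_iff₀ (by positivity)]
      nlinarith
    · rw [mul_div_assoc', div_le_iff₀ (by positivity)]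
      nlinarith
  obtain ⟨r', hr', hA⟩ := H ε' hε'
  obtain ⟨r, hr, hr1, hr2⟩ : ∃ r : ℝ, 0 < r ∧ 3 * r ≤ r' ∧ r ≤ 1 / 8 :=
    ⟨min (r' / 3) (1 / 8), lt_min (by linarith) (by norm_num), by
      have := min_le_left (r' / 3) (1 / 8)
      linarith, min_le_right _ _⟩
  refine ⟨r, hr, fun p hp δ hδ hδr => ?_⟩
  have hp' : ‖p - z₀‖ ≤ r := by
    rw [mem_closedBall, dist_eq_norm] at hp
    exact hp
  have hpn : ‖p‖ ≤ 1 + r := by
    have h3 : p = z₀ + (p - z₀) := by abel
    rw [h3]
    exact (norm_add_le _ _).trans (add_le_add hz₀ hp')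
  have hcp : c p ≤ 1 / 2 * r := by
    have h3 := hL p z₀
    rw [hcz, sub_zero] at h3
    exact (le_abs_self _).trans (h3.trans (by linarith))
  have hpr' : p ∈ closedBall z₀ r' := closedBall_subset_closedBall (by linarith) hp
  rcases le_or_gt (c p) δ with hcδ | hcδ
  · -- the scale is larger than the radius
    obtain ⟨L, hL1⟩ := hA p hpr' (3 * δ) (by linarith) (by linarith)
    have hball : ∀ q : E n, ‖q - p‖ ≤ δ → ∀ s : E n, ‖s‖ ≤ 1 → ‖(q + c q • s) - p‖ ≤ 3 * δ := by
      intro q hq s hs
      have h3 : c q ≤ 2 * δ := by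
        have h4 := (le_abs_self _).trans (hL q p)
        linarith
      have h4 : q + c q • s - p = (q - p) + c q • s := by abel
      rw [h4]
      refine (norm_add_le _ _).trans ?_
      rw [norm_smul, Real.norm_of_nonneg (h0 q)]
      have h5 : c q * ‖s‖ ≤ c q * 1 := mul_le_mul_of_nonneg_left hs (h0 q)
      linarith
    have hbig : ∀ y : E n, ‖y - p‖ ≤ 3 * δ → y ∈ closedBall (0 : E n) 2 := by
      intro y hy
      rw [mem_closedBall_zero_iff]
      have h3 : y = (y - p) + p := by abel
      rw [h3]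
      refine (norm_add_le _ _).trans ?_
      linarith
    have key : ∀ q : E n, ‖q - p‖ ≤ δ →
        ‖(L.symm (Moll n G c q) - L.symm (G p)) - (q - p)‖ ≤ 3 * ε' * δ := by
      intro q hq
      have c1 : ContinuousOn (fun s : E n => G (q + c q • s)) (closedBall 0 1) := by
        refine hG.comp (by fun_prop) ?_
        intro s hs
        rw [mem_closedBall_zero_iff] at hs
        exact hbig _ (hball q hq s hs)
      have c2 : ContinuousOn (fun s : E n => L.symm (G (q + c q • s)) - L.symm (G p) - c q • s)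
          (closedBall 0 1) :=
        ((L.symm.continuous.comp_continuousOn c1).sub continuousOn_const).sub (by fun_prop)
      have h3 := Pool.Agent.Y25.SH.norm_mean_sub_le (v := q - p) (r := 3 * ε' * δ) c2 (by
        intro s hs
        have h4 := hL1 _ (hball q hq s hs)
        have h5 : L.symm (G (q + c q • s)) - L.symm (G p) - c q • s - (q - p) =
            L.symm (G (q + c q • s) - G p) - (q + c q • s - p) := by
          have h6 : L.symm (G (q + c q • s) - G p) = L.symm (G (q + c q • s)) - L.symm (G p) :=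
            map_sub _ _ _
          rw [h6]
          abel
        rw [h5]
        refine h4.trans (le_of_eq ?_)
        ring)
      have h4 : ∫ s, kr n s • (L.symm (G (q + c q • s)) - L.symm (G p) - c q • s) =
          L.symm (Moll n G c q) - L.symm (G p) := by
        have i1 := kr_smul_integrable c1
        have i2 : Integrable (fun s : E n => L.symm (kr n s • G (q + c q • s))) :=
          (L.symm : E n →L[ℝ] E n).integrable_comp i1
        have i3 : Integrable (fun s : E n => kr n s • L.symm (G p)) := kr_integrable.smul_const _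
        have i4 : Integrable (fun s : E n => kr n s • (c q • s)) :=
          kr_smul_integrable (by fun_prop)
        have h5 : ∀ s : E n, kr n s • (L.symm (G (q + c q • s)) - L.symm (G p) - c q • s) =
            (L.symm (kr n s • G (q + c q • s)) - kr n s • L.symm (G p)) - kr n s • (c q • s) := by
          intro s
          rw [map_smul, smul_sub, smul_sub]
        simp only [h5]
        have j1 : ∫ s, (L.symm (kr n s • G (q + c q • s)) - kr n s • L.symm (G p)) -
            kr n s • (c q • s) = (∫ s, (L.symm (kr n s • G (q + c q • s)) -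
              kr n s • L.symm (G p))) - ∫ s, kr n s • (c q • s) := integral_sub (i2.sub i3) i4
        have j2 : ∫ s, (L.symm (kr n s • G (q + c q • s)) - kr n s • L.symm (G p)) =
            (∫ s, L.symm (kr n s • G (q + c q • s))) - ∫ s, kr n s • L.symm (G p) :=
          integral_sub i2 i3
        have j3 : ∫ s, kr n s • (c q • s) = (0 : E n) := by
          have h6 : ∀ s : E n, kr n s • (c q • s) = c q • (kr n s • s) := fun s => smul_comm _ _ _
          simp only [h6]
          rw [integral_smul, kr_first, smul_zero]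
        have j4 : ∫ s, L.symm (kr n s • G (q + c q • s)) = L.symm (Moll n G c q) :=
          (L.symm : E n →L[ℝ] E n).integral_comp_comm i1
        rw [j1, j2, j3, j4, sub_zero, integral_smul_const, kr_int, one_smul]
      rw [h4] at h3
      exact h3
    refine ⟨L, fun q hq => ?_⟩
    have h3 := key q hq
    have h4 := key p (by rw [sub_self, norm_zero]; exact hδ.le)
    have h5 : L.symm (Moll n G c q - Moll n G c p) - (q - p) =
        ((L.symm (Moll n G c q) - L.symm (G p)) - (q - p)) -
          ((L.symm (Moll n G c p) - L.symm (G p)) - (p - p)) := by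
      have h6 : L.symm (Moll n G c q - Moll n G c p) =
        L.symm (Moll n G c q) - L.symm (Moll n G c p) := map_sub _ _ _
      rw [h6]
      abel
    rw [h5]
    refine (norm_sub_le _ _).trans ?_
    calc _ ≤ 3 * ε' * δ + 3 * ε' * δ := add_le_add h3 h4
      _ = (6 * ε') * δ := by ring
      _ ≤ ε * δ := mul_le_mul_of_nonneg_right hε'1 hδ.le
  · -- the scale is smaller than the radius
    have hcp0 : 0 < c p := hδ.trans hcδ
    have hp1 : ‖p‖ ≤ 1 := by
      by_contra h
      rw [h2 p (not_le.1 h)] at hcp0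
      exact lt_irrefl _ hcp0
    obtain ⟨L, hL1⟩ := hA p hpr' (3 * c p) (by linarith) (by linarith)
    refine ⟨L, fun q hq => ?_⟩
    have h3 := hC G c p q L ε' hcp0 hε'.le (hG.mono (by
      intro y hy
      rw [mem_closedBall, dist_eq_norm] at hy
      rw [mem_closedBall_zero_iff]
      have h3 : y = (y - p) + p := by abel
      rw [h3]
      refine (norm_add_le _ _).trans ?_
      have := h1 p
      linarith)) (hL q p) (hq.trans hcδ.le) hL1
    refine h3.trans ?_
    calc C * ε' * ‖q - p‖ ≤ C * ε' * δ := mul_le_mul_of_nonneg_left hq (by positivity)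
      _ ≤ ε * δ := mul_le_mul_of_nonneg_right hε'2 hδ.le

/-- The mollification of a map which is nearly affine at the scale of the mollification has an
invertible derivative. -/
theorem moll_LD (n : ℕ) : ∃ ε₀ : ℝ, 0 < ε₀ ∧ ∀ (G : E n → E n) (c : E n → ℝ) (z : E n)
    (L : E n ≃L[ℝ] E n), 0 < c z → ContinuousOn G (closedBall z (3 * c z)) →
    (∀ z', |c z' - c z| ≤ 1 / 2 * ‖z' - z‖) →
    (∀ y, ‖y - z‖ ≤ 3 * c z → ‖L.symm (G y - G z) - (y - z)‖ ≤ ε₀ * (3 * c z)) →
    (∀ᶠ y in 𝓝 z, ContDiffAt ℝ ∞ (Moll n G c) y) → LD n (Moll n G c) z := by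
  obtain ⟨C, hC0, hC⟩ := moll_aff n
  refine ⟨1 / (2 * (C + 1)), by positivity, fun G c z L hcz hG hcc hL hsm => ?_⟩
  refine Pool.Agent.Y207.SH3.LD_of_pos hsm fun u hu h0 => ?_
  have hd : HasFDerivAt (Moll n G c) (fderiv ℝ (Moll n G c) z) z :=
    (hsm.self_of_nhds.differentiableAt (by simp)).hasFDerivAt
  obtain ⟨Φ, hΦ⟩ : ∃ Φ : E n → E n, Φ = fun y => L.symm (Moll n G c y - Moll n G c z) - (y - z) :=
    ⟨_, rfl⟩
  have hΦd : HasFDerivAt Φ ((L.symm : E n →L[ℝ] E n).comp (fderiv ℝ (Moll n G c) z) -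
      ContinuousLinearMap.id ℝ (E n)) z := by
    rw [hΦ]
    exact (((L.symm : E n →L[ℝ] E n).hasFDerivAt).comp z (hd.sub_const _)).sub
      ((hasFDerivAt_id z).sub_const z)
  have hlip : ∀ᶠ y in 𝓝 z, ‖Φ y - Φ z‖ ≤ 1 / 2 * ‖y - z‖ := by
    filter_upwards [ball_mem_nhds z hcz] with y hy
    rw [mem_ball, dist_eq_norm] at hy
    have h1 := hC G c z y L (1 / (2 * (C + 1))) hcz (by positivity) hG (hcc y) hy.le hL
    have h2 : Φ z = 0 := by
      rw [hΦ]
      change L.symm (Moll n G c z - Moll n G c z) - (z - z) = 0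
      rw [sub_self, map_zero, sub_self, sub_zero]
    rw [h2, sub_zero, hΦ]
    refine h1.trans (mul_le_mul_of_nonneg_right ?_ (norm_nonneg _))
    rw [mul_one_div, div_le_iff₀ (by positivity)]
    linarith
  have hn := hΦd.le_of_lip' (by norm_num) hlip
  have h3 : ((L.symm : E n →L[ℝ] E n).comp (fderiv ℝ (Moll n G c) z) -
      ContinuousLinearMap.id ℝ (E n)) u = - u := by
    change L.symm (fderiv ℝ (Moll n G c) z u) - u = -u
    rw [h0, map_zero, zero_sub]
  have h4 := ((L.symm : E n →L[ℝ] E n).comp (fderiv ℝ (Moll n G c) z) -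
      ContinuousLinearMap.id ℝ (E n)).le_opNorm u
  rw [h3, norm_neg, hu, mul_one] at h4
  linarith

end Pool.Agent.K7.H28.AF
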