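import Pool.Agent.K7.H28.AF.EFam

/-!
# Almost affine maps with a fixed error in finitely many given boxes of the source

The number of the steps is bounded in terms of the boxes only: each box is cut into small balls,
coloured with a fixed number of colours such that balls of the same colour are disjoint; all balls of
one colour are treated at the same time.
-/

set_option autoImplicit false

open Set Filter Topology Metric Function MeasureTheory
open scoped Manifold ContDiff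

noncomputable section

namespace Pool.Agent.K7.H28.AF

open Pool.Agent.Y522 Pool.Agent.R765

/-- the points of a lattice -/
def lat (n : ℕ) (h : ℝ) (k : Fin n → ℤ) : E n := WithLp.toLp 2 fun i => h * (k i : ℝ)

theorem lat_apply {n : ℕ} (h : ℝ) (k : Fin n → ℤ) (i : Fin n) : lat n h k i = h * (k i : ℝ) := rfl

theorem lat_near {n : ℕ} {h : ℝ} (hh : 0 < h) (z : E n) : ∃ k, ‖z - lat n h k‖ ≤ n * (h / 2) := by
  refine ⟨fun i => round (z i / h), ?_⟩
  obtain ⟨v, hv⟩ : ∃ v, v = z - lat n h fun i => round (z i / h) := ⟨_, rfl⟩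
  rw [← hv]
  have h1 : ∀ i, ‖v i‖ ≤ h / 2 := by
    intro i
    have h2 : v i = h * (z i / h - (round (z i / h) : ℝ)) := by
      rw [hv]
      change z i - h * _ = _
      rw [mul_sub, mul_div_cancel₀ _ hh.ne']
    rw [h2, norm_mul, Real.norm_of_nonneg hh.le, Real.norm_eq_abs]
    have h3 := abs_sub_round (z i / h)
    calc h * |z i / h - (round (z i / h) : ℝ)| ≤ h * (1 / 2) := mul_le_mul_of_nonneg_left h3 hh.le
      _ = h / 2 := by ring
  refine (sq_le_sq₀ (norm_nonneg _) (by positivity)).1 ?_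
  rw [EuclideanSpace.norm_sq_eq]
  calc ∑ i, ‖v i‖ ^ 2 ≤ ∑ _i : Fin n, (h / 2) ^ 2 :=
        Finset.sum_le_sum fun i _ => pow_le_pow_left₀ (norm_nonneg _) (h1 i) 2
    _ = n * (h / 2) ^ 2 := by
        rw [Finset.sum_const, Finset.card_univ, Fintype.card_fin, nsmul_eq_mul]
    _ ≤ (n : ℝ) ^ 2 * (h / 2) ^ 2 := by
        refine mul_le_mul_of_nonneg_right ?_ (sq_nonneg _)
        rcases Nat.eq_zero_or_pos n with h2 | h2
        · rw [h2]
          simp
        · have h3 : (1 : ℝ) ≤ n := by exact_mod_cast h2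
          nlinarith
    _ = (n * (h / 2)) ^ 2 := by ring

theorem lat_sep {n M : ℕ} {h : ℝ} (hh : 0 < h) {k k' : Fin n → ℤ} (hne : k ≠ k')
    (hcol : ∀ i, (k i : ZMod M) = (k' i : ZMod M)) : h * M ≤ ‖lat n h k - lat n h k'‖ := by
  obtain ⟨i, hi⟩ := Function.ne_iff.1 hne
  have h1 : ‖(lat n h k - lat n h k') i‖ ≤ ‖lat n h k - lat n h k'‖ :=
    PiLp.norm_apply_le _ i
  refine le_trans ?_ h1
  have h2 : (lat n h k - lat n h k') i = h * ((k i - k' i : ℤ) : ℝ) := by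
    change h * (k i : ℝ) - h * (k' i : ℝ) = _
    push_cast
    ring
  rw [h2, norm_mul, Real.norm_of_nonneg hh.le, Real.norm_eq_abs]
  refine mul_le_mul_of_nonneg_left ?_ hh.le
  have h3 := (ZMod.intCast_eq_intCast_iff_dvd_sub _ _ _).1 (hcol i).symm
  have h4 : (M : ℤ) ≤ |k i - k' i| := Int.le_of_dvd (abs_pos.2 (sub_ne_zero.2 hi))
    ((dvd_abs _ _).2 h3)
  calc (M : ℝ) = ((M : ℤ) : ℝ) := by simp
    _ ≤ ((|k i - k' i| : ℤ) : ℝ) := by exact_mod_cast h4
    _ = _ := by push_cast; rfl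

theorem eall (n : ℕ) (X : Type) [TopologicalSpace X] [T2Space X] [ChartedSpace (E n) X]
    (J : Type) [Fintype J] (A : J → E n → X) (hAi : ∀ j, InjOn (A j) (closedBall 0 2))
    (hAd : ∀ j, ∀ z ∈ closedBall (0 : E n) 2, LD n (A j) z) :
    ∃ ε₀ : ℝ, 0 < ε₀ ∧ ∀ (Y : Type) [TopologicalSpace Y] [ChartedSpace (E n) Y] (f : C(X, Y))
      (O : Set (X × Y)) (U : Set X) (T : Type) [NormedAddCommGroup T] [NormedSpace ℝ T]
      [CompleteSpace T] (τ : Y → T), (∀ y, Nonempty (TChart n Y T τ y)) →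
      (∀ j, ∃ (a : E n →L[ℝ] T) (b : T), ∀ z ∈ closedBall (0 : E n) 2, τ (f (A j z)) = a z + b) →
      (∀ x, LD n f x ∨ ∃ j, ∃ z : E n, ‖z‖ ≤ 1 / 2 ∧ A j z = x) →
      (∀ j, ∀ z ∈ closedBall (0 : E n) 2, EC n ε₀ f (A j) z) → IsOpen O → (∀ x, (x, f x) ∈ O) →
      IsOpen U → (∀ x, LD n f x ∨ x ∈ U) →
      ∃ (f' : C(X, Y)) (C : Set X), IsCompact C ∧ HomRel O C f f' ∧ (∀ x, LD n f' x) ∧
        (∀ x, τ (f' x) = τ (f x)) ∧ ∀ x, x ∉ U → f' x = f x := by
  classical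
  obtain ⟨ε₁, C₁, hε₁, hε₁1, hC₁, hfam⟩ := efam n
  -- the factor of the changes of boxes
  have hκ0 : ∀ p : J × J, ∃ κ : ℝ, 1 ≤ κ ∧ ∀ z ∈ closedBall (0 : E n) 2,
      ∀ w ∈ closedBall (0 : E n) 2, A p.1 z = A p.2 w → ∀ (F : X → E n) (ε : ℝ), 0 < ε →
        EA n ε (fun q => F (A p.2 q)) w → EA n (κ * ε) (fun q => F (A p.1 q)) z := fun p =>
    ea_transfer n X (A p.1) (A p.2) (hAd p.1) (hAd p.2)
  choose κ₀ hκ₀1 hκ₀ using hκ0
  obtain ⟨κ, hκ1, hκ⟩ : ∃ κ : ℝ, 1 ≤ κ ∧ ∀ j k : J, ∀ z ∈ closedBall (0 : E n) 2,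
      ∀ w ∈ closedBall (0 : E n) 2, A j z = A k w → ∀ (F : X → E n) (ε : ℝ), 0 < ε →
        EA n ε (fun q => F (A k q)) w → EA n (κ * ε) (fun q => F (A j q)) z := by
    have hs0 : 0 ≤ ∑ p : J × J, κ₀ p := Finset.sum_nonneg fun p _ => by linarith [hκ₀1 p]
    refine ⟨(∑ p : J × J, κ₀ p) + 1, by linarith, fun j k z hz w hw hzw F ε hε hF => ?_⟩
    refine (hκ₀ (j, k) z hz w hw hzw F ε hε hF).mono (mul_le_mul_of_nonneg_right ?_ hε.le)
    have h1 : κ₀ (j, k) ≤ ∑ p : J × J, κ₀ p :=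
      Finset.single_le_sum (fun p _ => by linarith [hκ₀1 p]) (Finset.mem_univ (j, k))
    linarith
  obtain ⟨Γ, hΓd⟩ : ∃ Γ : ℝ, Γ = κ * C₁ := ⟨_, rfl⟩
  have hΓ1 : 1 ≤ Γ := by rw [hΓd]; nlinarith
  obtain ⟨M, hMd⟩ : ∃ M : ℕ, M = 4 * (n + 1) := ⟨_, rfl⟩
  have hMz : NeZero M := ⟨by rw [hMd]; omega⟩
  obtain ⟨N₁, hN₁⟩ : ∃ N₁ : ℕ, N₁ = Fintype.card (J × (Fin n → ZMod M)) := ⟨_, rfl⟩
  have hΓN : 0 < Γ ^ N₁ := by positivity
  refine ⟨ε₁ / Γ ^ N₁, by positivity, ?_⟩
  intro Y _ _ f O U T _ _ _ τ hτ hσ hcov hx hO hfO hU hLU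
  rcases isEmpty_or_nonempty Y with hYe | hYn
  · have hXe : IsEmpty X := ⟨fun x => hYe.elim (f x)⟩
    exact ⟨f, ∅, isCompact_empty, HomRel.refl hfO, fun x => hXe.elim x, fun _ => rfl, fun _ _ => rfl⟩
  obtain ⟨ε₀, hε₀d⟩ : ∃ ε₀ : ℝ, ε₀ = ε₁ / Γ ^ N₁ := ⟨_, rfl⟩
  rw [← hε₀d] at hx
  have hε₀ : 0 < ε₀ := by rw [hε₀d]; positivity
  choose a b hab using hσ
  choose ch _ using fun y => exists_true_iff_nonempty.2 (hτ y)
  -- the scale
  have hleb : ∀ j : J, ∃ δ : ℝ, 0 < δ ∧ ∀ q ∈ closedBall (0 : E n) 2, ∃ y : Y,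
      ∀ z ∈ ball q δ, f (A j z) ∈ (ch y).V := by
    intro j
    obtain ⟨δ, hδ, h1⟩ := lebesgue_number_lemma_of_metric
      (c := fun y : Y => interior ((fun z => f (A j z)) ⁻¹' (ch y).V))
      (isCompact_closedBall (0 : E n) 2) (fun y => isOpen_interior) (by
        intro z hz
        refine mem_iUnion.2 ⟨f (A j z), ?_⟩
        rw [mem_interior_iff_mem_nhds]
        have h2 : ContinuousAt (fun z => f (A j z)) z :=
          ContinuousAt.comp (g := f) f.continuous.continuousAt (hAd j z hz).continuousAt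
        exact h2.preimage_mem_nhds ((ch (f (A j z))).isOpen.mem_nhds (ch (f (A j z))).mem))
    refine ⟨δ, hδ, fun q hq => ?_⟩
    obtain ⟨y, hy⟩ := h1 q hq
    refine ⟨y, fun z hz => ?_⟩
    have h3 : z ∈ (fun z => f (A j z)) ⁻¹' (ch y).V := interior_subset (hy hz)
    exact h3
  have hleb2 : ∀ j : J, ∃ δ : ℝ, 0 < δ ∧ ∀ q ∈ closedBall (0 : E n) 2,
      (∃ z ∈ ball q δ, ¬ LD n f (A j z)) → ∀ z ∈ ball q δ, A j z ∈ U := by
    intro j
    obtain ⟨δ, hδ, h1⟩ := lebesgue_number_lemma_of_metric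
      (c := fun y : Bool => interior {z | cond y (LD n f (A j z)) (A j z ∈ U)})
      (isCompact_closedBall (0 : E n) 2) (fun y => isOpen_interior) (by
        intro z hz
        rcases hLU (A j z) with h2 | h2
        · refine mem_iUnion.2 ⟨true, ?_⟩
          rw [mem_interior_iff_mem_nhds]
          exact (hAd j z hz).continuousAt.eventually h2.eventually
        · refine mem_iUnion.2 ⟨false, ?_⟩
          rw [mem_interior_iff_mem_nhds]
          exact (hAd j z hz).continuousAt.eventually (hU.mem_nhds h2))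
    refine ⟨δ, hδ, fun q hq hbad z hz => ?_⟩
    obtain ⟨y, hy⟩ := h1 q hq
    cases y with
    | true =>
      exfalso
      obtain ⟨w, hw, hw2⟩ := hbad
      exact hw2 (interior_subset (hy hw) : w ∈ {z | cond true (LD n f (A j z)) (A j z ∈ U)})
    | false =>
      exact (interior_subset (hy hz) : z ∈ {z | cond false (LD n f (A j z)) (A j z ∈ U)})
  choose δ hδ hleb using hleb
  choose δ' hδ' hleb2 using hleb2
  obtain ⟨s, hs, hs2, hsδ, hsδ'⟩ : ∃ s : ℝ, 0 < s ∧ s ≤ 1 / 2 ∧ (∀ j, 2 * s < δ j) ∧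
      ∀ j, 2 * s < δ' j := by
    have h1 : ∀ᶠ s : ℝ in 𝓝[>] 0, 0 < s := eventually_mem_nhdsWithin
    have h2 : ∀ᶠ s : ℝ in 𝓝[>] 0, s < 1 / 2 :=
      (gt_mem_nhds (by norm_num : (0 : ℝ) < 1 / 2)).filter_mono nhdsWithin_le_nhds
    have h3 : ∀ᶠ s : ℝ in 𝓝[>] 0, ∀ j, s < δ j / 2 := eventually_all.2 fun j =>
      (gt_mem_nhds (by have := hδ j; linarith : (0 : ℝ) < δ j / 2)).filter_mono nhdsWithin_le_nhds
    have h3' : ∀ᶠ s : ℝ in 𝓝[>] 0, ∀ j, s < δ' j / 2 := eventually_all.2 fun j =>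
      (gt_mem_nhds (by have := hδ' j; linarith : (0 : ℝ) < δ' j / 2)).filter_mono
        nhdsWithin_le_nhds
    obtain ⟨s, ⟨⟨h4, h5⟩, h6⟩, h7⟩ := (((h1.and h2).and h3).and h3').exists
    exact ⟨s, h4, h5.le, fun j => by have := h6 j; linarith, fun j => by have := h7 j; linarith⟩
  obtain ⟨h, hhd⟩ : ∃ h : ℝ, h = s / (n + 1) := ⟨_, rfl⟩
  have hn1 : (0 : ℝ) < n + 1 := by positivity
  have hh : 0 < h := by rw [hhd]; positivity
  have hhn : h * (n + 1) = s := by rw [hhd]; field_simp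
  obtain ⟨N, hN⟩ : ∃ N : ℤ, 1 / h ≤ N := exists_int_ge _
  obtain ⟨K, hKd⟩ : ∃ K : Finset (Fin n → ℤ), K = (Fintype.piFinset
    fun _ : Fin n => Finset.Icc (-N) N).filter fun k => ‖lat n h k‖ ≤ 1 := ⟨_, rfl⟩
  have hKm : ∀ k, k ∈ K ↔ ‖lat n h k‖ ≤ 1 := by
    intro k
    rw [hKd, Finset.mem_filter, Fintype.mem_piFinset]
    refine ⟨fun h1 => h1.2, fun h1 => ⟨fun i => ?_, h1⟩⟩
    have h2 : ‖lat n h k i‖ ≤ 1 := (PiLp.norm_apply_le _ i).trans h1
    rw [lat_apply, norm_mul, Real.norm_of_nonneg hh.le, Real.norm_eq_abs] at h2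
    have h3 : |(k i : ℝ)| ≤ N := by
      refine le_trans ?_ hN
      rw [le_div_iff₀ hh]
      linarith
    have h4 := abs_le.1 h3
    rw [Finset.mem_Icc]
    constructor
    · have h5 : ((-N : ℤ) : ℝ) ≤ (k i : ℝ) := by push_cast; exact h4.1
      exact_mod_cast h5
    · exact_mod_cast h4.2
  have hch : ∀ (j : J) (k : Fin n → ℤ), k ∈ K → ∃ y : Y, ∀ z, ‖z - lat n h k‖ ≤ 2 * s →
      f (A j z) ∈ (ch y).V := by
    intro j k hk
    obtain ⟨y, hy⟩ := hleb j (lat n h k) (by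
      rw [mem_closedBall_zero_iff]
      have := (hKm k).1 hk
      linarith)
    refine ⟨y, fun z hz => hy z ?_⟩
    rw [mem_ball, dist_eq_norm]
    exact hz.trans_lt (hsδ j)
  choose! yy hyy using hch
  have hballs : ∀ k ∈ K, ∀ z : E n, ‖z - lat n h k‖ ≤ 2 * s → z ∈ closedBall (0 : E n) 2 := by
    intro k hk z hz
    rw [mem_closedBall_zero_iff]
    have h1 : z = (z - lat n h k) + lat n h k := by abel
    rw [h1]
    refine (norm_add_le _ _).trans ?_
    have := (hKm k).1 hk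
    linarith
  have hcpt : ∀ (j : J), ∀ k ∈ K, IsCompact (A j '' closedBall (lat n h k) (2 * s)) := by
    intro j k hk
    apply (isCompact_closedBall _ _).image_of_continuousOn
    intro z hz
    rw [mem_closedBall, dist_eq_norm] at hz
    exact (hAd j z (hballs k hk z hz)).continuousAt.continuousWithinAt
  -- the smaller neighbourhood of the graph
  obtain ⟨O', hO'd⟩ : ∃ O' : Set (X × Y), O' = O ∩ ⋂ j ∈ (Finset.univ : Finset J), ⋂ k ∈ K,
    {p : X × Y | p.1 ∉ A j '' closedBall (lat n h k) (2 * s) ∨ p.2 ∈ (ch (yy j k)).V} := ⟨_, rfl⟩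
  have hO'm : ∀ p : X × Y, p ∈ O' ↔ p ∈ O ∧ ∀ j, ∀ k ∈ K,
      p.1 ∉ A j '' closedBall (lat n h k) (2 * s) ∨ p.2 ∈ (ch (yy j k)).V := by
    intro p
    rw [hO'd, mem_inter_iff]
    simp only [mem_iInter, Finset.mem_univ, true_imp_iff]
    exact Iff.rfl
  have hO'o : IsOpen O' := by
    rw [hO'd]
    refine hO.inter (isOpen_biInter_finset fun j _ => isOpen_biInter_finset fun k hk => ?_)
    have h1 : IsOpen {p : X × Y | p.1 ∉ A j '' closedBall (lat n h k) (2 * s)} :=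
      (hcpt j k hk).isClosed.isOpen_compl.preimage continuous_fst
    have h2 : IsOpen {p : X × Y | p.2 ∈ (ch (yy j k)).V} :=
      (ch (yy j k)).isOpen.preimage continuous_snd
    exact h1.union h2
  have hfO' : ∀ x, (x, f x) ∈ O' := by
    intro x
    rw [hO'm]
    refine ⟨hfO x, fun j k hk => ?_⟩
    by_cases hx' : x ∈ A j '' closedBall (lat n h k) (2 * s)
    · obtain ⟨z, hz, rfl⟩ := hx'
      rw [mem_closedBall, dist_eq_norm] at hz
      exact Or.inr (hyy j k hk z hz)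
    · exact Or.inl hx'
  obtain ⟨Q, hQd⟩ : ∃ Q : J → (Fin n → ZMod M) → Finset (E n), Q = fun j c =>
    (K.filter fun k => (fun i => (k i : ZMod M)) = c ∧
      ∃ z, ‖z - lat n h k‖ ≤ s / 2 ∧ ¬ LD n f (A j z)).image (lat n h) := ⟨_, rfl⟩
  have hQm : ∀ j c q, q ∈ Q j c ↔ ∃ k ∈ K, (fun i => (k i : ZMod M)) = c ∧
      (∃ z, ‖z - lat n h k‖ ≤ s / 2 ∧ ¬ LD n f (A j z)) ∧ lat n h k = q := by
    intro j c q
    rw [hQd]
    simp only [Finset.mem_image, Finset.mem_filter]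
    constructor
    · rintro ⟨k, ⟨h1, h2, h2'⟩, h3⟩
      exact ⟨k, h1, h2, h2', h3⟩
    · rintro ⟨k, h1, h2, h2', h3⟩
      exact ⟨k, ⟨h1, h2, h2'⟩, h3⟩
  have hQU : ∀ j c q, q ∈ Q j c → A j '' closedBall q s ⊆ U := by
    rintro j c q hq _ ⟨z, hz, rfl⟩
    obtain ⟨k, hk, -, ⟨w, hw, hw2⟩, rfl⟩ := (hQm j c q).1 hq
    have h1 := hsδ' j
    refine hleb2 j (lat n h k) ?_ ⟨w, ?_, hw2⟩ z ?_
    · rw [mem_closedBall_zero_iff]
      have := (hKm k).1 hk
      linarith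
    · rw [mem_ball, dist_eq_norm]
      linarith
    · rw [mem_ball]
      rw [mem_closedBall] at hz
      linarith
  have hcard : ∀ S : Finset (J × (Fin n → ZMod M)), Γ ^ S.card * ε₀ ≤ ε₁ := by
    intro S
    have h1 : S.card ≤ N₁ := by rw [hN₁]; exact Finset.card_le_univ S
    calc Γ ^ S.card * ε₀ ≤ Γ ^ N₁ * ε₀ :=
          mul_le_mul_of_nonneg_right (pow_le_pow_right₀ hΓ1 h1) hε₀.le
      _ = ε₁ := by rw [hε₀d]; field_simp
  -- the induction
  have key : ∀ S : Finset (J × (Fin n → ZMod M)), ∃ (f' : C(X, Y)) (C : Set X), IsCompact C ∧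
      HomRel O' C f f' ∧ (∀ x, LD n f x → LD n f' x) ∧
      (∀ p ∈ S, ∀ q ∈ Q (p : J × (Fin n → ZMod M)).1 p.2, ∀ z, ‖z - q‖ ≤ s / 2 →
        LD n f' (A p.1 z)) ∧ (∀ x, τ (f' x) = τ (f x)) ∧ (∀ x, x ∉ U → f' x = f x) ∧
      ∀ j, ∀ z ∈ closedBall (0 : E n) 2, EC n (Γ ^ S.card * ε₀) f' (A j) z := by
    intro S
    induction S using Finset.induction_on with
    | empty =>
      refine ⟨f, ∅, isCompact_empty, HomRel.refl hfO', fun _ h => h,
        fun q hq => absurd hq (Finset.notMem_empty q), fun _ => rfl, fun _ _ => rfl,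
        fun j z hz => ?_⟩
      rw [Finset.card_empty, pow_zero, one_mul]
      exact hx j z hz
    | insert p S hpS ih =>
      obtain ⟨f1, C1, hC1, h1, h2, h3, h4, h4', h5⟩ := ih
      obtain ⟨j, c⟩ := p
      have h1g := fun x => (h1.off x).1
      obtain ⟨f2, C2, hC2, g1, g2, g3, g4, g5, g5', g6⟩ := hfam X Y f1 (A j) O' T τ (a j) (b j)
        (Γ ^ S.card * ε₀) s (Q j c) (hAi j) (hAd j) hO'o h1g
        (fun z hz => by rw [h4, hab j z hz]) (by positivity) (hcard S) (h5 j) hs hs2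
        (by
          intro q hq
          obtain ⟨k, hk, -, -, rfl⟩ := (hQm j c q).1 hq
          exact (hKm k).1 hk)
        (by
          intro q hq q' hq' hne
          obtain ⟨k, hk, hkc, -, rfl⟩ := (hQm j c q).1 hq
          obtain ⟨k', hk', hkc', -, rfl⟩ := (hQm j c q').1 hq'
          have h6 : k ≠ k' := fun h7 => hne (by rw [h7])
          have h7 := lat_sep (M := M) hh h6 (fun i => by
            have := congrFun (hkc.trans hkc'.symm) i
            exact this)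
          refine lt_of_lt_of_le ?_ h7
          have h8 : h * (M : ℝ) = 4 * s := by
            rw [hMd]
            push_cast
            rw [← hhn]
            ring
          rw [h8]
          linarith)
        (by
          intro q hq
          obtain ⟨k, hk, -, -, rfl⟩ := (hQm j c q).1 hq
          refine ⟨yy j k, ch (yy j k), fun z hz => ?_⟩
          rcases ((hO'm _).1 (h1g (A j z))).2 j k hk with h6 | h6
          · exact absurd ⟨z, by rw [mem_closedBall, dist_eq_norm]; exact hz, rfl⟩ h6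
          · exact h6)
      refine ⟨f2, C1 ∪ C2, hC1.union hC2, h1.trans g1, fun x hx' => g2 x (h2 x hx'), ?_,
        fun x => (g4 x).trans (h4 x), fun x hx' => ?_, ?_⟩
      rotate_left
      · rw [g5' x fun q hq hxq => hx' (hQU j c q hq hxq), h4' x hx']
      rotate_left
      · intro p hp q hq z hz
        rcases Finset.mem_insert.1 hp with h6 | h6
        · subst h6
          exact g3 q hq z hz
        · exact g2 _ (h3 p h6 q hq z hz)
      · intro k z hz
        rw [Finset.card_insert_of_notMem hpS]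
        have hpos : 0 < Γ ^ S.card * ε₀ := by positivity
        have e1 : Γ ^ (S.card + 1) * ε₀ = κ * (C₁ * (Γ ^ S.card * ε₀)) := by
          rw [pow_succ, hΓd]
          ring
        by_cases h6 : A k z ∈ A j '' closedBall 0 2
        · obtain ⟨w, hw, hwz⟩ := h6
          rcases g6 w hw with h7 | ⟨B, hB, h7⟩
          · rw [hwz] at h7
            exact Or.inl h7
          · rw [hwz] at hB
            refine Or.inr ⟨B, hB, ?_⟩
            rw [e1]
            exact hκ k j z hz w hw hwz.symm (fun x => B (f2 x)) _ (by positivity) h7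
        · refine EC.mono (EC.congr (hAd k z hz).continuousAt (h5 k z hz) (g5 _ h6)) ?_
          refine mul_le_mul_of_nonneg_right ?_ hε₀.le
          exact pow_le_pow_right₀ hΓ1 (Nat.le_succ _)
  obtain ⟨f', C, hC, h1, h2, h3, h4, h4', -⟩ := key Finset.univ
  refine ⟨f', C, hC, h1.mono fun p hp => ((hO'm p).1 hp).1, fun x => ?_, h4, h4'⟩
  rcases hcov x with h5 | ⟨j, z, hz, rfl⟩
  · exact h2 x h5
  · by_cases hLz : LD n f (A j z)
    · exact h2 _ hLz
    obtain ⟨k, hk⟩ := lat_near hh z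
    have h6 : (n : ℝ) * (h / 2) ≤ s / 2 := by
      rw [← hhn]
      nlinarith
    have hkK : k ∈ K := by
      rw [hKm]
      have h7 : lat n h k = z - (z - lat n h k) := by abel
      rw [h7]
      refine (norm_sub_le _ _).trans ?_
      linarith
    exact h3 (j, fun i => (k i : ZMod M)) (Finset.mem_univ _) (lat n h k)
      ((hQm _ _ _).2 ⟨k, hkK, rfl, ⟨z, hk.trans h6, hLz⟩, rfl⟩) z (hk.trans h6)

end Pool.Agent.K7.H28.AF
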