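import Pool.Agent.K7.H28.AF.Class

/-!
# Maps which are almost affine at small scales, with a fixed error: local theory
-/

set_option autoImplicit false

open Set Filter Topology Metric Function MeasureTheory
open scoped Manifold ContDiff

noncomputable section

namespace Pool.Agent.K7.H28.AF

open Pool.Agent.Y522 Pool.Agent.Y954.SH
open Pool.Agent.Y207.SH3 (kr_smul_integrable)

variable {n : ℕ}

/-- near `z` and at small scales `δ` the map `h` is affine up to an error `ε δ` -/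
def EA (n : ℕ) (ε : ℝ) (h : E n → E n) (z : E n) : Prop :=
  ∃ r : ℝ, 0 < r ∧ AffOn n h (closedBall z r) ε r

theorem EA.mono {ε ε' : ℝ} {h : E n → E n} {z : E n} (H : EA n ε h z) (he : ε ≤ ε') :
    EA n ε' h z := by
  obtain ⟨r, hr, h1⟩ := H
  exact ⟨r, hr, h1.mono Subset.rfl he le_rfl⟩

theorem AAt.ea {ε : ℝ} {h : E n → E n} {z : E n} (H : AAt n h z) (hε : 0 < ε) : EA n ε h z :=
  H ε hε

theorem EA.congr {ε : ℝ} {h h' : E n → E n} {z : E n} (H : EA n ε h z) (he : h' =ᶠ[𝓝 z] h) :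
    EA n ε h' z := by
  obtain ⟨r, hr, h1⟩ := H
  obtain ⟨ρ, hρ, h2⟩ := Metric.eventually_nhds_iff_ball.1 he
  refine ⟨min r (ρ / 3), lt_min hr (by linarith), ?_⟩
  intro p hp δ hδ hδr
  have hp1 : ‖p - z‖ ≤ ρ / 3 := by
    rw [mem_closedBall, dist_eq_norm] at hp
    exact hp.trans (min_le_right _ _)
  obtain ⟨L, hL⟩ := h1 p (closedBall_subset_closedBall (min_le_left _ _) hp) δ hδ
    (hδr.trans (min_le_left _ _))
  refine ⟨L, fun q hq => ?_⟩
  have hq1 : ‖q - z‖ ≤ ρ / 3 + ρ / 3 := by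
    have h3 : q - z = (q - p) + (p - z) := by abel
    rw [h3]
    exact (norm_add_le _ _).trans (add_le_add (hq.trans (hδr.trans (min_le_right _ _))) hp1)
  rw [h2 q (by rw [mem_ball, dist_eq_norm]; linarith),
    h2 p (by rw [mem_ball, dist_eq_norm]; linarith)]
  exact hL q hq

/-- similarities of the source do not change the error -/
theorem EA.sim {ε : ℝ} {h : E n → E n} {z : E n} (c : E n) {s : ℝ} (hs : 0 < s)
    (H : EA n ε h (c + s • z)) : EA n ε (fun p => h (c + s • p)) z := by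
  obtain ⟨r, hr, h1⟩ := H
  have hsn : s ≠ 0 := hs.ne'
  obtain ⟨S, hS⟩ : ∃ S : E n ≃L[ℝ] E n, ∀ v, S v = s • v :=
    ⟨ContinuousLinearEquiv.smulLeft (Units.mk0 s hsn), fun v => rfl⟩
  have hSs : ∀ v, S.symm v = s⁻¹ • v := by
    intro v
    rw [ContinuousLinearEquiv.symm_apply_eq, hS, smul_smul, mul_inv_cancel₀ hsn, one_smul]
  have hdiff : ∀ p q : E n, (c + s • q) - (c + s • p) = s • (q - p) := by
    intro p q
    rw [smul_sub]
    abel
  refine ⟨min r (r / s), lt_min hr (by positivity), fun p hp δ hδ hδr => ?_⟩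
  have hδ2 : s * δ ≤ r := by
    have := hδr.trans (min_le_right _ _)
    rw [le_div_iff₀ hs] at this
    linarith
  obtain ⟨L, hL⟩ := h1 (c + s • p) (by
      rw [mem_closedBall, dist_eq_norm, hdiff, norm_smul, Real.norm_of_nonneg hs.le]
      rw [mem_closedBall, dist_eq_norm] at hp
      have := hp.trans (min_le_right _ _)
      rw [le_div_iff₀ hs] at this
      linarith) (s * δ) (by positivity) hδ2
  refine ⟨S.trans L, fun q hq => ?_⟩
  have h2 := hL (c + s • q) (by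
    rw [hdiff, norm_smul, Real.norm_of_nonneg hs.le]
    exact mul_le_mul_of_nonneg_left hq hs.le)
  rw [hdiff] at h2
  have h3 : (S.trans L).symm (h (c + s • q) - h (c + s • p)) - (q - p) =
      s⁻¹ • (L.symm (h (c + s • q) - h (c + s • p)) - s • (q - p)) := by
    have h4 : (S.trans L).symm (h (c + s • q) - h (c + s • p)) =
      S.symm (L.symm (h (c + s • q) - h (c + s • p))) := rfl
    rw [h4, hSs, smul_sub, smul_smul, inv_mul_cancel₀ hsn, one_smul]
  rw [h3, norm_smul, norm_inv, Real.norm_of_nonneg hs.le]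
  calc s⁻¹ * _ ≤ s⁻¹ * (ε * (s * δ)) := mul_le_mul_of_nonneg_left h2 (by positivity)
    _ = ε * δ := by field_simp

theorem EA.sim' {ε : ℝ} {h : E n → E n} {z : E n} (c : E n) {s : ℝ} (hs : 0 < s)
    (H : EA n ε (fun p => h (c + s • p)) z) : EA n ε h (c + s • z) := by
  have hsn : s ≠ 0 := hs.ne'
  have h1 := EA.sim (h := fun p => h (c + s • p)) (z := c + s • z) (-(s⁻¹ • c))
    (inv_pos.2 hs) (ε := ε) (by
      have h2 : -(s⁻¹ • c) + s⁻¹ • (c + s • z) = z := by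
        rw [smul_add, smul_smul, inv_mul_cancel₀ hsn, one_smul]
        abel
      rw [h2]
      exact H)
  refine h1.congr (Eventually.of_forall fun p => ?_)
  have h2 : c + s • (-(s⁻¹ • c) + s⁻¹ • p) = p := by
    rw [smul_add, smul_neg, smul_smul, smul_smul, mul_inv_cancel₀ hsn, one_smul, one_smul]
    abel
  change h p = h (c + s • (-(s⁻¹ • c) + s⁻¹ • p))
  rw [h2]

/-- change of coordinates in the source, with a locally uniform factor -/
theorem EA.comp_right_unif {α : E n → E n} {z₀ : E n} (hα : LD n α z₀) :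
    ∃ κ : ℝ, 1 ≤ κ ∧ ∀ᶠ z in 𝓝 z₀, ∀ (h : E n → E n) (ε : ℝ), 0 < ε → EA n ε h (α z) →
      EA n (κ * ε) (fun p => h (α p)) z := by
  obtain ⟨ρ, C, M, hρ, hC, hM, hexp⟩ := expand hα
  have hcd : ContDiffAt ℝ 1 α z₀ := hα.contDiffAt.of_le (WithTop.coe_le_coe.2 le_top)
  obtain ⟨K, t, ht, hLip⟩ := hcd.exists_lipschitzOnWith
  have hK : (0 : ℝ) ≤ K := K.coe_nonneg
  obtain ⟨ρ₂, hρ₂, ht2⟩ := Metric.mem_nhds_iff.1 ht
  obtain ⟨ρ₁, hρ₁, hρ₁1, hρ₁2⟩ : ∃ ρ₁ : ℝ, 0 < ρ₁ ∧ ρ₁ ≤ ρ ∧ ρ₁ ≤ ρ₂ :=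
    ⟨min ρ ρ₂, lt_min hρ hρ₂, min_le_left _ _, min_le_right _ _⟩
  refine ⟨M * (K + 2) + 1, by
    have : 0 ≤ M * (K + 2) := by positivity
    linarith, ?_⟩
  filter_upwards [ball_mem_nhds z₀ hρ₁] with z hz h ε hε H
  rw [mem_ball, dist_eq_norm] at hz
  obtain ⟨r', hr', h1⟩ := H
  obtain ⟨r, hr, hr1, hr2, hr3⟩ : ∃ r : ℝ, 0 < r ∧ 2 * r < ρ₁ - ‖z - z₀‖ ∧ (K + 1) * r ≤ r' ∧
      C * r ≤ ε := by
    have h2 : 0 < ρ₁ - ‖z - z₀‖ := by linarith
    refine ⟨min ((ρ₁ - ‖z - z₀‖) / 3) (min (r' / (K + 1)) (ε / (C + 1))),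
      lt_min (by linarith) (lt_min (by positivity) (by positivity)), ?_, ?_, ?_⟩
    · have := min_le_left ((ρ₁ - ‖z - z₀‖) / 3) (min (r' / ((K : ℝ) + 1)) (ε / (C + 1)))
      linarith
    · have h3 : min ((ρ₁ - ‖z - z₀‖) / 3) (min (r' / ((K : ℝ) + 1)) (ε / (C + 1))) ≤
        r' / (K + 1) := (min_le_right _ _).trans (min_le_left _ _)
      rw [le_div_iff₀ (by positivity)] at h3
      linarith
    · have h3 : min ((ρ₁ - ‖z - z₀‖) / 3) (min (r' / ((K : ℝ) + 1)) (ε / (C + 1))) ≤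
        ε / (C + 1) := (min_le_right _ _).trans (min_le_right _ _)
      calc _ ≤ C * (ε / (C + 1)) := mul_le_mul_of_nonneg_left h3 hC
        _ ≤ (C + 1) * (ε / (C + 1)) := mul_le_mul_of_nonneg_right (by linarith) (by positivity)
        _ = ε := by field_simp
  have hlip : ∀ p q : E n, ‖p - z₀‖ < ρ₁ → ‖q - z₀‖ < ρ₁ → ‖α q - α p‖ ≤ (K + 1) * ‖q - p‖ := by
    intro p q hp hq
    have h2 := hLip.dist_le_mul q (ht2 (by rw [mem_ball, dist_eq_norm]; linarith)) p
      (ht2 (by rw [mem_ball, dist_eq_norm]; linarith))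
    rw [dist_eq_norm, dist_eq_norm] at h2
    nlinarith [norm_nonneg (q - p)]
  refine ⟨r, hr, fun p hp δ hδ hδr => ?_⟩
  rw [mem_closedBall, dist_eq_norm] at hp
  have hpz : ‖p - z₀‖ < ρ₁ := by
    have h2 : p - z₀ = (p - z) + (z - z₀) := by abel
    rw [h2]
    refine (norm_add_le _ _).trans_lt ?_
    linarith
  obtain ⟨L, hL⟩ := h1 (α p) (by
    rw [mem_closedBall, dist_eq_norm]
    calc ‖α p - α z‖ ≤ (K + 1) * ‖p - z‖ := hlip z p hz hpz
      _ ≤ (K + 1) * r := mul_le_mul_of_nonneg_left hp (by positivity)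
      _ ≤ r' := hr2) ((K + 1) * δ) (by positivity)
    ((mul_le_mul_of_nonneg_left hδr (by positivity)).trans hr2)
  obtain ⟨e, he1, he2⟩ := hexp p (by rw [mem_ball, dist_eq_norm]; linarith)
  refine ⟨e.trans L, fun q hq => ?_⟩
  have hqz : ‖q - z₀‖ < ρ₁ := by
    have h2 : q - z₀ = (q - p) + ((p - z) + (z - z₀)) := by abel
    rw [h2]
    refine (norm_add_le _ _).trans_lt ?_
    have := norm_add_le (p - z) (z - z₀)
    linarith
  have h3 := hL (α q) ((hlip p q hpz hqz).trans (mul_le_mul_of_nonneg_left hq (by positivity)))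
  have h4 := he1 q (by rw [mem_ball, dist_eq_norm]; linarith)
  have h5 : (e.trans L).symm (h (α q) - h (α p)) - (q - p) =
      e.symm ((L.symm (h (α q) - h (α p)) - (α q - α p)) + (α q - α p - e (q - p))) := by
    have h7 : (e.trans L).symm (h (α q) - h (α p)) = e.symm (L.symm (h (α q) - h (α p))) := rfl
    rw [h7]
    have h8 : (q - p) = e.symm (e (q - p)) := (e.symm_apply_apply _).symm
    conv_lhs => rw [h8, ← map_sub]
    congr 1
    abel
  change ‖(e.trans L).symm (h (α q) - h (α p)) - (q - p)‖ ≤ _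
  rw [h5]
  have h6 : C * ‖q - p‖ ^ 2 ≤ ε * δ := by
    calc C * ‖q - p‖ ^ 2 ≤ C * δ ^ 2 := by gcongr
      _ = C * δ * δ := by ring
      _ ≤ C * r * δ := by gcongr
      _ ≤ ε * δ := mul_le_mul_of_nonneg_right hr3 hδ.le
  calc _ ≤ M * ‖(L.symm (h (α q) - h (α p)) - (α q - α p)) + (α q - α p - e (q - p))‖ := he2 _
    _ ≤ M * (ε * ((K + 1) * δ) + ε * δ) :=
        mul_le_mul_of_nonneg_left ((norm_add_le _ _).trans (add_le_add h3 (h4.trans h6))) hM
    _ = (M * (K + 2)) * ε * δ := by ring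
    _ ≤ (M * (K + 2) + 1) * ε * δ := by
        gcongr
        linarith

/-- the linear parts grow slowly when the scale tends to zero -/
theorem EA.growth {ε : ℝ} {h : E n → E n} {z : E n} (H : EA n ε h z) (hε1 : ε ≤ 1 / 256)
    (η : ℝ) (hη : 0 < η) :
    ∃ r : ℝ, 0 < r ∧ ∀ p ∈ closedBall z r, ∀ δ : ℝ, 0 < δ → δ ≤ r → ∃ L : E n ≃L[ℝ] E n,
      (∀ q : E n, ‖q - p‖ ≤ δ → ‖L.symm (h q - h p) - (q - p)‖ ≤ ε * δ) ∧
      nrm L ^ 2 * nrm L.symm * δ ≤ η := by
  obtain ⟨r₀, hr₀, h0'⟩ := H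
  have h0 := h0'.mono (Subset.refl _) hε1 (le_refl r₀)
  obtain ⟨L₀, hL₀⟩ := h0 z (mem_closedBall_self hr₀.le) r₀ hr₀ le_rfl
  obtain ⟨M, hMd⟩ : ∃ M : ℝ, M = max (9 / 8 * nrm L₀) (9 / 8 * nrm L₀.symm) := ⟨_, rfl⟩
  have hM1 : 9 / 8 * nrm L₀ ≤ M := by rw [hMd]; exact le_max_left _ _
  have hM2 : 9 / 8 * nrm L₀.symm ≤ M := by rw [hMd]; exact le_max_right _ _
  have hM0 : 0 ≤ M := le_trans (by positivity) hM1
  have claim : ∀ k : ℕ, ∀ p ∈ closedBall z (r₀ / 2), ∀ δ : ℝ, 0 < δ → r₀ / 4 ≤ 2 ^ k * δ →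
      2 ^ k * δ ≤ r₀ / 2 → ∀ L : E n ≃L[ℝ] E n,
      (∀ q : E n, ‖q - p‖ ≤ δ → ‖L.symm (h q - h p) - (q - p)‖ ≤ 1 / 256 * δ) →
      nrm L ≤ M * (9 / 8) ^ k ∧ nrm L.symm ≤ M * (9 / 8) ^ k := by
    intro k
    induction k with
    | zero =>
      intro p hp δ hδ h1 h2 L hL
      rw [pow_zero, one_mul] at h1 h2
      rw [pow_zero, mul_one]
      rw [mem_closedBall, dist_eq_norm] at hp
      have h3 := compare_norm (a := 1 / 256) (b := 1 / 32) hδ (by norm_num) le_rfl (by norm_num)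
        (by norm_num) L L₀ hL (by
          intro q hq
          have hqz : ‖q - z‖ ≤ r₀ := by
            have h4 : q - z = (q - p) + (p - z) := by abel
            rw [h4]
            refine (norm_add_le _ _).trans ?_
            linarith
          have h5 := hL₀ q hqz
          have h6 := hL₀ p (by linarith)
          have h7 : L₀.symm (h q - h p) - (q - p) =
              (L₀.symm (h q - h z) - (q - z)) - (L₀.symm (h p - h z) - (p - z)) := by
            have h8 : h q - h p = (h q - h z) - (h p - h z) := by abel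
            rw [h8, map_sub]
            abel
          rw [h7]
          refine (norm_sub_le _ _).trans ?_
          linarith)
      exact ⟨h3.1.trans hM1, h3.2.trans hM2⟩
    | succ k ih =>
      intro p hp δ hδ h1 h2 L hL
      have h2k : (1 : ℝ) ≤ 2 ^ k := one_le_pow₀ (by norm_num)
      have e1 : (2 : ℝ) ^ k * (2 * δ) = 2 ^ (k + 1) * δ := by ring
      have e2 : 2 * δ ≤ r₀ := by
        have : 1 * (2 * δ) ≤ 2 ^ k * (2 * δ) := mul_le_mul_of_nonneg_right h2k (by linarith)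
        rw [e1] at this
        linarith
      obtain ⟨L₂, hL₂⟩ := h0 p (closedBall_subset_closedBall (by linarith) hp) (2 * δ)
        (by linarith) e2
      obtain ⟨h3, h4⟩ := ih p hp (2 * δ) (by linarith) (by rw [e1]; exact h1)
        (by rw [e1]; exact h2) L₂ hL₂
      have h5 := compare_norm (a := 1 / 256) (b := 1 / 128) hδ (by norm_num) (by norm_num)
        (by norm_num) (by norm_num) L L₂ hL (by
          intro q hq
          refine (hL₂ q (by linarith)).trans ?_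
          linarith)
      constructor
      · calc nrm L ≤ 9 / 8 * nrm L₂ := h5.1
          _ ≤ 9 / 8 * (M * (9 / 8) ^ k) := mul_le_mul_of_nonneg_left h3 (by norm_num)
          _ = M * (9 / 8) ^ (k + 1) := by ring
      · calc nrm L.symm ≤ 9 / 8 * nrm L₂.symm := h5.2
          _ ≤ 9 / 8 * (M * (9 / 8) ^ k) := mul_le_mul_of_nonneg_left h4 (by norm_num)
          _ = M * (9 / 8) ^ (k + 1) := by ring
  -- the final choice
  obtain ⟨K, hK⟩ : ∃ K : ℕ, M ^ 3 * r₀ * (729 / 1024 : ℝ) ^ K < η := by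
    have h2 : Tendsto (fun k : ℕ => M ^ 3 * r₀ * (729 / 1024 : ℝ) ^ k) atTop (𝓝 (M ^ 3 * r₀ * 0)) :=
      (tendsto_pow_atTop_nhds_zero_of_lt_one (by norm_num) (by norm_num)).const_mul _
    rw [mul_zero] at h2
    exact ((tendsto_order.1 h2).2 η hη).exists
  have hKp : (0 : ℝ) < 2 ^ K := by positivity
  refine ⟨r₀ / 4 / 2 ^ K, by positivity, fun p hp δ hδ hδ1 => ?_⟩
  have hK1 : (1 : ℝ) ≤ 2 ^ K := one_le_pow₀ (by norm_num)
  have hδ2 : 2 ^ K * δ ≤ r₀ / 4 := by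
    rw [le_div_iff₀ hKp] at hδ1
    linarith
  have hδ3 : δ ≤ r₀ / 4 := by
    have : 1 * δ ≤ 2 ^ K * δ := mul_le_mul_of_nonneg_right hK1 hδ.le
    linarith
  have hp2 : p ∈ closedBall z (r₀ / 2) := by
    refine closedBall_subset_closedBall ?_ hp
    rw [div_le_iff₀ hKp]
    nlinarith
  obtain ⟨L, hL⟩ := h0' p (closedBall_subset_closedBall (by linarith) hp2) δ hδ (by linarith)
  refine ⟨L, hL, ?_⟩
  obtain ⟨m, hm1, hm2⟩ := exists_nat_pow_near (x := r₀ / (4 * δ)) (y := (2 : ℝ)) (by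
    rw [le_div_iff₀ (by positivity)]
    linarith) (by norm_num)
  rw [le_div_iff₀ (by positivity)] at hm1
  rw [div_lt_iff₀ (by positivity)] at hm2
  have hk1 : r₀ / 4 ≤ 2 ^ (m + 1) * δ := by linarith
  have hk2 : 2 ^ (m + 1) * δ ≤ r₀ / 2 := by
    have : (2 : ℝ) ^ (m + 1) * δ = 2 * (2 ^ m * δ) := by ring
    rw [this]
    linarith
  have hKm : K ≤ m + 1 := by
    by_contra hlt
    have h4 : m + 1 + 1 ≤ K := by omega
    have h5 : (2 : ℝ) ^ (m + 1 + 1) ≤ 2 ^ K := pow_le_pow_right₀ (by norm_num) h4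
    have h6 : (2 : ℝ) ^ (m + 1 + 1) * δ ≤ 2 ^ K * δ := mul_le_mul_of_nonneg_right h5 hδ.le
    have h7 : (2 : ℝ) ^ (m + 1 + 1) * δ = 2 * (2 ^ (m + 1) * δ) := by ring
    linarith
  obtain ⟨h2, h3⟩ := claim (m + 1) p hp2 δ hδ hk1 hk2 L (fun q hq =>
    (hL q hq).trans (mul_le_mul_of_nonneg_right hε1 hδ.le))
  have hpos : (0 : ℝ) < 2 ^ (m + 1) := by positivity
  have e4 : δ ≤ r₀ / 2 ^ (m + 1) := by
    rw [le_div_iff₀ hpos]
    linarith
  have e5 : nrm L ^ 2 ≤ (M * (9 / 8) ^ (m + 1)) ^ 2 := pow_le_pow_left₀ (norm_nonneg _) h2 2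
  calc nrm L ^ 2 * nrm L.symm * δ
      ≤ (M * (9 / 8) ^ (m + 1)) ^ 2 * (M * (9 / 8) ^ (m + 1)) * (r₀ / 2 ^ (m + 1)) := by
        gcongr
    _ = M ^ 3 * r₀ * (((9 / 8) ^ (m + 1)) ^ 3 / 2 ^ (m + 1)) := by ring
    _ = M ^ 3 * r₀ * (729 / 1024 : ℝ) ^ (m + 1) := by
        congr 1
        rw [← pow_mul, mul_comm (m + 1) 3, pow_mul, ← div_pow]
        norm_num
    _ ≤ M ^ 3 * r₀ * (729 / 1024 : ℝ) ^ K := by
        refine mul_le_mul_of_nonneg_left ?_ (by positivity)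
        exact pow_le_pow_of_le_one (by norm_num) (by norm_num) hKm
    _ ≤ η := hK.le

/-- change of coordinates in the target -/
theorem EA.comp_left {ε : ℝ} {h β : E n → E n} {z : E n} (hc : ContinuousAt h z)
    (hβ : LD n β (h z)) (hε : 0 < ε) (hε1 : ε ≤ 1 / 256) (H : EA n ε h z) :
    EA n (2 * ε) (fun p => β (h p)) z := by
  obtain ⟨ρ, C, M, hρ, hC, hM, hexp⟩ := expand hβ
  obtain ⟨η, hη, hη1⟩ : ∃ e : ℝ, 0 < e ∧ 4 * M * C * e ≤ ε := by
    refine ⟨ε / (1 + 4 * M * C), by positivity, ?_⟩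
    rw [mul_div_assoc', div_le_iff₀ (by positivity)]
    nlinarith
  obtain ⟨r₁, hr₁, h1⟩ := H.growth hε1 η hη
  obtain ⟨r₂, hr₂, h2⟩ := Metric.continuousAt_iff.1 hc ρ hρ
  refine ⟨min r₁ (r₂ / 3), lt_min hr₁ (by linarith), fun p hp δ hδ hδr => ?_⟩
  obtain ⟨L, hL, hLn⟩ := h1 p (closedBall_subset_closedBall (min_le_left _ _) hp) δ hδ
    (hδr.trans (min_le_left _ _))
  have hpz : ‖p - z‖ ≤ r₂ / 3 := by
    rw [mem_closedBall, dist_eq_norm] at hp
    exact hp.trans (min_le_right _ _)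
  have hvρ : h p ∈ ball (h z) ρ := h2 (by rw [dist_eq_norm]; linarith)
  obtain ⟨e, he1, he2⟩ := hexp (h p) hvρ
  refine ⟨L.trans e, fun q hq => ?_⟩
  have hqz : ‖q - z‖ < r₂ := by
    have h3 : q - z = (q - p) + (p - z) := by abel
    rw [h3]
    refine (norm_add_le _ _).trans_lt ?_
    have := hδr.trans (min_le_right _ _)
    linarith
  have huρ : h q ∈ ball (h z) ρ := h2 (by rw [dist_eq_norm]; exact hqz)
  have h3 := hL q hq
  have h4 : ‖h q - h p‖ ≤ 2 * nrm L * δ := by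
    have h5 : h q - h p = L ((q - p) + (L.symm (h q - h p) - (q - p))) := by
      rw [add_sub_cancel, L.apply_symm_apply]
    rw [h5]
    calc _ ≤ nrm L * ‖(q - p) + (L.symm (h q - h p) - (q - p))‖ :=
          (L : E n →L[ℝ] E n).le_opNorm _
      _ ≤ nrm L * (δ + ε * δ) := mul_le_mul_of_nonneg_left
          ((norm_add_le _ _).trans (add_le_add hq h3)) (norm_nonneg _)
      _ ≤ nrm L * (δ + 1 * δ) := by
          gcongr
          linarith
      _ = _ := by ring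
  have h5 : (L.trans e).symm (β (h q) - β (h p)) - (q - p) =
      (L.symm (h q - h p) - (q - p)) + L.symm (e.symm (β (h q) - β (h p) - e (h q - h p))) := by
    have h6 : (L.trans e).symm (β (h q) - β (h p)) = L.symm (e.symm (β (h q) - β (h p))) := rfl
    have h7 : e.symm (β (h q) - β (h p) - e (h q - h p)) =
        e.symm (β (h q) - β (h p)) - (h q - h p) := by
      have h9 : e.symm (β (h q) - β (h p) - e (h q - h p)) =
          e.symm (β (h q) - β (h p)) - e.symm (e (h q - h p)) := map_sub _ _ _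
      rw [h9, e.symm_apply_apply]
    have h8 : L.symm (e.symm (β (h q) - β (h p)) - (h q - h p)) =
        L.symm (e.symm (β (h q) - β (h p))) - L.symm (h q - h p) := map_sub _ _ _
    rw [h6, h7, h8]
    abel
  change ‖(L.trans e).symm (β (h q) - β (h p)) - (q - p)‖ ≤ 2 * ε * δ
  rw [h5]
  have h6 : ‖L.symm (e.symm (β (h q) - β (h p) - e (h q - h p)))‖ ≤ 4 * M * C * η * δ := by
    calc _ ≤ nrm L.symm * ‖e.symm (β (h q) - β (h p) - e (h q - h p))‖ :=
          (L.symm : E n →L[ℝ] E n).le_opNorm _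
      _ ≤ nrm L.symm * (M * (C * (2 * nrm L * δ) ^ 2)) := by
          refine mul_le_mul_of_nonneg_left ((he2 _).trans ?_) (norm_nonneg _)
          refine mul_le_mul_of_nonneg_left ((he1 _ huρ).trans ?_) hM
          refine mul_le_mul_of_nonneg_left ?_ hC
          exact pow_le_pow_left₀ (norm_nonneg _) h4 2
      _ = 4 * M * C * δ * (nrm L ^ 2 * nrm L.symm * δ) := by ring
      _ ≤ 4 * M * C * δ * η := mul_le_mul_of_nonneg_left hLn (by positivity)
      _ = _ := by ring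
  calc _ ≤ ε * δ + 4 * M * C * η * δ := (norm_add_le _ _).trans (add_le_add h3 h6)
    _ ≤ ε * δ + ε * δ := by gcongr
    _ = 2 * ε * δ := by ring

/-- uniform scales on compact sets -/
theorem EA.uniform {ε : ℝ} {G : E n → E n} {K : Set (E n)} (hK : IsCompact K)
    (hG : ∀ z ∈ K, EA n ε G z) : ∃ r : ℝ, 0 < r ∧ AffOn n G K ε r := by
  refine hK.induction_on (p := fun s => ∃ r : ℝ, 0 < r ∧ AffOn n G s ε r) ?_ ?_ ?_ ?_
  · exact ⟨1, one_pos, fun p hp => absurd hp (notMem_empty p)⟩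
  · rintro s t hst ⟨r, hr, h⟩
    exact ⟨r, hr, h.mono hst le_rfl le_rfl⟩
  · rintro s t ⟨r, hr, h⟩ ⟨r', hr', h'⟩
    refine ⟨min r r', lt_min hr hr', fun p hp δ hδ hδr => ?_⟩
    rcases hp with hp | hp
    · exact h p hp δ hδ (hδr.trans (min_le_left _ _))
    · exact h' p hp δ hδ (hδr.trans (min_le_right _ _))
  · intro z hz
    obtain ⟨r, hr, h⟩ := hG z hz
    exact ⟨closedBall z r, mem_nhdsWithin_of_mem_nhds (closedBall_mem_nhds z hr), r, hr, h⟩

end Pool.Agent.K7.H28.AF
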