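import Pool.Agent.K7.H28.AF.EAll

/-!
# Almost affine homeomorphisms of manifolds, with a fixed error in finitely many charts of the source
-/

set_option autoImplicit false

open Set Filter Topology Metric Function MeasureTheory
open scoped Manifold ContDiff

noncomputable section

namespace Pool.Agent.K7.H28.AF

open Pool.Agent.Y522 Pool.Agent.R765

theorem LD_symm_of_mem {n : ℕ} {X : Type} [TopologicalSpace X] [ChartedSpace (E n) X]
    [IsManifold (𝓡 n) ∞ X] {φ : OpenPartialHomeomorph X (E n)}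
    (hφ : φ ∈ IsManifold.maximalAtlas (𝓡 n) ∞ X) {z : E n} (hz : z ∈ φ.target) :
    LD n (φ.symm : E n → X) z :=
  ⟨{ toFun := φ.symm
     invFun := φ
     source := φ.target
     target := φ.source
     map_source' := fun _ h => φ.map_target h
     map_target' := fun _ h => φ.map_source h
     left_inv' := fun _ h => φ.right_inv h
     right_inv' := fun _ h => φ.left_inv h
     open_source := φ.open_target
     open_target := φ.open_source
     contMDiffOn_toFun := contMDiffOn_symm_of_mem_maximalAtlas hφ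
     contMDiffOn_invFun := contMDiffOn_of_mem_maximalAtlas hφ }, hz, fun _ _ => rfl⟩

/-- `f` is almost affine at small scales near `x`, in the chart `φ` around `x` and in some smooth
coordinates around `f x` -/
def ACh (n : ℕ) {X Y : Type} [TopologicalSpace X] [ChartedSpace (E n) X] [TopologicalSpace Y]
    [ChartedSpace (E n) Y] (ε : ℝ) (φ : OpenPartialHomeomorph X (E n)) (f : X → Y) (x : X) : Prop :=
  ∃ B : Y → E n, LD n B (f x) ∧ EA n ε (fun p => B (f (φ.symm p))) (φ x)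

/-- the boxes -/
theorem box_of_chart {n : ℕ} {X : Type} [TopologicalSpace X] [ChartedSpace (E n) X]
    [IsManifold (𝓡 n) ∞ X] {φ : OpenPartialHomeomorph X (E n)}
    (hφ : φ ∈ IsManifold.maximalAtlas (𝓡 n) ∞ X) {x : X} (hx : x ∈ φ.source) :
    ∃ s : ℝ, 0 < s ∧ (∀ z ∈ closedBall (0 : E n) 2, φ x + s • z ∈ φ.target) ∧
      InjOn (fun z : E n => φ.symm (φ x + s • z)) (closedBall 0 2) ∧
      (∀ z ∈ closedBall (0 : E n) 2, LD n (fun z : E n => φ.symm (φ x + s • z)) z) ∧
      (fun z : E n => φ.symm (φ x + s • z)) '' ball 0 (1 / 2) ∈ 𝓝 x := by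
  obtain ⟨ρ, hρ, h1⟩ := Metric.isOpen_iff.1 φ.open_target (φ x) (φ.map_source hx)
  obtain ⟨s, hs, hsρ⟩ : ∃ s : ℝ, 0 < s ∧ s * 2 < ρ := ⟨ρ / 3, by linarith, by linarith⟩
  have h2 : ∀ z ∈ closedBall (0 : E n) 2, φ x + s • z ∈ φ.target := by
    intro z hz
    rw [mem_closedBall_zero_iff] at hz
    apply h1
    rw [mem_ball, dist_eq_norm, add_sub_cancel_left, norm_smul, Real.norm_of_nonneg hs.le]
    nlinarith
  have h3 : ∀ z ∈ closedBall (0 : E n) 2, LD n (fun z : E n => φ.symm (φ x + s • z)) z := by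
    intro z hz
    exact LD.comp_fun (g := (φ.symm : E n → X)) (f := fun z : E n => φ x + s • z)
      (LD_symm_of_mem hφ (h2 z hz)) (LD_sim _ hs.ne' z)
  refine ⟨s, hs, h2, ?_, h3, ?_⟩
  · intro z hz w hw hzw
    have h4 : φ x + s • z = φ x + s • w := φ.symm.injOn (h2 z hz) (h2 w hw) hzw
    exact smul_right_injective _ hs.ne' (add_left_cancel h4)
  · have h4 := (h3 0 (mem_closedBall_self (by norm_num))).image_mem_nhds
      (ball_mem_nhds (0 : E n) (by norm_num : (0 : ℝ) < 1 / 2))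
    rwa [smul_zero, add_zero, φ.left_inv hx] at h4

/-- **Homeomorphisms of manifolds which are almost affine at small scales**, with a fixed error,
which depends only on finitely many given charts of the source around a compact set. -/
theorem almostAffineMfd (n : ℕ) (X : Type) [TopologicalSpace X] [T2Space X] [ChartedSpace (E n) X]
    [IsManifold (𝓡 n) ∞ X] (K : Set X) (hK : IsCompact K)
    (S : Set (OpenPartialHomeomorph X (E n))) (hS : ∀ φ ∈ S, φ ∈ IsManifold.maximalAtlas (𝓡 n) ∞ X)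
    (hcov : ∀ x ∈ K, ∃ φ ∈ S, x ∈ φ.source) :
    ∃ ε₀ : ℝ, 0 < ε₀ ∧ ∀ (Y : Type) [TopologicalSpace Y] [ChartedSpace (E n) Y]
      [IsManifold (𝓡 n) ∞ Y] (f : X ≃ₜ Y) (O : Set (X × Y)) (U : Set X),
      (∀ x, ¬ LD n f x → x ∈ K ∧ ∀ φ ∈ S, x ∈ φ.source → ACh n ε₀ φ f x) → IsOpen O →
      (∀ x, (x, f x) ∈ O) → IsOpen U → (∀ x, LD n f x ∨ x ∈ U) →
      ∃ f' : X → Y, Bijective f' ∧ (∀ x, LD n f' x) ∧ (∀ x, (x, f' x) ∈ O) ∧
        ∀ x, x ∉ U → f' x = f x := by
  classical
  rcases isEmpty_or_nonempty X with hXe | hXn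
  · exact ⟨1, one_pos, fun Y _ _ _ f O U _ _ _ _ _ =>
      ⟨f, f.bijective, fun x => hXe.elim x, fun x => hXe.elim x, fun _ _ => rfl⟩⟩
  have hne : Nonempty (OpenPartialHomeomorph X (E n)) := ⟨chartAt (E n) hXn.some⟩
  choose! φ hφS hφx using hcov
  have h1 : ∀ x ∈ K, ∃ s : ℝ, 0 < s ∧
      (∀ z ∈ closedBall (0 : E n) 2, φ x x + s • z ∈ (φ x).target) ∧
      InjOn (fun z : E n => (φ x).symm (φ x x + s • z)) (closedBall 0 2) ∧
      (∀ z ∈ closedBall (0 : E n) 2, LD n (fun z : E n => (φ x).symm (φ x x + s • z)) z) ∧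
      (fun z : E n => (φ x).symm (φ x x + s • z)) '' ball 0 (1 / 2) ∈ 𝓝 x := fun x hx =>
    box_of_chart (hS _ (hφS x hx)) (hφx x hx)
  choose! s hs hst hsi hsd hsn using h1
  obtain ⟨t, htK, ht⟩ := hK.elim_nhds_subcover
    (fun x => (fun z : E n => (φ x).symm (φ x x + s x • z)) '' ball 0 (1 / 2)) hsn
  obtain ⟨ε₀, hε₀, hmain⟩ := eall n X t (fun j z => (φ j).symm (φ j j + s j • z))
    (fun j => hsi j (htK j j.2)) (fun j => hsd j (htK j j.2))
  refine ⟨ε₀, hε₀, ?_⟩
  intro Y _ _ _ f O U hf hO hfO hU hLU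
  have hY2 : T2Space Y := f.t2Space
  obtain ⟨f', C, hC, hH, hL, -, hoff⟩ := hmain Y ⟨f, f.continuous⟩ O U ℝ (fun _ => 0)
    (tchart_zero n Y) (fun j => ⟨0, 0, fun z _ => by simp⟩)
    (by
      intro x
      by_cases h2 : LD n f x
      · exact Or.inl h2
      · right
        obtain ⟨y, hy, z, hz, hzx⟩ := mem_iUnion₂.1 (ht (hf x h2).1)
        rw [mem_ball_zero_iff] at hz
        exact ⟨⟨y, hy⟩, z, hz.le, hzx⟩)
    (by
      rintro ⟨j, hj⟩ z hz
      have hjK := htK j hj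
      by_cases h2 : LD n f ((φ j).symm (φ j j + s j • z))
      · exact Or.inl h2
      · right
        obtain ⟨-, h3⟩ := hf _ h2
        have h4 := hst j hjK z hz
        obtain ⟨B, hB, h5⟩ := h3 (φ j) (hφS j hjK) ((φ j).map_target h4)
        refine ⟨B, hB, ?_⟩
        rw [(φ j).right_inv h4] at h5
        exact EA.sim (h := fun p => B (f ((φ j).symm p))) (φ j j) (hs j hjK) h5)
    hO hfO hU hLU
  have hl : IsLocalDiffeomorph (𝓡 n) (𝓡 n) ∞ f' := hL
  exact ⟨f', bijective_of_homRel f f' hl.isLocalHomeomorph O C hC hH, hL,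
    fun x => (hH.off x).1, hoff⟩

end Pool.Agent.K7.H28.AF
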