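import Pool.Agent.K7.H28.AF.Class
import Pool.Agent.R765.CAll
import Pool.Agent.R769.Loc

/-!
# Almost affine homeomorphisms between open subsets of Euclidean space

If at the bad points and at all small scales the map is affine up to a fixed small error, then one
mollification with a variable radius gives a diffeomorphism.
-/

set_option autoImplicit false

open Set Filter Topology Metric Function MeasureTheory
open scoped Manifold ContDiff Convolution

noncomputable section

namespace Pool.Agent.K7.H28.AF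

open Pool.Agent.Y522 Pool.Agent.R765 Pool.Agent.Y954.SH

/-- from functions in a chart of the target to maps of manifolds -/
theorem realize (n : ℕ) (X Y : Type) [TopologicalSpace X] [T2Space X]
    [ChartedSpace (E n) X] [TopologicalSpace Y] [ChartedSpace (E n) Y]
    (f₀ : C(X, Y)) (V : Set Y) (B : Y → E n) (O : Set (X × Y)) (hV : IsOpen V)
    (hBi : InjOn B V) (hBd : ∀ y ∈ V, LD n B y) (hO : IsOpen O) (hfO : ∀ x, (x, f₀ x) ∈ O)
    (C : Set X) (hC : IsCompact C) (hCV : ∀ x ∈ C, f₀ x ∈ V) (hYn : Nonempty Y)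
    (R : (X → E n) → Prop)
    (hPh0 : ∀ e : ℝ, 0 < e → ∃ F' : X → E n, ContinuousOn F' (f₀ ⁻¹' V) ∧
      (∀ p, p ∉ C → F' p = B (f₀ p)) ∧ (∀ p, ‖F' p - B (f₀ p)‖ ≤ e) ∧ R F') :
    ∃ (f' : C(X, Y)) (F' : X → E n), R F' ∧ HomRel O C f₀ f' ∧
      (∀ x, x ∉ C → f' x = f₀ x) ∧ ∀ x, f₀ x ∈ V → LD n F' x → LD n f' x := by
  classical
  obtain ⟨f, hff⟩ : ∃ f : X → Y, f = f₀ := ⟨_, rfl⟩
  have hf : Continuous f := by rw [hff]; exact f₀.continuous
  rw [← hff] at hCV hfO hPh0
  obtain ⟨W, hWd⟩ : ∃ W : Set X, W = f ⁻¹' V := ⟨_, rfl⟩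
  have hmW : ∀ x, x ∈ W ↔ f x ∈ V := fun x => by rw [hWd]; rfl
  have hWo : IsOpen W := by rw [hWd]; exact hV.preimage hf
  obtain ⟨F, hFd⟩ : ∃ F : X → E n, F = fun x => B (f x) := ⟨_, rfl⟩
  have hFx : ∀ x, F x = B (f x) := fun x => by rw [hFd]
  have hFca : ∀ x ∈ W, ContinuousAt F x := by
    intro x hxW
    rw [hFd]
    exact ContinuousAt.comp (hBd _ ((hmW x).1 hxW)).continuousAt hf.continuousAt
  obtain ⟨β, hβd⟩ : ∃ β : E n → Y, β = invFunOn B V := ⟨_, rfl⟩
  have hβ : ∀ y ∈ V, β (B y) = y := by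
    intro y hy
    rw [hβd]
    exact hBi.leftInvOn_invFunOn hy
  have hβL : ∀ y ∈ V, LD n β (B y) := fun y hy => LD.inverse hV hBd hβ hy
  have hU : IsOpen (B '' V) := isOpen_image_of_LD hV hBd
  have hCW : C ⊆ W := fun x hx => (hmW x).2 (hCV x hx)
  have hPh : ∀ e : ℝ, 0 < e → ∃ F' : X → E n, ContinuousOn F' W ∧
      (∀ p, p ∉ C → F' p = F p) ∧ (∀ p, ‖F' p - F p‖ ≤ e) ∧ R F' := by
    rw [hWd, hFd]
    exact hPh0
  -- the margin
  have hG : ∀ x ∈ C, ∀ᶠ q : X × E n in 𝓝 (x, F x), q.2 ∈ B '' V ∧ (q.1, β q.2) ∈ O := by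
    intro x hxC
    have hxV := (hmW x).1 (hCW hxC)
    have h1 : ∀ᶠ q : X × E n in 𝓝 (x, F x), q.2 ∈ B '' V :=
      continuousAt_snd.eventually (hU.mem_nhds (by rw [hFx]; exact ⟨f x, hxV, rfl⟩))
    have h2 : ContinuousAt (fun q : X × E n => (q.1, β q.2)) (x, F x) := by
      refine ContinuousAt.prodMk continuousAt_fst ?_
      refine ContinuousAt.comp (g := β) ?_ continuousAt_snd
      change ContinuousAt β (F x)
      rw [hFx]
      exact (hβL _ hxV).continuousAt
    have h3 : (x, β (F x)) ∈ O := by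
      rw [hFx, hβ _ hxV]
      exact hfO x
    exact h1.and (h2.eventually (hO.mem_nhds h3))
  have hmar : ∃ e : ℝ, 0 < e ∧ ∀ x ∈ C, ∀ w : E n, ‖w - F x‖ ≤ e → w ∈ B '' V ∧ (x, β w) ∈ O := by
    refine hC.induction_on (p := fun s => ∃ e : ℝ, 0 < e ∧ ∀ x ∈ s, ∀ w : E n, ‖w - F x‖ ≤ e →
      w ∈ B '' V ∧ (x, β w) ∈ O) ?_ ?_ ?_ ?_
    · exact ⟨1, one_pos, fun x hx => absurd hx (notMem_empty x)⟩
    · rintro s t hst ⟨e, he, h⟩
      exact ⟨e, he, fun x hx => h x (hst hx)⟩
    · rintro s t ⟨e, he, h⟩ ⟨e', he', h'⟩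
      refine ⟨min e e', lt_min he he', fun x hx w hw => ?_⟩
      rcases hx with hx | hx
      · exact h x hx w (hw.trans (min_le_left _ _))
      · exact h' x hx w (hw.trans (min_le_right _ _))
    · intro x hxC
      have h1 := hG x hxC
      rw [nhds_prod_eq] at h1
      obtain ⟨P1, hP1, P2, hP2, hP⟩ := eventually_prod_iff.1 h1
      obtain ⟨e, he, h2⟩ := Metric.eventually_nhds_iff_ball.1 hP2
      have h3 : ∀ᶠ x' in 𝓝 x, P1 x' ∧ F x' ∈ ball (F x) (e / 2) :=
        hP1.and ((hFca x (hCW hxC)).eventually (ball_mem_nhds _ (by linarith)))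
      refine ⟨{x' | P1 x' ∧ F x' ∈ ball (F x) (e / 2)}, mem_nhdsWithin_of_mem_nhds h3, e / 3,
        by linarith, ?_⟩
      rintro x' ⟨h4, h5⟩ w hw
      refine hP h4 (h2 w ?_)
      rw [mem_ball, dist_eq_norm] at h5 ⊢
      have h6 : w - F x = (w - F x') + (F x' - F x) := by abel
      rw [h6]
      refine (norm_add_le _ _).trans_lt ?_
      linarith
  obtain ⟨e, he, hmar⟩ := hmar
  obtain ⟨F', hF'c, hF'C, hF'e, hF'R⟩ := hPh e he
  obtain ⟨f', hf'd⟩ : ∃ f' : X → Y, f' = fun x => if x ∈ C then β (F' x) else f x := ⟨_, rfl⟩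
  have h'C : ∀ x, x ∉ C → f' x = f x := fun x hx => by rw [hf'd]; exact if_neg hx
  have h'C' : ∀ x, x ∈ C → f' x = β (F' x) := fun x hx => by rw [hf'd]; exact if_pos hx
  have hF'V : ∀ x ∈ W, ∃ y ∈ V, F' x = B y ∧ f' x = y := by
    intro x hxW
    by_cases hxC : x ∈ C
    · obtain ⟨⟨y, hy, hyF⟩, -⟩ := hmar x hxC (F' x) (hF'e x)
      refine ⟨y, hy, hyF.symm, ?_⟩
      rw [h'C' x hxC, ← hyF, hβ y hy]
    · exact ⟨f x, (hmW x).1 hxW, by rw [hF'C x hxC, hFx], h'C x hxC⟩
  have hF'B : ∀ x ∈ W, B (f' x) = F' x := by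
    intro x hxW
    obtain ⟨y, hy, h1, h2⟩ := hF'V x hxW
    rw [h2, h1]
  have hF'β : ∀ x ∈ W, f' x = β (F' x) := by
    intro x hxW
    obtain ⟨y, hy, h1, h2⟩ := hF'V x hxW
    rw [h2, h1, hβ y hy]
  have hf'V : ∀ x ∈ W, f' x ∈ V := by
    intro x hxW
    obtain ⟨y, hy, h1, h2⟩ := hF'V x hxW
    rw [h2]
    exact hy
  have hβF : ∀ x ∈ W, LD n β (F' x) := by
    intro x hxW
    rw [← hF'B x hxW]
    exact hβL _ (hf'V x hxW)
  have hevW : ∀ x ∈ W, f' =ᶠ[𝓝 x] fun y => β (F' y) := by
    intro x hxW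
    filter_upwards [hWo.mem_nhds hxW] with y hy
    exact hF'β y hy
  have hevC : ∀ x, x ∉ C → f' =ᶠ[𝓝 x] f := by
    intro x hxC
    filter_upwards [hC.isClosed.isOpen_compl.mem_nhds hxC] with y hy
    exact h'C y hy
  have hLW : ∀ x ∈ W, LD n F' x → LD n f' x := fun x hxW h =>
    LD.congr (LD.comp_fun (hβF x hxW) h) (hevW x hxW)
  have hnC : ∀ x, x ∉ W → x ∉ C := fun x hxW hxC => hxW (hCW hxC)
  have hmid : ∀ (s : unitInterval) (x : X), ‖(F x + (s : ℝ) • (F' x - F x)) - F x‖ ≤ e := by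
    intro s x
    rw [add_sub_cancel_left, norm_smul, Real.norm_eq_abs, abs_of_nonneg s.2.1]
    calc (s : ℝ) * ‖F' x - F x‖ ≤ 1 * ‖F' x - F x‖ :=
          mul_le_mul_of_nonneg_right s.2.2 (norm_nonneg _)
      _ ≤ e := by rw [one_mul]; exact hF'e x
  obtain ⟨H, hHd⟩ : ∃ H : unitInterval × X → Y, H = fun q =>
      if q.2 ∈ C then β (F q.2 + (q.1 : ℝ) • (F' q.2 - F q.2)) else f q.2 := ⟨_, rfl⟩
  have hHC : ∀ q : unitInterval × X, q.2 ∈ C →
      H q = β (F q.2 + (q.1 : ℝ) • (F' q.2 - F q.2)) := fun q hq => by rw [hHd]; exact if_pos hq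
  have hHn : ∀ q : unitInterval × X, q.2 ∉ C → H q = f q.2 :=
    fun q hq => by rw [hHd]; exact if_neg hq
  have hHW : ∀ q : unitInterval × X, q.2 ∈ W →
      H q = β (F q.2 + (q.1 : ℝ) • (F' q.2 - F q.2)) := by
    intro q hq
    by_cases hqC : q.2 ∈ C
    · exact hHC q hqC
    · rw [hHn q hqC, hF'C q.2 hqC, sub_self, smul_zero, add_zero, hFx, hβ _ ((hmW _).1 hq)]
  have hHV : ∀ q : unitInterval × X, q.2 ∈ W →
      F q.2 + (q.1 : ℝ) • (F' q.2 - F q.2) ∈ B '' V := by
    intro q hq
    by_cases hqC : q.2 ∈ C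
    · exact (hmar q.2 hqC _ (hmid q.1 q.2)).1
    · rw [hF'C q.2 hqC, sub_self, smul_zero, add_zero, hFx]
      exact ⟨f q.2, (hmW _).1 hq, rfl⟩
  have hHc : Continuous H := by
    rw [continuous_iff_continuousAt]
    rintro ⟨s, x⟩
    by_cases hxW : x ∈ W
    · have h1 : H =ᶠ[𝓝 (s, x)] fun q => β (F q.2 + (q.1 : ℝ) • (F' q.2 - F q.2)) := by
        filter_upwards [(hWo.preimage continuous_snd).mem_nhds
          (show (s, x) ∈ Prod.snd ⁻¹' W from hxW)] with q hq
        exact hHW q hq
      rw [continuousAt_congr h1]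
      obtain ⟨y, hy, hyF⟩ := hHV (s, x) hxW
      have h2 : ContinuousAt β (F x + (s : ℝ) • (F' x - F x)) := by
        change B y = F x + (s : ℝ) • (F' x - F x) at hyF
        rw [← hyF]
        exact (hβL y hy).continuousAt
      have h3 : ContinuousAt (fun q : unitInterval × X => F q.2) (s, x) :=
        ContinuousAt.comp (g := F) (hFca x hxW) continuousAt_snd
      have h4 : ContinuousAt (fun q : unitInterval × X => F' q.2) (s, x) :=
        ContinuousAt.comp (g := F') (hF'c.continuousAt (hWo.mem_nhds hxW)) continuousAt_snd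
      have h5 : ContinuousAt (fun q : unitInterval × X => (q.1 : ℝ)) (s, x) :=
        (continuous_subtype_val.comp continuous_fst).continuousAt
      exact ContinuousAt.comp (g := β)
        (f := fun q : unitInterval × X => F q.2 + (q.1 : ℝ) • (F' q.2 - F q.2)) h2
        (h3.add (h5.smul (h4.sub h3)))
    · have h1 : H =ᶠ[𝓝 (s, x)] fun q => f q.2 := by
        filter_upwards [(hC.isClosed.isOpen_compl.preimage continuous_snd).mem_nhds
          (show (s, x) ∈ Prod.snd ⁻¹' Cᶜ from hnC x hxW)] with q hq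
        exact hHn q hq
      rw [continuousAt_congr h1]
      exact (hf.comp continuous_snd).continuousAt
  have hf'c : Continuous f' := by
    rw [continuous_iff_continuousAt]
    intro x
    by_cases hxW : x ∈ W
    · rw [continuousAt_congr (hevW x hxW)]
      exact ContinuousAt.comp (g := β) (hβF x hxW).continuousAt
        (hF'c.continuousAt (hWo.mem_nhds hxW))
    · rw [continuousAt_congr (hevC x (hnC x hxW))]
      exact hf.continuousAt
  refine ⟨⟨f', hf'c⟩, F', hF'R, ?_, ?_, ?_⟩
  · refine HomRel.of_fun H hHc (fun x => ?_) (fun x => ?_) (fun s x => ?_)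
      (fun s x hxC => by rw [← hff]; exact hHn (s, x) hxC)
    · rw [← hff]
      by_cases hxC : x ∈ C
      · rw [hHC (0, x) hxC]
        change β (F x + (((0 : unitInterval) : ℝ)) • (F' x - F x)) = f x
        have e0 : ((0 : unitInterval) : ℝ) = 0 := rfl
        rw [e0, zero_smul, add_zero, hFx, hβ _ ((hmW x).1 (hCW hxC))]
      · exact hHn (0, x) hxC
    · change H (1, x) = f' x
      by_cases hxC : x ∈ C
      · rw [hHC (1, x) hxC, h'C' x hxC]
        change β (F x + (((1 : unitInterval) : ℝ)) • (F' x - F x)) = β (F' x)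
        have e1 : ((1 : unitInterval) : ℝ) = 1 := rfl
        rw [e1, one_smul, add_sub_cancel]
      · rw [hHn (1, x) hxC, h'C x hxC]
    · by_cases hxC : x ∈ C
      · rw [hHC (s, x) hxC]
        exact (hmar x hxC _ (hmid s x)).2
      · rw [hHn (s, x) hxC]
        exact hfO x
  · intro x hxC
    rw [← hff]
    exact h'C x hxC
  · intro x hxV h1
    rw [← hff] at hxV
    exact hLW x ((hmW x).2 hxV) h1

/-- smoothness of the mollification where the radius is positive, general version -/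
theorem moll_pos' {n : ℕ} {G : E n → E n} {c : E n → ℝ} {K : Set (E n)} {R : ℝ}
    (hK : IsCompact K) (hG : ContinuousOn G K) (hc : ContDiff ℝ ∞ c) (h1 : ∀ z, c z ≤ R)
    (hin : ∀ z, 0 < c z → ∀ s : E n, ‖s‖ < 1 → z + c z • s ∈ K) {z : E n}
    (hz : 0 < c z) : ContDiffAt ℝ ∞ (Moll n G c) z := by
  obtain ⟨G₁, hG₁⟩ : ∃ G₁, G₁ = K.indicator G := ⟨_, rfl⟩
  have hint : Integrable G₁ := by
    rw [hG₁, integrable_indicator_iff hK.isClosed.measurableSet]
    exact hG.integrableOn_compact hK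
  obtain ⟨s, hs⟩ : ∃ s, s = {y : E n | 0 < c y} := ⟨_, rfl⟩
  have hso : IsOpen s := by rw [hs]; exact isOpen_lt continuous_const hc.continuous
  have hzs : z ∈ s := by rw [hs]; exact hz
  have hg : ContDiffOn ℝ ∞ (fun q : E n × E n => gk n (c q.1) q.2) (s ×ˢ univ) := by
    unfold gk
    have e1 : ContDiffOn ℝ ∞ (fun q : E n × E n => c q.1) (s ×ˢ univ) :=
      (hc.comp contDiff_fst).contDiffOn
    have e0 : ∀ q ∈ s ×ˢ (univ : Set (E n)), c q.1 ≠ 0 := by
      rintro q ⟨hq, -⟩
      rw [hs] at hq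
      exact (ne_of_gt hq)
    apply ContDiffOn.mul
    · exact (e1.pow n).inv fun q hq => pow_ne_zero n (e0 q hq)
    · apply kr_smooth.comp_contDiffOn
      exact (e1.inv e0).smul contDiff_snd.contDiffOn
  have key := contDiffOn_convolution_right_with_param_comp (μ := (volume : Measure (E n)))
    (f := G₁) (g := fun y => gk n (c y)) (k := closedBall (0 : E n) R) (v := fun y => y) (s := s)
    (n := ⊤) (LL n) contDiffOn_id hso (isCompact_closedBall _ _) (by
      intro y x hy hx
      rw [mem_closedBall_zero_iff, not_le] at hx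
      rw [hs] at hy
      have hy' : 0 < c y := hy
      show gk n (c y) x = 0
      unfold gk
      rw [kr_zero, mul_zero]
      rw [norm_smul, norm_inv, Real.norm_of_nonneg hy'.le, inv_mul_eq_div, le_div_iff₀ hy']
      linarith [h1 y]) hint.locallyIntegrable hg
  have h3 : ContDiffAt ℝ ∞ (fun y => (G₁ ⋆[LL n, volume] gk n (c y)) y) z :=
    (key z hzs).contDiffAt (hso.mem_nhds hzs)
  apply h3.congr_of_eventuallyEq
  filter_upwards [hso.mem_nhds hzs] with y hy
  rw [hs] at hy
  have hy' : 0 < c y := hy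
  rw [← moll_conv G₁ y hy']
  unfold Moll
  congr 1
  funext s
  by_cases hs : kr n s = 0
  · rw [hs, zero_smul, zero_smul]
  · rw [hG₁, indicator_of_mem]
    exact hin y hy' s (kr_lt hs)

/-- **Almost affine homeomorphisms** between open subsets of `ℝ^n`, with a compact set of bad points,
are approximated by diffeomorphisms which agree with them off a compact set. -/
theorem almostAffine (n : ℕ) : ∃ ε₀ : ℝ, 0 < ε₀ ∧ ∀ (U V : TopologicalSpace.Opens (E n))
    (g : U ≃ₜ V) (O : Set (U × V)), IsOpen O → (∀ x, (x, g x) ∈ O) →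
    IsCompact {x | ¬ LD n g x} →
    (∀ x, ¬ LD n g x → ∃ r : ℝ, 0 < r ∧ ∀ p : U, ‖(p : E n) - x‖ ≤ r → ∀ δ : ℝ, 0 < δ → δ ≤ r →
      ∃ L : E n ≃L[ℝ] E n, ∀ q : U, ‖(q : E n) - p‖ ≤ δ →
        ‖L.symm ((g q : E n) - g p) - ((q : E n) - p)‖ ≤ ε₀ * δ) →
    ∃ (f' : U → V) (C : Set U), IsCompact C ∧ Bijective f' ∧ (∀ x, LD n f' x) ∧
      (∀ x, (x, f' x) ∈ O) ∧ ∀ x, x ∉ C → f' x = g x := by
  classical
  obtain ⟨ε₀, hε₀, hLD0⟩ := moll_LD n
  refine ⟨ε₀, hε₀, fun U V g O hO hgO hbad hAA => ?_⟩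
  rcases isEmpty_or_nonempty V with hVe | hVn
  · have hUe : IsEmpty U := ⟨fun x => hVe.elim (g x)⟩
    exact ⟨g, ∅, isCompact_empty, g.bijective, fun x => hUe.elim x, hgO, fun _ _ => rfl⟩
  obtain ⟨G, hGd⟩ : ∃ G : E n → E n, G = fun z => if h : z ∈ U then (g ⟨z, h⟩ : E n) else 0 :=
    ⟨_, rfl⟩
  have hGU : ∀ x : U, G x = g x := fun x => by rw [hGd]; exact dif_pos x.2
  have hGc : ContinuousOn G U := by
    rw [continuousOn_iff_continuous_domRestrict]
    have : (U : Set (E n)).domRestrict G = fun x : U => (g x : E n) := by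
      funext x
      exact hGU x
    rw [this]
    exact continuous_subtype_val.comp g.continuous
  have hGLD : ∀ x : U, LD n g x → LD n G x := by
    intro x hx
    apply Pool.Agent.R769.LD_of_restrict U
    have h1 : LD n (fun z : U => (g z : E n)) x :=
      LD.comp_fun (g := (Subtype.val : V → E n)) (f := g) (Pool.Agent.R769.LD_val V _) hx
    exact h1.congr (Eventually.of_forall fun z => hGU z)
  -- the bad set
  obtain ⟨K, hKd⟩ : ∃ K : Set (E n), K = Subtype.val '' {x : U | ¬ LD n g x} := ⟨_, rfl⟩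
  have hK : IsCompact K := by rw [hKd]; exact hbad.image continuous_subtype_val
  have hKU : K ⊆ U := by
    rw [hKd]
    rintro _ ⟨x, -, rfl⟩
    exact x.2
  have hKn : ∀ x : U, (x : E n) ∉ K → LD n g x := by
    intro x hx
    by_contra h
    exact hx (by rw [hKd]; exact ⟨x, h, rfl⟩)
  obtain ⟨ρ, hρ, hρK⟩ : ∃ ρ : ℝ, 0 < ρ ∧ ∀ z ∈ K, closedBall z ρ ⊆ U ∧
      AffOn n G (closedBall z ρ) ε₀ ρ := by
    refine hK.induction_on (p := fun s => ∃ ρ : ℝ, 0 < ρ ∧ ∀ z ∈ s, closedBall z ρ ⊆ (U : Set (E n)) ∧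
      AffOn n G (closedBall z ρ) ε₀ ρ) ?_ ?_ ?_ ?_
    · exact ⟨1, one_pos, fun z hz => absurd hz (notMem_empty z)⟩
    · rintro s t hst ⟨ρ, hρ, h⟩
      exact ⟨ρ, hρ, fun z hz => h z (hst hz)⟩
    · rintro s t ⟨ρ, hρ, h⟩ ⟨ρ', hρ', h'⟩
      refine ⟨min ρ ρ', lt_min hρ hρ', fun z hz => ?_⟩
      rcases hz with hz | hz
      · exact ⟨(closedBall_subset_closedBall (min_le_left _ _)).trans (h z hz).1,
          (h z hz).2.mono (closedBall_subset_closedBall (min_le_left _ _)) le_rfl
            (min_le_left _ _)⟩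
      · exact ⟨(closedBall_subset_closedBall (min_le_right _ _)).trans (h' z hz).1,
          (h' z hz).2.mono (closedBall_subset_closedBall (min_le_right _ _)) le_rfl
            (min_le_right _ _)⟩
    · intro z hz
      have hzK := hz
      rw [hKd] at hz
      obtain ⟨x, hx, rfl⟩ := hz
      obtain ⟨r, hr, h1⟩ := hAA x hx
      obtain ⟨ρ, hρ, h2⟩ := Metric.isOpen_iff.1 U.isOpen x x.2
      obtain ⟨t, ht, ht1, ht2⟩ : ∃ t : ℝ, 0 < t ∧ 2 * t ≤ r ∧ 4 * t ≤ ρ :=
        ⟨min (r / 2) (ρ / 4), lt_min (by linarith) (by linarith), by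
          have := min_le_left (r / 2) (ρ / 4)
          linarith, by
          have := min_le_right (r / 2) (ρ / 4)
          linarith⟩
      refine ⟨closedBall (x : E n) t, mem_nhdsWithin_of_mem_nhds (closedBall_mem_nhds _ ht), t, ht,
        fun z hz => ?_⟩
      rw [mem_closedBall, dist_eq_norm] at hz
      have hsub : ∀ p ∈ closedBall z t, ‖p - x‖ ≤ 2 * t := by
        intro p hp
        rw [mem_closedBall, dist_eq_norm] at hp
        have h3 : p - x = (p - z) + (z - x) := by abel
        rw [h3]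
        refine (norm_add_le _ _).trans ?_
        linarith
      have hin : ∀ p : E n, ‖p - x‖ ≤ 3 * t → p ∈ (U : Set (E n)) := by
        intro p hp
        apply h2
        rw [mem_ball, dist_eq_norm]
        linarith
      refine ⟨fun p hp => hin p ((hsub p hp).trans (by linarith)), fun p hp δ hδ hδt => ?_⟩
      have hpx := hsub p hp
      have hpU := hin p (by linarith)
      obtain ⟨L, hL⟩ := h1 ⟨p, hpU⟩ (by change ‖p - x‖ ≤ r; linarith) δ hδ (by linarith)
      refine ⟨L, fun q hq => ?_⟩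
      have hqU : q ∈ (U : Set (E n)) := by
        apply hin
        have h3 : q - x = (q - p) + (p - x) := by abel
        rw [h3]
        refine (norm_add_le _ _).trans ?_
        linarith
      have h4 := hL ⟨q, hqU⟩ hq
      have e1 := hGU ⟨p, hpU⟩
      have e2 := hGU ⟨q, hqU⟩
      change G p = _ at e1
      change G q = _ at e2
      rw [e1, e2]
      exact h4
  obtain ⟨K', hK'd⟩ : ∃ K' : Set (E n), K' = cthickening (ρ / 2) K := ⟨_, rfl⟩
  have hK' : IsCompact K' := by rw [hK'd]; exact hK.cthickening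
  have hK'm : ∀ z ∈ K', ∃ k ∈ K, ‖z - k‖ ≤ ρ / 2 := by
    intro z hz
    rw [hK'd, cthickening_eq_biUnion_closedBall _ (by linarith), hK.isClosed.closure_eq,
      mem_iUnion₂] at hz
    obtain ⟨k, hk, hz⟩ := hz
    exact ⟨k, hk, by rwa [mem_closedBall, dist_eq_norm] at hz⟩
  have hK'm' : ∀ (z k : E n), k ∈ K → ‖z - k‖ ≤ ρ / 2 → z ∈ K' := by
    intro z k hk hz
    rw [hK'd, cthickening_eq_biUnion_closedBall _ (by linarith), hK.isClosed.closure_eq,
      mem_iUnion₂]
    exact ⟨k, hk, by rwa [mem_closedBall, dist_eq_norm]⟩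
  have hK'U : K' ⊆ U := by
    intro z hz
    obtain ⟨k, hk, h1⟩ := hK'm z hz
    refine (hρK k hk).1 ?_
    rw [mem_closedBall, dist_eq_norm]
    linarith
  have hGK : ContinuousOn G K' := hGc.mono hK'U
  -- the bump function
  obtain ⟨χ, hχsupp, hχs, hχr⟩ := (isOpen_thickening (δ := ρ / 4) (E := K)).exists_contDiff_support_eq
    (n := ⊤)
  have hχ0 : ∀ z, 0 ≤ χ z := fun z => (hχr ⟨z, rfl⟩).1
  have hχ1 : ∀ z, χ z ≤ 1 := fun z => (hχr ⟨z, rfl⟩).2
  have hχp : ∀ z ∈ K, 0 < χ z := by
    intro z hz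
    have h1 : z ∈ support χ := by
      rw [hχsupp]
      exact self_subset_thickening (by linarith) K hz
    exact lt_of_le_of_ne (hχ0 z) (Ne.symm h1)
  have hχz : ∀ z, χ z ≠ 0 → ∃ k ∈ K, ‖z - k‖ < ρ / 4 := by
    intro z hz
    have h1 : z ∈ support χ := hz
    rw [hχsupp, mem_thickening_iff] at h1
    obtain ⟨k, hk, h2⟩ := h1
    exact ⟨k, hk, by rwa [dist_eq_norm] at h2⟩
  have hχcs : HasCompactSupport χ := by
    refine HasCompactSupport.intro hK' fun z hz => ?_
    by_contra hne
    obtain ⟨k, hk, h2⟩ := hχz z hne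
    exact hz (hK'm' z k hk (by linarith))
  obtain ⟨Kl, hKl⟩ : ∃ K : NNReal, LipschitzWith K χ :=
    hχs.lipschitzWith_of_hasCompactSupport hχcs (by simp)
  have hKp : (0 : ℝ) < Kl + 1 := by
    have := Kl.coe_nonneg
    linarith
  obtain ⟨C, hCd⟩ : ∃ C : Set U, C = Subtype.val ⁻¹' K' := ⟨_, rfl⟩
  have hCc : IsCompact C := by
    rw [hCd]
    exact (Topology.IsInducing.subtypeVal.isCompact_preimage_iff (by
      rw [Subtype.range_coe]
      exact hK'U)).2 hK'
  obtain ⟨f', F', hF', hH, hoff, hld⟩ := realize n U V ⟨g, g.continuous⟩ univ Subtype.val O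
    isOpen_univ Subtype.val_injective.injOn (fun y _ => Pool.Agent.R769.LD_val V y) hO hgO C hCc
    (fun _ _ => mem_univ _) hVn (fun F' => ∀ x : U, LD n F' x) (by
      intro e he
      obtain ⟨δ', hδ', hδG⟩ : ∃ δ' : ℝ, 0 < δ' ∧ ∀ x ∈ K', ∀ y ∈ K', dist x y < δ' →
          dist (G x) (G y) < e := by
        have hu := hK'.uniformContinuousOn_of_continuous hGK
        rw [Metric.uniformContinuousOn_iff] at hu
        exact hu e he
      obtain ⟨ε, hεpos, hεK, hερ, hεδ⟩ : ∃ ε : ℝ, 0 < ε ∧ ε * Kl ≤ 1 / 2 ∧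
          12 * ε ≤ ρ ∧ ε < δ' := by
        obtain ⟨e1, he1, he2, he3⟩ : ∃ e1 : ℝ, 0 < e1 ∧ 12 * e1 ≤ ρ ∧ e1 < δ' :=
          ⟨min (ρ / 12) (δ' / 2), lt_min (by linarith) (by linarith), by
            have := min_le_left (ρ / 12) (δ' / 2)
            linarith, (min_le_right _ _).trans_lt (by linarith)⟩
        refine ⟨min e1 (1 / 2 / (Kl + 1)), lt_min he1 (div_pos (by norm_num) hKp), ?_, ?_,
          (min_le_left _ _).trans_lt he3⟩
        · calc min e1 (1 / 2 / ((Kl : ℝ) + 1)) * (Kl : ℝ)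
              ≤ 1 / 2 / (Kl + 1) * Kl :=
                mul_le_mul_of_nonneg_right (min_le_right _ _) Kl.coe_nonneg
            _ ≤ 1 / 2 / (Kl + 1) * (Kl + 1) := by
                apply mul_le_mul_of_nonneg_left (by linarith)
                exact (div_pos (by norm_num) hKp).le
            _ = 1 / 2 := div_mul_cancel₀ _ hKp.ne'
        · have := min_le_left e1 (1 / 2 / ((Kl : ℝ) + 1))
          linarith
      obtain ⟨c, hc⟩ : ∃ c : E n → ℝ, c = fun z => ε * χ z := ⟨_, rfl⟩
      have hcs : ContDiff ℝ ∞ c := by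
        rw [hc]
        exact contDiff_const.mul hχs
      have hc0 : ∀ z, 0 ≤ c z := by
        intro z
        rw [hc]
        exact mul_nonneg hεpos.le (hχ0 z)
      have hcε : ∀ z, c z ≤ ε := by
        intro z
        rw [hc]
        calc ε * χ z ≤ ε * 1 := mul_le_mul_of_nonneg_left (hχ1 z) hεpos.le
          _ = ε := mul_one ε
      have hcz : ∀ z, c z ≠ 0 → ∃ k ∈ K, ‖z - k‖ < ρ / 4 := by
        intro z hz
        apply hχz
        intro h
        apply hz
        rw [hc]
        change ε * χ z = 0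
        rw [h, mul_zero]
      have hcL : ∀ y z, |c y - c z| ≤ 1 / 2 * ‖y - z‖ := by
        intro y z
        rw [hc]
        change |ε * χ y - ε * χ z| ≤ _
        rw [← mul_sub, abs_mul, abs_of_pos hεpos]
        have h1 : |χ y - χ z| ≤ Kl * ‖y - z‖ := by
          have h2 := hKl.dist_le_mul y z
          rwa [Real.dist_eq, dist_eq_norm] at h2
        calc ε * |χ y - χ z| ≤ ε * (Kl * ‖y - z‖) := mul_le_mul_of_nonneg_left h1 hεpos.le
          _ = (ε * Kl) * ‖y - z‖ := by ring
          _ ≤ 1 / 2 * ‖y - z‖ := mul_le_mul_of_nonneg_right hεK (norm_nonneg _)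
      have hin : ∀ z, 0 < c z → ∀ s : E n, ‖s‖ < 1 → z + c z • s ∈ K' := by
        intro z hz s hs
        obtain ⟨k, hk, h1⟩ := hcz z hz.ne'
        refine hK'm' _ k hk ?_
        have h2 : z + c z • s - k = (z - k) + c z • s := by abel
        rw [h2]
        refine (norm_add_le _ _).trans ?_
        rw [norm_smul, Real.norm_of_nonneg (hc0 z)]
        have h3 : c z * ‖s‖ ≤ ε * 1 := mul_le_mul (hcε z) hs.le (norm_nonneg _) hεpos.le
        linarith
      have hsm : ∀ z, 0 < c z → ContDiffAt ℝ ∞ (Moll n G c) z := fun z hz =>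
        moll_pos' hK' hGK hcs hcε hin hz
      have hpos : ∀ z, 0 < c z → LD n (Moll n G c) z := by
        intro z hz
        obtain ⟨k, hk, h1⟩ := hcz z hz.ne'
        obtain ⟨L, hL⟩ := (hρK k hk).2 z (by
          rw [mem_closedBall, dist_eq_norm]
          linarith) (3 * c z) (by linarith) (by linarith [hcε z])
        refine hLD0 G c z L hz (hGK.mono ?_) (fun z' => hcL z' z) hL ?_
        · intro y hy
          rw [mem_closedBall, dist_eq_norm] at hy
          refine hK'm' _ k hk ?_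
          have h3 : y - k = (y - z) + (z - k) := by abel
          rw [h3]
          refine (norm_add_le _ _).trans ?_
          have := hcε z
          linarith
        · have h2 : ∀ᶠ y in 𝓝 z, 0 < c y :=
            hcs.continuous.continuousAt.eventually (lt_mem_nhds hz)
          filter_upwards [h2] with y hy
          exact hsm y hy
      have hzero : ∀ z ∈ U, c z = 0 → LD n G z := by
        intro z hz hcz0
        refine hGLD ⟨z, hz⟩ (hKn ⟨z, hz⟩ fun hzK => ?_)
        have h2 := hχp z hzK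
        rw [hc] at hcz0
        exact (mul_pos hεpos h2).ne' hcz0
      have hall : ∀ z ∈ U, LD n (Moll n G c) z := by
        intro z hz
        rcases (hc0 z).lt_or_eq with h | h
        · exact hpos z h
        · have hGz := hzero z hz h.symm
          have hev : ∀ᶠ y in 𝓝 z, ContDiffAt ℝ ∞ G y := by
            filter_upwards [hGz.eventually] with y hy
            exact hy.contDiffAt
          obtain ⟨h1, h2⟩ := moll_null hcs hc0 h.symm hev
          obtain ⟨D, hD⟩ := hGz.exists_equiv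
          refine LD_of_contDiffAt ?_ D ?_
          · filter_upwards [eventually_eventually_nhds.2 hev] with y hy
            rcases (hc0 y).lt_or_eq with h3 | h3
            · exact hsm y h3
            · exact (moll_null hcs hc0 h3.symm hy).1
          · rw [← hD.fderiv, ← h2]
            exact (h1.differentiableAt (by simp)).hasFDerivAt
      have hCoff : ∀ p : U, p ∉ C → c p = 0 := by
        intro p hp
        by_contra hne
        obtain ⟨k, hk, h2⟩ := hcz p hne
        apply hp
        rw [hCd]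
        exact hK'm' p k hk (by linarith)
      refine ⟨fun x : U => Moll n G c x, ?_, ?_, ?_, ?_⟩
      · intro x _
        have h1 : ContinuousAt (Moll n G c) (x : E n) := (hall x x.2).continuousAt
        exact (ContinuousAt.comp (f := (Subtype.val : U → E n)) (x := x) h1
          continuous_subtype_val.continuousAt).continuousWithinAt
      · intro p hp
        change Moll n G c (p : E n) = (g p : E n)
        rw [moll_const (hCoff p hp), hGU]
      · intro p
        change ‖Moll n G c (p : E n) - (g p : E n)‖ ≤ e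
        rcases (hc0 p).lt_or_eq with h | h
        · have h2 := hin p h
          have hpK : (p : E n) ∈ K' := by
            have h3 := h2 0 (by simp)
            rwa [smul_zero, add_zero] at h3
          have hinc : ∀ s : E n, ‖s‖ ≤ 1 → (p : E n) + c p • s ∈ K' := by
            intro s hs
            obtain ⟨k, hk, h1⟩ := hcz p h.ne'
            refine hK'm' _ k hk ?_
            have h2 : (p : E n) + c p • s - k = ((p : E n) - k) + c p • s := by abel
            rw [h2]
            refine (norm_add_le _ _).trans ?_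
            rw [norm_smul, Real.norm_of_nonneg (hc0 p)]
            have h3 : c p * ‖s‖ ≤ ε * 1 := mul_le_mul (hcε p) hs (norm_nonneg _) hεpos.le
            linarith
          rw [← hGU]
          unfold Moll
          apply Pool.Agent.Y25.SH.norm_mean_sub_le
          · refine hGK.comp (by fun_prop) ?_
            intro s hs
            rw [mem_closedBall_zero_iff] at hs
            exact hinc s hs
          · intro s hs
            have h1 := hδG ((p : E n) + c p • s) (hinc s hs) p hpK (by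
              rw [dist_eq_norm, add_sub_cancel_left, norm_smul, Real.norm_of_nonneg (hc0 p)]
              calc c p * ‖s‖ ≤ ε * 1 := mul_le_mul (hcε p) hs (norm_nonneg _) hεpos.le
                _ < δ' := by linarith)
            rw [dist_eq_norm] at h1
            exact h1.le
        · rw [moll_const h.symm, hGU, sub_self, norm_zero]
          exact he.le
      · intro x
        exact LD.comp_fun (g := Moll n G c) (f := (Subtype.val : U → E n)) (hall x x.2)
          (Pool.Agent.R769.LD_val U x))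
  have hL : ∀ x : U, LD n f' x := fun x => hld x (mem_univ _) (hF' x)
  have hl : IsLocalDiffeomorph (𝓡 n) (𝓡 n) ∞ f' := hL
  refine ⟨f', C, hCc, ?_, hL, fun x => (hH.off x).1, hoff⟩
  exact bijective_of_homRel g f' hl.isLocalHomeomorph O C hCc hH

end Pool.Agent.K7.H28.AF
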