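import Pool.Agent.K7.H28.AF.EStep
import Pool.Agent.K7.H28.AF.All
import Pool.Agent.K7.H28.AF.Euclid

/-!
# Almost affine maps in boxes: smoothing in one small box, and in a family of disjoint small boxes
-/

set_option autoImplicit false

open Set Filter Topology Metric Function MeasureTheory
open scoped Manifold ContDiff

noncomputable section

namespace Pool.Agent.K7.H28.AF

open Pool.Agent.Y522 Pool.Agent.R765

/-- from functions in a chart of the target to maps of manifolds -/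
theorem realize2 (n : ℕ) (X Y : Type) [TopologicalSpace X] [T2Space X]
    [ChartedSpace (E n) X] [TopologicalSpace Y] [ChartedSpace (E n) Y]
    (f₀ : C(X, Y)) (V : Set Y) (B : Y → E n) (O : Set (X × Y)) (hV : IsOpen V)
    (hBi : InjOn B V) (hBd : ∀ y ∈ V, LD n B y) (hO : IsOpen O) (hfO : ∀ x, (x, f₀ x) ∈ O)
    (C : Set X) (hC : IsCompact C) (hCV : ∀ x ∈ C, f₀ x ∈ V) (hYn : Nonempty Y)
    (R : (X → E n) → Prop)
    (hPh0 : ∀ e : ℝ, 0 < e → ∃ F' : X → E n, ContinuousOn F' (f₀ ⁻¹' V) ∧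
      (∀ p, p ∉ C → F' p = B (f₀ p)) ∧ (∀ p, ‖F' p - B (f₀ p)‖ ≤ e) ∧ R F') :
    ∃ (f' : C(X, Y)) (F' : X → E n), R F' ∧ HomRel O C f₀ f' ∧
      (∀ x, x ∉ C → f' x = f₀ x) ∧ (∀ x, f₀ x ∈ V → LD n F' x → LD n f' x) ∧
      ∀ x, f₀ x ∈ V → f' x ∈ V ∧ B (f' x) = F' x := by
  classical
  obtain ⟨f, hff⟩ : ∃ f : X → Y, f = f₀ := ⟨_, rfl⟩
  have hf : Continuous f := by rw [hff]; exact f₀.continuous
  rw [← hff] at hCV hfO hPh0
  obtain ⟨W, hWd⟩ : ∃ W : Set X, W = f ⁻¹' V := ⟨_, rfl⟩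
  have hmW : ∀ x, x ∈ W ↔ f x ∈ V := fun x => by rw [hWd]; rfl
  have hWo : IsOpen W := by rw [hWd]; exact hV.preimage hf
  obtain ⟨F, hFd⟩ : ∃ F : X → E n, F = fun x => B (f x) := ⟨_, rfl⟩
  have hFx : ∀ x, F x = B (f x) := fun x => by rw [hFd]
  have hFca : ∀ x ∈ W, ContinuousAt F x := by
    intro x hxW
    rw [hFd]
    exact ContinuousAt.comp (hBd _ ((hmW x).1 hxW)).continuousAt hf.continuousAt
  obtain ⟨β, hβd⟩ : ∃ β : E n → Y, β = invFunOn B V := ⟨_, rfl⟩
  have hβ : ∀ y ∈ V, β (B y) = y := by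
    intro y hy
    rw [hβd]
    exact hBi.leftInvOn_invFunOn hy
  have hβL : ∀ y ∈ V, LD n β (B y) := fun y hy => LD.inverse hV hBd hβ hy
  have hU : IsOpen (B '' V) := isOpen_image_of_LD hV hBd
  have hCW : C ⊆ W := fun x hx => (hmW x).2 (hCV x hx)
  have hPh : ∀ e : ℝ, 0 < e → ∃ F' : X → E n, ContinuousOn F' W ∧
      (∀ p, p ∉ C → F' p = F p) ∧ (∀ p, ‖F' p - F p‖ ≤ e) ∧ R F' := by
    rw [hWd, hFd]
    exact hPh0
  -- the margin
  have hG : ∀ x ∈ C, ∀ᶠ q : X × E n in 𝓝 (x, F x), q.2 ∈ B '' V ∧ (q.1, β q.2) ∈ O := by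
    intro x hxC
    have hxV := (hmW x).1 (hCW hxC)
    have h1 : ∀ᶠ q : X × E n in 𝓝 (x, F x), q.2 ∈ B '' V :=
      continuousAt_snd.eventually (hU.mem_nhds (by rw [hFx]; exact ⟨f x, hxV, rfl⟩))
    have h2 : ContinuousAt (fun q : X × E n => (q.1, β q.2)) (x, F x) := by
      refine ContinuousAt.prodMk continuousAt_fst ?_
      refine ContinuousAt.comp (g := β) ?_ continuousAt_snd
      change ContinuousAt β (F x)
      rw [hFx]
      exact (hβL _ hxV).continuousAt
    have h3 : (x, β (F x)) ∈ O := by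
      rw [hFx, hβ _ hxV]
      exact hfO x
    exact h1.and (h2.eventually (hO.mem_nhds h3))
  have hmar : ∃ e : ℝ, 0 < e ∧ ∀ x ∈ C, ∀ w : E n, ‖w - F x‖ ≤ e → w ∈ B '' V ∧ (x, β w) ∈ O := by
    refine hC.induction_on (p := fun s => ∃ e : ℝ, 0 < e ∧ ∀ x ∈ s, ∀ w : E n, ‖w - F x‖ ≤ e →
      w ∈ B '' V ∧ (x, β w) ∈ O) ?_ ?_ ?_ ?_
    · exact ⟨1, one_pos, fun x hx => absurd hx (notMem_empty x)⟩
    · rintro s t hst ⟨e, he, h⟩
      exact ⟨e, he, fun x hx => h x (hst hx)⟩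
    · rintro s t ⟨e, he, h⟩ ⟨e', he', h'⟩
      refine ⟨min e e', lt_min he he', fun x hx w hw => ?_⟩
      rcases hx with hx | hx
      · exact h x hx w (hw.trans (min_le_left _ _))
      · exact h' x hx w (hw.trans (min_le_right _ _))
    · intro x hxC
      have h1 := hG x hxC
      rw [nhds_prod_eq] at h1
      obtain ⟨P1, hP1, P2, hP2, hP⟩ := eventually_prod_iff.1 h1
      obtain ⟨e, he, h2⟩ := Metric.eventually_nhds_iff_ball.1 hP2
      have h3 : ∀ᶠ x' in 𝓝 x, P1 x' ∧ F x' ∈ ball (F x) (e / 2) :=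
        hP1.and ((hFca x (hCW hxC)).eventually (ball_mem_nhds _ (by linarith)))
      refine ⟨{x' | P1 x' ∧ F x' ∈ ball (F x) (e / 2)}, mem_nhdsWithin_of_mem_nhds h3, e / 3,
        by linarith, ?_⟩
      rintro x' ⟨h4, h5⟩ w hw
      refine hP h4 (h2 w ?_)
      rw [mem_ball, dist_eq_norm] at h5 ⊢
      have h6 : w - F x = (w - F x') + (F x' - F x) := by abel
      rw [h6]
      refine (norm_add_le _ _).trans_lt ?_
      linarith
  obtain ⟨e, he, hmar⟩ := hmar
  obtain ⟨F', hF'c, hF'C, hF'e, hF'R⟩ := hPh e he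
  obtain ⟨f', hf'd⟩ : ∃ f' : X → Y, f' = fun x => if x ∈ C then β (F' x) else f x := ⟨_, rfl⟩
  have h'C : ∀ x, x ∉ C → f' x = f x := fun x hx => by rw [hf'd]; exact if_neg hx
  have h'C' : ∀ x, x ∈ C → f' x = β (F' x) := fun x hx => by rw [hf'd]; exact if_pos hx
  have hF'V : ∀ x ∈ W, ∃ y ∈ V, F' x = B y ∧ f' x = y := by
    intro x hxW
    by_cases hxC : x ∈ C
    · obtain ⟨⟨y, hy, hyF⟩, -⟩ := hmar x hxC (F' x) (hF'e x)
      refine ⟨y, hy, hyF.symm, ?_⟩
      rw [h'C' x hxC, ← hyF, hβ y hy]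
    · exact ⟨f x, (hmW x).1 hxW, by rw [hF'C x hxC, hFx], h'C x hxC⟩
  have hF'B : ∀ x ∈ W, B (f' x) = F' x := by
    intro x hxW
    obtain ⟨y, hy, h1, h2⟩ := hF'V x hxW
    rw [h2, h1]
  have hF'β : ∀ x ∈ W, f' x = β (F' x) := by
    intro x hxW
    obtain ⟨y, hy, h1, h2⟩ := hF'V x hxW
    rw [h2, h1, hβ y hy]
  have hf'V : ∀ x ∈ W, f' x ∈ V := by
    intro x hxW
    obtain ⟨y, hy, h1, h2⟩ := hF'V x hxW
    rw [h2]
    exact hy
  have hβF : ∀ x ∈ W, LD n β (F' x) := by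
    intro x hxW
    rw [← hF'B x hxW]
    exact hβL _ (hf'V x hxW)
  have hevW : ∀ x ∈ W, f' =ᶠ[𝓝 x] fun y => β (F' y) := by
    intro x hxW
    filter_upwards [hWo.mem_nhds hxW] with y hy
    exact hF'β y hy
  have hevC : ∀ x, x ∉ C → f' =ᶠ[𝓝 x] f := by
    intro x hxC
    filter_upwards [hC.isClosed.isOpen_compl.mem_nhds hxC] with y hy
    exact h'C y hy
  have hLW : ∀ x ∈ W, LD n F' x → LD n f' x := fun x hxW h =>
    LD.congr (LD.comp_fun (hβF x hxW) h) (hevW x hxW)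
  have hnC : ∀ x, x ∉ W → x ∉ C := fun x hxW hxC => hxW (hCW hxC)
  have hmid : ∀ (s : unitInterval) (x : X), ‖(F x + (s : ℝ) • (F' x - F x)) - F x‖ ≤ e := by
    intro s x
    rw [add_sub_cancel_left, norm_smul, Real.norm_eq_abs, abs_of_nonneg s.2.1]
    calc (s : ℝ) * ‖F' x - F x‖ ≤ 1 * ‖F' x - F x‖ :=
          mul_le_mul_of_nonneg_right s.2.2 (norm_nonneg _)
      _ ≤ e := by rw [one_mul]; exact hF'e x
  obtain ⟨H, hHd⟩ : ∃ H : unitInterval × X → Y, H = fun q =>
      if q.2 ∈ C then β (F q.2 + (q.1 : ℝ) • (F' q.2 - F q.2)) else f q.2 := ⟨_, rfl⟩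
  have hHC : ∀ q : unitInterval × X, q.2 ∈ C →
      H q = β (F q.2 + (q.1 : ℝ) • (F' q.2 - F q.2)) := fun q hq => by rw [hHd]; exact if_pos hq
  have hHn : ∀ q : unitInterval × X, q.2 ∉ C → H q = f q.2 :=
    fun q hq => by rw [hHd]; exact if_neg hq
  have hHW : ∀ q : unitInterval × X, q.2 ∈ W →
      H q = β (F q.2 + (q.1 : ℝ) • (F' q.2 - F q.2)) := by
    intro q hq
    by_cases hqC : q.2 ∈ C
    · exact hHC q hqC
    · rw [hHn q hqC, hF'C q.2 hqC, sub_self, smul_zero, add_zero, hFx, hβ _ ((hmW _).1 hq)]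
  have hHV : ∀ q : unitInterval × X, q.2 ∈ W →
      F q.2 + (q.1 : ℝ) • (F' q.2 - F q.2) ∈ B '' V := by
    intro q hq
    by_cases hqC : q.2 ∈ C
    · exact (hmar q.2 hqC _ (hmid q.1 q.2)).1
    · rw [hF'C q.2 hqC, sub_self, smul_zero, add_zero, hFx]
      exact ⟨f q.2, (hmW _).1 hq, rfl⟩
  have hHc : Continuous H := by
    rw [continuous_iff_continuousAt]
    rintro ⟨s, x⟩
    by_cases hxW : x ∈ W
    · have h1 : H =ᶠ[𝓝 (s, x)] fun q => β (F q.2 + (q.1 : ℝ) • (F' q.2 - F q.2)) := by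
        filter_upwards [(hWo.preimage continuous_snd).mem_nhds
          (show (s, x) ∈ Prod.snd ⁻¹' W from hxW)] with q hq
        exact hHW q hq
      rw [continuousAt_congr h1]
      obtain ⟨y, hy, hyF⟩ := hHV (s, x) hxW
      have h2 : ContinuousAt β (F x + (s : ℝ) • (F' x - F x)) := by
        change B y = F x + (s : ℝ) • (F' x - F x) at hyF
        rw [← hyF]
        exact (hβL y hy).continuousAt
      have h3 : ContinuousAt (fun q : unitInterval × X => F q.2) (s, x) :=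
        ContinuousAt.comp (g := F) (hFca x hxW) continuousAt_snd
      have h4 : ContinuousAt (fun q : unitInterval × X => F' q.2) (s, x) :=
        ContinuousAt.comp (g := F') (hF'c.continuousAt (hWo.mem_nhds hxW)) continuousAt_snd
      have h5 : ContinuousAt (fun q : unitInterval × X => (q.1 : ℝ)) (s, x) :=
        (continuous_subtype_val.comp continuous_fst).continuousAt
      exact ContinuousAt.comp (g := β)
        (f := fun q : unitInterval × X => F q.2 + (q.1 : ℝ) • (F' q.2 - F q.2)) h2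
        (h3.add (h5.smul (h4.sub h3)))
    · have h1 : H =ᶠ[𝓝 (s, x)] fun q => f q.2 := by
        filter_upwards [(hC.isClosed.isOpen_compl.preimage continuous_snd).mem_nhds
          (show (s, x) ∈ Prod.snd ⁻¹' Cᶜ from hnC x hxW)] with q hq
        exact hHn q hq
      rw [continuousAt_congr h1]
      exact (hf.comp continuous_snd).continuousAt
  have hf'c : Continuous f' := by
    rw [continuous_iff_continuousAt]
    intro x
    by_cases hxW : x ∈ W
    · rw [continuousAt_congr (hevW x hxW)]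
      exact ContinuousAt.comp (g := β) (hβF x hxW).continuousAt
        (hF'c.continuousAt (hWo.mem_nhds hxW))
    · rw [continuousAt_congr (hevC x (hnC x hxW))]
      exact hf.continuousAt
  refine ⟨⟨f', hf'c⟩, F', hF'R, ?_, ?_, ?_, ?_⟩
  · refine HomRel.of_fun H hHc (fun x => ?_) (fun x => ?_) (fun s x => ?_)
      (fun s x hxC => by rw [← hff]; exact hHn (s, x) hxC)
    · rw [← hff]
      by_cases hxC : x ∈ C
      · rw [hHC (0, x) hxC]
        change β (F x + (((0 : unitInterval) : ℝ)) • (F' x - F x)) = f x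
        have e0 : ((0 : unitInterval) : ℝ) = 0 := rfl
        rw [e0, zero_smul, add_zero, hFx, hβ _ ((hmW x).1 (hCW hxC))]
      · exact hHn (0, x) hxC
    · change H (1, x) = f' x
      by_cases hxC : x ∈ C
      · rw [hHC (1, x) hxC, h'C' x hxC]
        change β (F x + (((1 : unitInterval) : ℝ)) • (F' x - F x)) = β (F' x)
        have e1 : ((1 : unitInterval) : ℝ) = 1 := rfl
        rw [e1, one_smul, add_sub_cancel]
      · rw [hHn (1, x) hxC, h'C x hxC]
    · by_cases hxC : x ∈ C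
      · rw [hHC (s, x) hxC]
        exact (hmar x hxC _ (hmid s x)).2
      · rw [hHn (s, x) hxC]
        exact hfO x
  · intro x hxC
    rw [← hff]
    exact h'C x hxC
  · intro x hxV h1
    rw [← hff] at hxV
    exact hLW x ((hmW x).2 hxV) h1
  · intro x hxV
    rw [← hff] at hxV
    have hxW := (hmW x).2 hxV
    exact ⟨hf'V x hxW, hF'B x hxW⟩


section ec

variable {n : ℕ} {X Y : Type} [TopologicalSpace X] [ChartedSpace (E n) X]
  [TopologicalSpace Y] [ChartedSpace (E n) Y]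

/-- in the box `A` the map `f` is at `z` a local diffeomorphism or almost affine -/
def EC (n : ℕ) {X Y : Type} [TopologicalSpace X] [ChartedSpace (E n) X]
    [TopologicalSpace Y] [ChartedSpace (E n) Y] (ε : ℝ) (f : X → Y) (A : E n → X) (z : E n) :
    Prop :=
  LD n f (A z) ∨ ∃ B : Y → E n, LD n B (f (A z)) ∧ EA n ε (fun p => B (f (A p))) z

theorem EC.mono {ε ε' : ℝ} {f : X → Y} {A : E n → X} {z : E n} (h : EC n ε f A z)
    (he : ε ≤ ε') : EC n ε' f A z := by
  rcases h with h | ⟨B, hB, h⟩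
  · exact Or.inl h
  · exact Or.inr ⟨B, hB, h.mono he⟩

theorem EC.congr {ε : ℝ} {f f' : X → Y} {A : E n → X} {z : E n} (hA : ContinuousAt A z)
    (h : EC n ε f A z) (he : f' =ᶠ[𝓝 (A z)] f) : EC n ε f' A z := by
  rcases h with h | ⟨B, hB, h⟩
  · exact Or.inl (LD.congr h he)
  · refine Or.inr ⟨B, ?_, h.congr ?_⟩
    · rw [he.self_of_nhds]
      exact hB
    · filter_upwards [hA.eventually he] with p hp
      rw [hp]

theorem EC.chart {ε : ℝ} {f : X → Y} {A : E n → X} {z : E n} {B' : Y → E n}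
    (hf : ContinuousAt f (A z)) (hA : LD n A z) (hB' : LD n B' (f (A z))) (hε : 0 < ε)
    (hε1 : ε ≤ 1 / 256) (h : EC n ε f A z) : EA n (2 * ε) (fun p => B' (f (A p))) z := by
  rcases h with h | ⟨B, hB, h⟩
  · have h1 : LD n (fun p => B' (f (A p))) z :=
      LD.comp_fun (g := B') (f := fun p => f (A p)) hB' (LD.comp_fun (g := f) (f := A) h hA)
    exact (AAt.of_LD h1).ea (by positivity)
  · obtain ⟨p, hp1, hp2, hp3, -⟩ := hB.exists_inverse
    have hfA : ContinuousAt (fun q => f (A q)) z := ContinuousAt.comp (g := f) hf hA.continuousAt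
    have hc : ContinuousAt (fun q => B (f (A q))) z :=
      ContinuousAt.comp (g := B) hB.continuousAt hfA
    have hτ : LD n (fun z => B' (p z)) (B (f (A z))) :=
      LD.comp_fun (by rw [hp2]; exact hB') hp1
    refine (EA.comp_left (h := fun q => B (f (A q))) (β := fun z => B' (p z)) hc hτ hε hε1
      h).congr ?_
    filter_upwards [hfA.tendsto.eventually hp3] with q hq
    rw [hq]

theorem LD_sim (c : E n) {s : ℝ} (hs : s ≠ 0) (z : E n) : LD n (fun p : E n => c + s • p) z := by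
  have h1 : (fun p : E n => c + s • p) = fun p => (s • p) + c := by
    funext p
    exact add_comm _ _
  rw [h1]
  have h3 : LD n (fun y : E n => s • y) z :=
    LD_linear (ContinuousLinearEquiv.smulLeft (Units.mk0 s hs)) z
  exact LD.comp_fun (g := fun y : E n => y + c) (f := fun p : E n => s • p) (LD_add_const c _) h3

theorem EC.sim {ε : ℝ} {f : X → Y} {A : E n → X} {z : E n} (c : E n) {s : ℝ} (hs : 0 < s)
    (h : EC n ε f A (c + s • z)) : EC n ε f (fun p => A (c + s • p)) z := by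
  rcases h with h | ⟨B, hB, h⟩
  · exact Or.inl h
  · exact Or.inr ⟨B, hB, EA.sim (h := fun p => B (f (A p))) c hs h⟩

theorem EC.sim' {ε : ℝ} {f : X → Y} {A : E n → X} {z : E n} (c : E n) {s : ℝ} (hs : 0 < s)
    (h : EC n ε f (fun p => A (c + s • p)) z) : EC n ε f A (c + s • z) := by
  rcases h with h | ⟨B, hB, h⟩
  · exact Or.inl h
  · exact Or.inr ⟨B, hB, EA.sim' (h := fun p => B (f (A p))) c hs h⟩

/-- change of the box, with a uniform factor -/
theorem ea_transfer (n : ℕ) (X : Type) [TopologicalSpace X] [T2Space X] [ChartedSpace (E n) X]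
    (A A' : E n → X) (hA : ∀ z ∈ closedBall (0 : E n) 2, LD n A z)
    (hA' : ∀ z ∈ closedBall (0 : E n) 2, LD n A' z) :
    ∃ κ : ℝ, 1 ≤ κ ∧ ∀ z ∈ closedBall (0 : E n) 2, ∀ w ∈ closedBall (0 : E n) 2, A z = A' w →
      ∀ (F : X → E n) (ε : ℝ), 0 < ε → EA n ε (fun p => F (A' p)) w →
        EA n (κ * ε) (fun p => F (A p)) z := by
  obtain ⟨S, hSd⟩ : ∃ S : Set (E n × E n), S = (closedBall (0 : E n) 2 ×ˢ closedBall (0 : E n) 2) ∩
      (fun p : E n × E n => (A p.1, A' p.2)) ⁻¹' (diagonal X) := ⟨_, rfl⟩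
  have hSc : IsCompact S := by
    refine ((isCompact_closedBall (0 : E n) 2).prod (isCompact_closedBall (0 : E n) 2)
      ).of_isClosed_subset ?_ (by rw [hSd]; exact inter_subset_left)
    rw [hSd]
    refine ContinuousOn.preimage_isClosed_of_isClosed ?_
      (isClosed_closedBall.prod isClosed_closedBall) isClosed_diagonal
    rintro ⟨z, w⟩ ⟨hz, hw⟩
    refine ContinuousAt.continuousWithinAt (ContinuousAt.prodMk ?_ ?_)
    · exact ContinuousAt.comp (g := A) (hA z hz).continuousAt continuousAt_fst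
    · exact ContinuousAt.comp (g := A') (hA' w hw).continuousAt continuousAt_snd
  have key : ∃ κ : ℝ, 1 ≤ κ ∧ ∀ p ∈ S, ∀ (F : X → E n) (ε : ℝ), 0 < ε →
      EA n ε (fun q => F (A' q)) (p : E n × E n).2 → EA n (κ * ε) (fun q => F (A q)) p.1 := by
    refine hSc.induction_on (p := fun s => ∃ κ : ℝ, 1 ≤ κ ∧ ∀ p ∈ s, ∀ (F : X → E n) (ε : ℝ),
      0 < ε → EA n ε (fun q => F (A' q)) (p : E n × E n).2 →
        EA n (κ * ε) (fun q => F (A q)) p.1) ?_ ?_ ?_ ?_
    · exact ⟨1, le_rfl, fun p hp => absurd hp (notMem_empty p)⟩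
    · rintro s t hst ⟨κ, hκ, h⟩
      exact ⟨κ, hκ, fun p hp => h p (hst hp)⟩
    · rintro s t ⟨κ, hκ, h⟩ ⟨κ', hκ', h'⟩
      refine ⟨max κ κ', hκ.trans (le_max_left _ _), fun p hp F ε hε hF => ?_⟩
      rcases hp with hp | hp
      · exact (h p hp F ε hε hF).mono (mul_le_mul_of_nonneg_right (le_max_left _ _) hε.le)
      · exact (h' p hp F ε hε hF).mono (mul_le_mul_of_nonneg_right (le_max_right _ _) hε.le)
    · rintro ⟨z₀, w₀⟩ hzw
      have hzw' := hzw
      rw [hSd] at hzw'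
      obtain ⟨⟨hz₀, hw₀⟩, hd⟩ := hzw'
      have hd' : A z₀ = A' w₀ := hd
      obtain ⟨p, hp1, hp2, hp3, hp4⟩ := (hA' w₀ hw₀).exists_inverse
      have hα : LD n (fun z => p (A z)) z₀ := LD.comp_fun (by rw [hd']; exact hp1) (hA z₀ hz₀)
      obtain ⟨κ, hκ, hev⟩ := EA.comp_right_unif hα
      have hAc : ContinuousAt A z₀ := (hA z₀ hz₀).continuousAt
      have e1 : ∀ᶠ z in 𝓝 z₀, ∀ᶠ q in 𝓝 z, A' (p (A q)) = A q := by
        have h2 : ∀ᶠ q in 𝓝 z₀, A' (p (A q)) = A q := by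
          have h3 := hAc.tendsto
          rw [hd'] at h3
          exact h3.eventually hp4
        exact eventually_eventually_nhds.2 h2
      have e2 : ∀ᶠ w in 𝓝 w₀, p (A' w) = w := hp3
      have e3 : ∀ᶠ q : E n × E n in 𝓝 (z₀, w₀),
          (∀ (h : E n → E n) (ε : ℝ), 0 < ε → EA n ε h (p (A q.1)) →
            EA n (κ * ε) (fun x => h (p (A x))) q.1) ∧ (∀ᶠ x in 𝓝 q.1, A' (p (A x)) = A x) ∧
          p (A' q.2) = q.2 := by
        refine ((continuousAt_fst (p := ((z₀, w₀) : E n × E n))).eventually hev).and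
          (((continuousAt_fst (p := ((z₀, w₀) : E n × E n))).eventually e1).and
            ((continuousAt_snd (p := ((z₀, w₀) : E n × E n))).eventually e2))
      refine ⟨S ∩ {q | (∀ (h : E n → E n) (ε : ℝ), 0 < ε → EA n ε h (p (A q.1)) →
            EA n (κ * ε) (fun x => h (p (A x))) q.1) ∧ (∀ᶠ x in 𝓝 q.1, A' (p (A x)) = A x) ∧
          p (A' q.2) = q.2}, inter_mem self_mem_nhdsWithin (mem_nhdsWithin_of_mem_nhds e3),
        κ, hκ, ?_⟩
      rintro ⟨z, w⟩ ⟨hS, h1, h2, h3⟩ F ε hε hF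
      rw [hSd] at hS
      have hzw2 : A z = A' w := hS.2
      have h4 := h1 (fun x => F (A' x)) ε hε (by
        change EA n ε (fun x => F (A' x)) (p (A z))
        rw [hzw2, h3]
        exact hF)
      refine h4.congr ?_
      filter_upwards [h2] with x hx
      rw [hx]
  obtain ⟨κ, hκ, h⟩ := key
  refine ⟨κ, hκ, fun z hz w hw hzw F ε hε hF => h (z, w) ?_ F ε hε hF⟩
  rw [hSd]
  exact ⟨⟨hz, hw⟩, hzw⟩

end ec

/-- smoothing in one box which is mapped to a chart of the target -/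
theorem eone (n : ℕ) : ∃ (ε₀ C₁ : ℝ), 0 < ε₀ ∧ ε₀ ≤ 1 / 256 ∧ 1 ≤ C₁ ∧ ∀ (X Y : Type)
    [TopologicalSpace X] [T2Space X] [ChartedSpace (E n) X] [TopologicalSpace Y]
    [ChartedSpace (E n) Y] (f₀ : C(X, Y)) (A : E n → X) (O : Set (X × Y)) (T : Type)
    [NormedAddCommGroup T] [NormedSpace ℝ T] [CompleteSpace T] (τ : Y → T) (y : Y)
    (ch : TChart n Y T τ y) (a : E n →L[ℝ] T) (b : T) (ε : ℝ),
    InjOn A (closedBall 0 2) → (∀ z ∈ closedBall (0 : E n) 2, LD n A z) → IsOpen O →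
    (∀ x, (x, f₀ x) ∈ O) → (∀ z ∈ closedBall (0 : E n) 2, f₀ (A z) ∈ ch.V) →
    (∀ z ∈ closedBall (0 : E n) 2, τ (f₀ (A z)) = a z + b) → 0 < ε → ε ≤ ε₀ →
    (∀ z ∈ closedBall (0 : E n) 2, EC n ε f₀ A z) →
    ∃ f' : C(X, Y), HomRel O (A '' closedBall 0 1) f₀ f' ∧ (∀ x, LD n f₀ x → LD n f' x) ∧
      (∀ z, ‖z‖ ≤ 1 / 2 → LD n f' (A z)) ∧ (∀ x, x ∉ A '' closedBall 0 1 → f' x = f₀ x) ∧
      (∀ z, ‖z‖ ≤ 1 → EC n (C₁ * ε) f' A z) ∧ ∀ x, τ (f' x) = τ (f₀ x) := by
  obtain ⟨ε₁, C₁, hε₁, hC₁, hst⟩ := estep n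
  refine ⟨min (1 / 256) (ε₁ / 2), 2 * C₁, lt_min (by norm_num) (by linarith), min_le_left _ _,
    by linarith, ?_⟩
  intro X Y _ _ _ _ _ f₀ A O T _ _ _ τ y ch a b ε hAi hAd hO hfO hAV hτ hε hεε₀ hx
  have hε1 : ε ≤ 1 / 256 := hεε₀.trans (min_le_left _ _)
  have hε2 : 2 * ε ≤ ε₁ := by
    have := hεε₀.trans (min_le_right _ _)
    linarith
  have h0m : (0 : E n) ∈ closedBall (0 : E n) 2 := mem_closedBall_self (by norm_num)
  have hAc : IsCompact (A '' closedBall 0 1) := by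
    apply (isCompact_closedBall (0 : E n) 1).image_of_continuousOn
    intro z hz
    exact (hAd z (closedBall_subset_closedBall (by norm_num) hz)).continuousAt.continuousWithinAt
  have hcl : IsClosed (A '' closedBall (0 : E n) 1) := hAc.isClosed
  have hm1 : ∀ z : E n, ‖z‖ ≤ 1 → z ∈ closedBall (0 : E n) 2 := by
    intro z hz
    rw [mem_closedBall_zero_iff]
    linarith
  have hWo : IsOpen (f₀ ⁻¹' ch.V) := ch.isOpen.preimage f₀.continuous
  obtain ⟨f', F', hR, hH, hoff, hld, hV'⟩ := realize2 n X Y f₀ ch.V ch.B O ch.isOpen ch.inj ch.ld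
    hO hfO (A '' closedBall 0 1) hAc
    (by
      rintro _ ⟨z, hz, rfl⟩
      rw [mem_closedBall_zero_iff] at hz
      exact hAV z (hm1 z hz))
    ⟨y⟩
    (fun F' => (∀ p, LD n (fun x => ch.B (f₀ x)) p → LD n F' p) ∧
      (∀ z, ‖z‖ ≤ 1 / 2 → LD n F' (A z)) ∧
      (∀ z, ‖z‖ ≤ 1 → LD n F' (A z) ∨ EA n (C₁ * (2 * ε)) (fun p => F' (A p)) z) ∧
      ∀ x, ch.Λ (F' x) = ch.Λ (ch.B (f₀ x)))
    (by
      intro e he
      obtain ⟨F', g1, g2, g3, g4, g5, g6, g7⟩ := hst X (fun x => ch.B (f₀ x)) (f₀ ⁻¹' ch.V) A e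
        (2 * ε) hWo
        (by
          intro x hx
          exact (ContinuousAt.comp (g := ch.B) (ch.ld _ hx).continuousAt
            f₀.continuous.continuousAt).continuousWithinAt)
        hAi hAd hAV he (by linarith) hε2
        (by
          intro z hz
          exact EC.chart f₀.continuous.continuousAt (hAd z hz) (ch.ld _ (hAV z hz)) hε hε1
            (hx z hz))
      refine ⟨F', g1, g2, g3, g4, g5, g6, ?_⟩
      refine g7 T ch.Λ a (b - ch.β₀) ?_
      intro z hz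
      have h3 := ch.level _ (hAV z hz)
      have h4 := hτ z hz
      rw [eq_sub_of_add_eq h3.symm, h4]
      abel)
  obtain ⟨hR1, hR2, hR3, hR4⟩ := hR
  have hev : ∀ x, x ∉ A '' closedBall 0 1 → f' =ᶠ[𝓝 x] f₀ := by
    intro x hxC
    filter_upwards [hcl.isOpen_compl.mem_nhds hxC] with w hw
    exact hoff w hw
  refine ⟨f', hH, ?_, ?_, hoff, ?_, ?_⟩
  · intro x h1
    by_cases hxV : f₀ x ∈ ch.V
    · refine hld x hxV (hR1 x ?_)
      exact LD.comp_fun (g := ch.B) (f := f₀) (ch.ld _ hxV) h1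
    · refine LD.congr h1 (hev x ?_)
      rintro ⟨z, hz, rfl⟩
      rw [mem_closedBall_zero_iff] at hz
      exact hxV (hAV z (hm1 z hz))
  · intro z hz
    exact hld _ (hAV z (hm1 z (by linarith))) (hR2 z hz)
  · intro z hz
    have hzV := hAV z (hm1 z hz)
    rcases hR3 z hz with h1 | h1
    · exact Or.inl (hld _ hzV h1)
    · refine Or.inr ⟨ch.B, ch.ld _ (hV' _ hzV).1, ?_⟩
      have h2 : C₁ * (2 * ε) = 2 * C₁ * ε := by ring
      rw [h2] at h1
      refine h1.congr ?_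
      have h3 : ∀ᶠ p in 𝓝 z, f₀ (A p) ∈ ch.V :=
        (ContinuousAt.comp (g := f₀) f₀.continuous.continuousAt
          (hAd z (hm1 z hz)).continuousAt).eventually (ch.isOpen.mem_nhds hzV)
      filter_upwards [h3] with p hp
      exact (hV' _ hp).2
  · intro x
    by_cases hxV : f₀ x ∈ ch.V
    · rw [ch.level _ (hV' x hxV).1, ch.level _ hxV, (hV' x hxV).2, hR4]
    · rw [hoff x]
      rintro ⟨z, hz, rfl⟩
      rw [mem_closedBall_zero_iff] at hz
      exact hxV (hAV z (hm1 z hz))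

/-- smoothing in a family of disjoint small balls of a box -/
theorem efam (n : ℕ) : ∃ (ε₀ C₁ : ℝ), 0 < ε₀ ∧ ε₀ ≤ 1 / 256 ∧ 1 ≤ C₁ ∧ ∀ (X Y : Type)
    [TopologicalSpace X] [T2Space X] [ChartedSpace (E n) X] [TopologicalSpace Y]
    [ChartedSpace (E n) Y] (f₀ : C(X, Y)) (A : E n → X) (O : Set (X × Y)) (T : Type)
    [NormedAddCommGroup T] [NormedSpace ℝ T] [CompleteSpace T] (τ : Y → T)
    (a : E n →L[ℝ] T) (b : T) (ε s : ℝ) (Q : Finset (E n)),
    InjOn A (closedBall 0 2) → (∀ z ∈ closedBall (0 : E n) 2, LD n A z) → IsOpen O →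
    (∀ x, (x, f₀ x) ∈ O) → (∀ z ∈ closedBall (0 : E n) 2, τ (f₀ (A z)) = a z + b) → 0 < ε →
    ε ≤ ε₀ → (∀ z ∈ closedBall (0 : E n) 2, EC n ε f₀ A z) → 0 < s → s ≤ 1 / 2 →
    (∀ q ∈ Q, ‖q‖ ≤ 1) → (∀ q ∈ Q, ∀ q' ∈ Q, q ≠ q' → 3 * s < ‖q - q'‖) →
    (∀ q ∈ Q, ∃ (y : Y) (ch : TChart n Y T τ y), ∀ z, ‖z - q‖ ≤ 2 * s → f₀ (A z) ∈ ch.V) →
    ∃ (f' : C(X, Y)) (C : Set X), IsCompact C ∧ HomRel O C f₀ f' ∧
      (∀ x, LD n f₀ x → LD n f' x) ∧ (∀ q ∈ Q, ∀ z, ‖z - q‖ ≤ s / 2 → LD n f' (A z)) ∧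
      (∀ x, τ (f' x) = τ (f₀ x)) ∧ (∀ x, x ∉ A '' closedBall 0 2 → f' =ᶠ[𝓝 x] f₀) ∧
      (∀ x, (∀ q ∈ Q, x ∉ A '' closedBall q s) → f' x = f₀ x) ∧
      ∀ z ∈ closedBall (0 : E n) 2, EC n (C₁ * ε) f' A z := by
  classical
  obtain ⟨ε₀, C₁, hε₀, hε₀1, hC₁, hone⟩ := eone n
  refine ⟨ε₀, C₁, hε₀, hε₀1, hC₁, ?_⟩
  intro X Y _ _ _ _ _ f₀ A O T _ _ _ τ a b ε s Q hAi hAd hO hfO hτ hε hεε₀ hx hs hs2 hQ1 hQ2 hQ3
  have hballs : ∀ q ∈ Q, ∀ z : E n, ‖z - q‖ ≤ 2 * s → z ∈ closedBall (0 : E n) 2 := by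
    intro q hq z hz
    rw [mem_closedBall_zero_iff]
    have h1 : z = (z - q) + q := by abel
    rw [h1]
    refine (norm_add_le _ _).trans ?_
    have := hQ1 q hq
    linarith
  have hcpt : ∀ q ∈ Q, IsCompact (A '' closedBall q s) := by
    intro q hq
    apply (isCompact_closedBall q s).image_of_continuousOn
    intro z hz
    rw [mem_closedBall, dist_eq_norm] at hz
    exact (hAd z (hballs q hq z (by linarith))).continuousAt.continuousWithinAt
  have key : ∀ S : Finset (E n), S ⊆ Q → ∃ (f' : C(X, Y)) (C : Set X), IsCompact C ∧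
      HomRel O C f₀ f' ∧ (∀ x, LD n f₀ x → LD n f' x) ∧
      (∀ q ∈ S, ∀ z, ‖z - q‖ ≤ s / 2 → LD n f' (A z)) ∧ (∀ x, τ (f' x) = τ (f₀ x)) ∧
      (∀ x, (∀ q ∈ S, x ∉ A '' closedBall q s) → f' x = f₀ x) ∧
      ∀ q ∈ S, ∀ z, ‖z - q‖ ≤ s → EC n (C₁ * ε) f' A z := by
    intro S
    induction S using Finset.induction_on with
    | empty =>
      intro _
      exact ⟨f₀, ∅, isCompact_empty, HomRel.refl hfO, fun _ h => h,
        fun q hq => absurd hq (Finset.notMem_empty q), fun _ => rfl, fun _ _ => rfl,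
        fun q hq => absurd hq (Finset.notMem_empty q)⟩
    | insert q S hqS ih =>
      intro hSQ
      obtain ⟨f1, C1, hC1, h1, h2, h3, h4, h5, h6⟩ := ih ((Finset.subset_insert q S).trans hSQ)
      have hqQ : q ∈ Q := hSQ (Finset.mem_insert_self q S)
      have hclS : IsClosed (⋃ q' ∈ S, A '' closedBall q' s) :=
        S.finite_toSet.isClosed_biUnion fun q' hq' =>
          (hcpt q' (hSQ (Finset.mem_insert_of_mem hq'))).isClosed
      -- the new ball is far from the old ones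
      have hfar : ∀ q' ∈ S, 3 * s < ‖q - q'‖ := fun q' hq' =>
        hQ2 q hqQ q' (hSQ (Finset.mem_insert_of_mem hq')) fun h => hqS (h ▸ hq')
      have hnot : ∀ z : E n, ‖z - q‖ ≤ 2 * s → A z ∉ ⋃ q' ∈ S, A '' closedBall q' s := by
        intro z hz hz'
        obtain ⟨q', hq', w, hw, hwz⟩ := mem_iUnion₂.1 hz'
        rw [mem_closedBall, dist_eq_norm] at hw
        have hq'Q := hSQ (Finset.mem_insert_of_mem hq')
        have h7 : w = z := hAi (hballs q' hq'Q w (by linarith)) (hballs q hqQ z hz) hwz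
        rw [h7] at hw
        have h8 := hfar q' hq'
        have h9 : q - q' = -(z - q) + (z - q') := by abel
        rw [h9] at h8
        have h10 := norm_add_le (-(z - q)) (z - q')
        rw [norm_neg] at h10
        linarith
      have hgerm : ∀ z : E n, ‖z - q‖ ≤ 2 * s → f1 =ᶠ[𝓝 (A z)] f₀ := by
        intro z hz
        filter_upwards [hclS.isOpen_compl.mem_nhds (hnot z hz)] with x hx
        refine h5 x fun q' hq' hx' => hx ?_
        exact mem_iUnion₂.2 ⟨q', hq', hx'⟩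
      obtain ⟨y, ch, hch⟩ := hQ3 q hqQ
      have hsim : ∀ z : E n, ‖z‖ ≤ 2 → ‖(q + s • z) - q‖ ≤ 2 * s := by
        intro z hz
        rw [add_sub_cancel_left, norm_smul, Real.norm_of_nonneg hs.le]
        nlinarith
      have hsimm : ∀ z ∈ closedBall (0 : E n) 2, ‖(q + s • z) - q‖ ≤ 2 * s := by
        intro z hz
        rw [mem_closedBall_zero_iff] at hz
        exact hsim z hz
      obtain ⟨f2, g1, g2, g3, g4, g5, g6⟩ := hone X Y f1 (fun z => A (q + s • z)) O T τ y ch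
        (s • a) (a q + b) ε
        (by
          intro z hz w hw hzw
          have h7 : q + s • z = q + s • w := hAi (hballs q hqQ _ (hsimm z hz))
            (hballs q hqQ _ (hsimm w hw)) hzw
          exact smul_right_injective _ hs.ne' (add_left_cancel h7))
        (by
          intro z hz
          exact LD.comp_fun (g := A) (f := fun p : E n => q + s • p)
            (hAd _ (hballs q hqQ _ (hsimm z hz))) (LD_sim q hs.ne' z))
        hO (fun x => (h1.off x).1)
        (by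
          intro z hz
          change f1 (A (q + s • z)) ∈ ch.V
          rw [(hgerm _ (hsimm z hz)).self_of_nhds]
          exact hch _ (hsimm z hz))
        (by
          intro z hz
          change τ (f1 (A (q + s • z))) = (s • a) z + (a q + b)
          rw [h4, hτ _ (hballs q hqQ _ (hsimm z hz)), map_add, map_smul]
          change a q + s • a z + b = s • a z + (a q + b)
          abel)
        hε hεε₀
        (by
          intro z hz
          refine EC.sim q hs ?_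
          exact EC.congr (hAd _ (hballs q hqQ _ (hsimm z hz))).continuousAt
            (hx _ (hballs q hqQ _ (hsimm z hz))) (hgerm _ (hsimm z hz)))
      have himg : (fun z => A (q + s • z)) '' closedBall 0 1 = A '' closedBall q s := by
        ext x
        constructor
        · rintro ⟨z, hz, rfl⟩
          rw [mem_closedBall_zero_iff] at hz
          refine ⟨q + s • z, ?_, rfl⟩
          rw [mem_closedBall, dist_eq_norm, add_sub_cancel_left, norm_smul,
            Real.norm_of_nonneg hs.le]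
          nlinarith
        · rintro ⟨z, hz, rfl⟩
          rw [mem_closedBall, dist_eq_norm] at hz
          refine ⟨s⁻¹ • (z - q), ?_, ?_⟩
          · rw [mem_closedBall_zero_iff, norm_smul, norm_inv, Real.norm_of_nonneg hs.le,
              inv_mul_le_iff₀ hs]
            linarith
          · change A (q + s • (s⁻¹ • (z - q))) = A z
            rw [smul_smul, mul_inv_cancel₀ hs.ne', one_smul, add_sub_cancel]
      rw [himg] at g1 g4
      have hof2 : ∀ x, x ∉ A '' closedBall q s → f2 =ᶠ[𝓝 x] f1 := by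
        intro x hx'
        filter_upwards [(hcpt q hqQ).isClosed.isOpen_compl.mem_nhds hx'] with w hw
        exact g4 w hw
      have hsc : ∀ z : E n, ∃ w : E n, z = q + s • w ∧ ‖z - q‖ = s * ‖w‖ := by
        intro z
        have h7 : z = q + s • (s⁻¹ • (z - q)) := by
          rw [smul_smul, mul_inv_cancel₀ hs.ne', one_smul, add_sub_cancel]
        refine ⟨s⁻¹ • (z - q), h7, ?_⟩
        rw [norm_smul, norm_inv, Real.norm_of_nonneg hs.le, ← mul_assoc,
          mul_inv_cancel₀ hs.ne', one_mul]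
      refine ⟨f2, C1 ∪ A '' closedBall q s, hC1.union (hcpt q hqQ), h1.trans g1,
        fun x hx' => g2 x (h2 x hx'), ?_, fun x => (g6 x).trans (h4 x), ?_, ?_⟩
      · intro q' hq' z hz
        rcases Finset.mem_insert.1 hq' with h7 | h7
        · subst h7
          obtain ⟨w, hw1, hw2⟩ := hsc z
          rw [hw1]
          refine g3 w ?_
          rw [hw2] at hz
          by_contra hlt
          have : s * (1 / 2) < s * ‖w‖ := mul_lt_mul_of_pos_left (not_le.1 hlt) hs
          linarith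
        · exact g2 _ (h3 q' h7 z hz)
      · intro x hx'
        rw [g4 x (hx' q (Finset.mem_insert_self q S)),
          h5 x fun q' hq' => hx' q' (Finset.mem_insert_of_mem hq')]
      · intro q' hq' z hz
        rcases Finset.mem_insert.1 hq' with h7 | h7
        · subst h7
          obtain ⟨w, hw1, hw2⟩ := hsc z
          rw [hw1]
          refine EC.sim' q' hs (g5 w ?_)
          rw [hw2] at hz
          by_contra hlt
          have : s * 1 < s * ‖w‖ := mul_lt_mul_of_pos_left (not_le.1 hlt) hs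
          linarith
        · have hq'Q := hSQ (Finset.mem_insert_of_mem h7)
          have hzm := hballs q' hq'Q z (by linarith)
          refine EC.congr (hAd z hzm).continuousAt (h6 q' h7 z hz) (hof2 _ ?_)
          rintro ⟨w, hw, hwz⟩
          rw [mem_closedBall, dist_eq_norm] at hw
          have h8 : w = z := hAi (hballs q hqQ w (by linarith)) hzm hwz
          rw [h8] at hw
          have h9 := hfar q' h7
          have h10 : q - q' = -(z - q) + (z - q') := by abel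
          rw [h10] at h9
          have h11 := norm_add_le (-(z - q)) (z - q')
          rw [norm_neg] at h11
          linarith
  obtain ⟨f', C, hC, h1, h2, h3, h4, h5, h6⟩ := key Q (Finset.Subset.refl Q)
  have hclQ : IsClosed (⋃ q' ∈ Q, A '' closedBall q' s) :=
    Q.finite_toSet.isClosed_biUnion fun q' hq' => (hcpt q' hq').isClosed
  have hgermQ : ∀ x, x ∉ (⋃ q' ∈ Q, A '' closedBall q' s) → f' =ᶠ[𝓝 x] f₀ := by
    intro x hx'
    filter_upwards [hclQ.isOpen_compl.mem_nhds hx'] with w hw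
    refine h5 w fun q' hq' hw' => hw ?_
    exact mem_iUnion₂.2 ⟨q', hq', hw'⟩
  refine ⟨f', C, hC, h1, h2, h3, h4, ?_, h5, ?_⟩
  · intro x hx'
    apply hgermQ
    intro h7
    obtain ⟨q, hq, z, hz, rfl⟩ := mem_iUnion₂.1 h7
    rw [mem_closedBall, dist_eq_norm] at hz
    exact hx' ⟨z, hballs q hq z (by linarith), rfl⟩
  · intro z hz
    by_cases h7 : ∃ q ∈ Q, ‖z - q‖ ≤ s
    · obtain ⟨q, hq, hzq⟩ := h7
      exact h6 q hq z hzq
    · refine EC.mono (EC.congr (hAd z hz).continuousAt (hx z hz) (hgermQ _ ?_)) (by nlinarith)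
      intro h8
      obtain ⟨q, hq, w, hw, hwz⟩ := mem_iUnion₂.1 h8
      rw [mem_closedBall, dist_eq_norm] at hw
      have h9 : w = z := hAi (hballs q hq w (by linarith)) hz hwz
      rw [h9] at hw
      exact h7 ⟨q, hq, hw⟩

end Pool.Agent.K7.H28.AF
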