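import Pool.Agent.K7.H28.AF.ECor
import Pool.Agent.Y434.CI.Main

/-!
# Isotopies which are almost affine at small scales
-/

set_option autoImplicit false

open Set Filter Topology Metric Function MeasureTheory
open scoped Manifold ContDiff

noncomputable section

namespace Pool.Agent.K7.H28.AF

open Pool.Agent.Y522 Pool.Agent.Y522.NA Pool.Agent.Y434.CI Pool.Agent.R765

section prod

variable {m : ℕ} {X Y : Type} [TopologicalSpace X] [ChartedSpace (E m) X] [IsManifold (𝓡 m) ∞ X]
  [TopologicalSpace Y] [ChartedSpace (E m) Y] [IsManifold (𝓡 m) ∞ Y]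

theorem smooth_prodOn {g : X → Y} {s : Set X} (hg : ContMDiffOn (𝓡 m) (𝓡 m) ∞ g s) :
    ContMDiffOn (𝓡 (m + 1)) (𝓡 (m + 1)) ∞ (fun q : Pr X => (mk ((un q).1, g (un q).2) : Pr Y))
      {q | (un q).2 ∈ s} := by
  have h1 : ContMDiffOn (𝓡 (m + 1)) (𝓡 m) ∞ (fun q : Pr X => g (un q).2) {q | (un q).2 ∈ s} :=
    hg.comp (smooth_snd (X := X)).contMDiffOn fun q hq => hq
  have h2 : ContMDiffOn (𝓡 (m + 1)) ((𝓘(ℝ, ℝ)).prod (𝓡 m)) ∞
      (fun q : Pr X => ((un q).1, g (un q).2)) {q | (un q).2 ∈ s} :=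
    (smooth_hgt (X := X)).contMDiffOn.prodMk h1
  exact (smooth_mk (X := Y)).comp_contMDiffOn h2

theorem LD_prod {g : X → Y} {x : X} (hg : LD m g x) (t : ℝ) :
    LD (m + 1) (fun q : Pr X => (mk ((un q).1, g (un q).2) : Pr Y)) (mk (t, x)) := by
  obtain ⟨Φ, hΦ, hEq⟩ := hg
  have h1 := smooth_prodOn (X := X) (Y := Y) Φ.contMDiffOn_toFun
  have h2 := smooth_prodOn (X := Y) (Y := X) Φ.contMDiffOn_invFun
  refine ⟨{ toFun := fun q => mk ((un q).1, Φ.toFun (un q).2)
            invFun := fun q => mk ((un q).1, Φ.invFun (un q).2)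
            source := {q | (un q).2 ∈ Φ.source}
            target := {q | (un q).2 ∈ Φ.target}
            map_source' := fun q hq => Φ.map_source' hq
            map_target' := fun q hq => Φ.map_target' hq
            left_inv' := fun q hq => ?_
            right_inv' := fun q hq => ?_
            open_source := Φ.open_source.preimage (continuous_snd.comp cont_un)
            open_target := Φ.open_target.preimage (continuous_snd.comp cont_un)
            contMDiffOn_toFun := h1
            contMDiffOn_invFun := h2 }, hΦ, ?_⟩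
  · apply un_inj
    exact Prod.ext rfl (Φ.left_inv' hq)
  · apply un_inj
    exact Prod.ext rfl (Φ.right_inv' hq)
  · intro q hq
    apply un_inj
    exact Prod.ext rfl (hEq hq)

end prod

variable {m : ℕ}

theorem smooth_cnun : ContMDiff (𝓡 (m + 1)) (𝓡 (m + 1)) ∞
    (fun q : Pr (E m) => (cn (un q).1 (un q).2 : E (m + 1))) := by
  have h := (smooth_hgt (X := E m) (k := m)).prodMk_space (smooth_snd (X := E m) (k := m))
  exact (contDiff_cn (k := m)).contMDiff.comp h

theorem smooth_mkz : ContMDiff (𝓡 (m + 1)) (𝓡 (m + 1)) ∞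
    (fun z : E (m + 1) => (mk (z 0, tl z) : Pr (E m))) := by
  have h1 : ContMDiff (𝓡 (m + 1)) 𝓘(ℝ, ℝ) ∞ (fun z : E (m + 1) => z 0) :=
    (contDiff_hd (k := m)).contMDiff
  have h2 : ContMDiff (𝓡 (m + 1)) (𝓡 m) ∞ (fun z : E (m + 1) => (tl z : E m)) :=
    (tl (m := m)).contDiff.contMDiff
  exact (smooth_mk (X := E m)).comp (h1.prodMk h2)

theorem LD_cnun (q : Pr (E m)) :
    LD (m + 1) (fun q : Pr (E m) => (cn (un q).1 (un q).2 : E (m + 1))) q := by
  refine LD_of_inv (g := fun z : E (m + 1) => (mk (z 0, tl z) : Pr (E m))) smooth_cnun smooth_mkz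
    ?_ ?_ q
  · intro q
    apply un_inj
    simp
  · intro z
    simp

theorem LD_mkz (z : E (m + 1)) :
    LD (m + 1) (fun z : E (m + 1) => (mk (z 0, tl z) : Pr (E m))) z := by
  refine LD_of_inv (g := fun q : Pr (E m) => (cn (un q).1 (un q).2 : E (m + 1))) smooth_mkz
    smooth_cnun ?_ ?_ z
  · intro z
    simp
  · intro q
    apply un_inj
    simp

theorem tchart_hgt (m : ℕ) (Y : Type) [TopologicalSpace Y] [ChartedSpace (E m) Y]
    [IsManifold (𝓡 m) ∞ Y] (y : Pr Y) :
    Nonempty (TChart (m + 1) (Pr Y) ℝ (fun q => (un q).1) y) :=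
  ⟨{ V := (chartAt (E (m + 1)) y).source
     B := chartAt (E (m + 1)) y
     Λ := EuclideanSpace.proj 0
     β₀ := 0
     isOpen := (chartAt (E (m + 1)) y).open_source
     mem := mem_chart_source (E (m + 1)) y
     inj := (chartAt (E (m + 1)) y).injOn
     ld := fun z hz => Pool.Agent.Y66.CM.LD_chart y z hz
     level := fun z _ => by
       change (un z).1 = (ch (chartAt (E m) (un y).2) z) 0 + 0
       rw [ch_apply, cn_zero, add_zero] }⟩

/-- **Isotopies which are almost affine at small scales.** -/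
theorem almostAffineIsotopy (m : ℕ) (X : Type) [TopologicalSpace X] [T2Space X] [CompactSpace X]
    [ChartedSpace (E m) X] [IsManifold (𝓡 m) ∞ X] (S : Set (OpenPartialHomeomorph X (E m)))
    (hS : ∀ φ ∈ S, φ ∈ IsManifold.maximalAtlas (𝓡 m) ∞ X) (hcov : ∀ x, ∃ φ ∈ S, x ∈ φ.source) :
    ∃ ε₀ : ℝ, 0 < ε₀ ∧ ∀ (Y : Type) [TopologicalSpace Y] [T2Space Y] [ChartedSpace (E m) Y]
      [IsManifold (𝓡 m) ∞ Y] (f : ℝ × X → Y) (O : Set ((ℝ × X) × Y)), Continuous f →
      (∀ t, Bijective fun x => f (t, x)) →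
      (∀ t x, t ≤ 0 ∨ 1 ≤ t → LD (m + 1) (lft f) (mk (t, x))) →
      (∀ t x, LD (m + 1) (lft f) (mk (t, x)) ∨ ∀ φ ∈ S, x ∈ φ.source → ∃ B : Y → E m,
        LD m B (f (t, x)) ∧ EA (m + 1) ε₀ (fun z => cn (z 0) (B (f (z 0, φ.symm (tl z)))))
          (cn t (φ x))) → IsOpen O → (∀ q, (q, f q) ∈ O) →
      ∃ K : ℝ × X → Y, ContMDiff ((𝓘(ℝ, ℝ)).prod (𝓡 m)) (𝓡 m) ∞ K ∧
        (∀ t, Bijective (fun x => K (t, x))) ∧ (∀ t x, LD m (fun x => K (t, x)) x) ∧
        (∀ t x, t ≤ 0 ∨ 1 ≤ t → K (t, x) = f (t, x)) ∧ ∀ q, (q, K q) ∈ O := by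
  classical
  rcases isEmpty_or_nonempty X with hXe | hXn
  · refine ⟨1, one_pos, fun Y _ _ _ _ f O _ hb _ _ _ _ => ⟨f, ?_, hb, fun t x => hXe.elim x,
      fun t x => hXe.elim x, fun q => hXe.elim q.2⟩⟩
    exact fun q => hXe.elim q.2
  have hne : Nonempty (OpenPartialHomeomorph X (E m)) := ⟨chartAt (E m) hXn.some⟩
  choose φ hφS hφx using hcov
  -- the boxes
  have hbox : ∀ p : Pr X, ∃ s : ℝ, 0 < s ∧
      (∀ z ∈ closedBall (0 : E m) 2, φ (un p).2 (un p).2 + s • z ∈ (φ (un p).2).target) := by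
    intro p
    obtain ⟨s, hs, h1, -, -, -⟩ := box_of_chart (hS _ (hφS (un p).2)) (hφx (un p).2)
    exact ⟨s, hs, h1⟩
  choose s hs hst using hbox
  obtain ⟨A, hAd⟩ : ∃ A : Pr X → E (m + 1) → Pr X, A = fun p z =>
      mk ((un p).1 + s p * z 0, (φ (un p).2).symm (φ (un p).2 (un p).2 + s p • tl z)) := ⟨_, rfl⟩
  have hAa : ∀ p z, A p z =
      mk ((un p).1 + s p * z 0, (φ (un p).2).symm (φ (un p).2 (un p).2 + s p • tl z)) :=
    fun p z => by rw [hAd]
  have htl : ∀ z ∈ closedBall (0 : E (m + 1)) 2, (tl z : E m) ∈ closedBall (0 : E m) 2 := by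
    intro z hz
    rw [mem_closedBall_zero_iff] at hz ⊢
    exact (norm_tl_le z).trans hz
  have hAinj : ∀ p, InjOn (A p) (closedBall 0 2) := by
    intro p z hz w hw hzw
    rw [hAa, hAa] at hzw
    have h1 : (un p).1 + s p * z 0 = (un p).1 + s p * w 0 := congrArg (fun r : Pr X => (un r).1) hzw
    have h2 : (φ (un p).2).symm (φ (un p).2 (un p).2 + s p • tl z) =
      (φ (un p).2).symm (φ (un p).2 (un p).2 + s p • tl w) :=
      congrArg (fun r : Pr X => (un r).2) hzw
    have h3 : z 0 = w 0 := mul_left_cancel₀ (hs p).ne' (add_left_cancel h1)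
    have h4 := (φ (un p).2).symm.injOn (hst p _ (htl z hz)) (hst p _ (htl w hw)) h2
    have h5 : (tl z : E m) = tl w := smul_right_injective _ (hs p).ne' (add_left_cancel h4)
    rw [← cn_tl z, ← cn_tl w, h3, h5]
  have hAform : ∀ p, A p = fun z => (fun q : Pr (E m) =>
      (mk ((un q).1, (φ (un p).2).symm (un q).2) : Pr X)) ((fun y : E (m + 1) =>
        (mk (y 0, tl y) : Pr (E m))) (cn (un p).1 (φ (un p).2 (un p).2) + s p • z)) := by
    intro p
    funext z
    rw [hAa]
    apply un_inj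
    refine Prod.ext ?_ ?_
    · change (un p).1 + s p * z 0 = (un p).1 + s p * z 0
      rfl
    · change (φ (un p).2).symm (φ (un p).2 (un p).2 + s p • tl z) =
        (φ (un p).2).symm (tl (cn (un p).1 (φ (un p).2 (un p).2) + s p • z))
      rw [map_add, map_smul, tl_cn]
  have hALD : ∀ p, ∀ z ∈ closedBall (0 : E (m + 1)) 2, LD (m + 1) (A p) z := by
    intro p z hz
    rw [hAform]
    have h1 : LD (m + 1) (fun z : E (m + 1) => cn (un p).1 (φ (un p).2 (un p).2) + s p • z) z :=
      LD_sim _ (hs p).ne' z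
    have h2 : LD (m + 1) (fun z : E (m + 1) => (fun y : E (m + 1) => (mk (y 0, tl y) : Pr (E m)))
        (cn (un p).1 (φ (un p).2 (un p).2) + s p • z)) z :=
      LD.comp_fun (g := fun y : E (m + 1) => (mk (y 0, tl y) : Pr (E m)))
        (f := fun z : E (m + 1) => cn (un p).1 (φ (un p).2 (un p).2) + s p • z) (LD_mkz _) h1
    refine LD.comp_fun (g := fun q : Pr (E m) =>
      (mk ((un q).1, (φ (un p).2).symm (un q).2) : Pr X)) ?_ h2
    have h3 : tl (cn (un p).1 (φ (un p).2 (un p).2) + s p • z) =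
        φ (un p).2 (un p).2 + s p • tl z := by rw [map_add, map_smul, tl_cn]
    have h4 := LD_symm_of_mem (hS _ (hφS (un p).2)) (hst p _ (htl z hz))
    rw [← h3] at h4
    exact LD_prod h4 _
  have hA0 : ∀ p, A p 0 = p := by
    intro p
    rw [hAa]
    apply un_inj
    refine Prod.ext ?_ ?_
    · change (un p).1 + s p * (0 : E (m + 1)) 0 = (un p).1
      simp
    · change (φ (un p).2).symm (φ (un p).2 (un p).2 + s p • tl 0) = (un p).2
      rw [map_zero, smul_zero, add_zero, (φ (un p).2).left_inv (hφx _)]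
  have hAn : ∀ p, A p '' ball 0 (1 / 2) ∈ 𝓝 p := by
    intro p
    have h4 := (hALD p 0 (mem_closedBall_self (by norm_num))).image_mem_nhds
      (ball_mem_nhds (0 : E (m + 1)) (by norm_num : (0 : ℝ) < 1 / 2))
    rwa [hA0] at h4
  -- the compact set
  have hKc : IsCompact {p : Pr X | (un p).1 ∈ Icc (0 : ℝ) 1} := by
    have h2 : IsCompact ((Icc (0 : ℝ) 1) ×ˢ (univ : Set X)) := isCompact_Icc.prod isCompact_univ
    have h3 : {p : Pr X | (un p).1 ∈ Icc (0 : ℝ) 1} = mk '' ((Icc (0 : ℝ) 1) ×ˢ (univ : Set X)) := by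
      ext p
      constructor
      · intro hp
        exact ⟨un p, ⟨hp, mem_univ _⟩, rfl⟩
      · rintro ⟨q, hq, rfl⟩
        exact hq.1
    rw [h3]
    exact h2.image cont_mk
  obtain ⟨t, -, ht⟩ := hKc.elim_nhds_subcover (fun p => A p '' ball 0 (1 / 2)) (fun p _ => hAn p)
  obtain ⟨ε₀, hε₀, hmain⟩ := eall (m + 1) (Pr X) t (fun j => A j) (fun j => hAinj j)
    (fun j => hALD j)
  refine ⟨ε₀, hε₀, ?_⟩
  intro Y _ _ _ _ f O hf hb hends hx hO hfO
  have hLb := bij_lft hb
  have hLcont : Continuous (lft f : Pr X → Pr Y) :=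
    cont_mk.comp ((continuous_fst.comp cont_un).prodMk (hf.comp cont_un))
  have hLc : IsClosedMap (lft f : Pr X → Pr Y) := by
    have h2 : IsProperMap ((fun p : Pr Y => (un p).1) ∘ lft f) :=
      (isProperMap_fst_of_compactSpace : IsProperMap (Prod.fst : ℝ × X → ℝ))
    exact (isProperMap_of_comp_of_t2 hLcont (continuous_fst.comp cont_un) h2).isClosedMap
  obtain ⟨H, hH⟩ : ∃ H : Pr X ≃ₜ Pr Y, (H : Pr X → Pr Y) = lft f :=
    ⟨(Equiv.ofBijective (lft f) hLb).toHomeomorphOfContinuousClosed hLcont hLc, rfl⟩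
  obtain ⟨O₁, hO₁d⟩ : ∃ O₁ : Set (Pr X × Pr Y), O₁ = {q | (un q.1, (un q.2).2) ∈ O} := ⟨_, rfl⟩
  have hO₁ : IsOpen O₁ := by
    rw [hO₁d]
    exact hO.preimage ((cont_un.comp continuous_fst).prodMk
      (continuous_snd.comp (cont_un.comp continuous_snd)))
  obtain ⟨U, hUd⟩ : ∃ U : Set (Pr X), U = {p | 0 < (un p).1 ∧ (un p).1 < 1} := ⟨_, rfl⟩
  have hUo : IsOpen U := by
    rw [hUd]
    exact (isOpen_lt continuous_const (continuous_fst.comp cont_un)).inter
      (isOpen_lt (continuous_fst.comp cont_un) continuous_const)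
  have hLU : ∀ p, LD (m + 1) H p ∨ p ∈ U := by
    intro p
    rw [hH, hUd]
    rcases le_or_gt (un p).1 0 with h1 | h1
    · exact Or.inl (hends (un p).1 (un p).2 (Or.inl h1))
    · rcases le_or_gt 1 (un p).1 with h2 | h2
      · exact Or.inl (hends (un p).1 (un p).2 (Or.inr h2))
      · exact Or.inr ⟨h1, h2⟩
  obtain ⟨f', C, hC, hHR, hL, hlev, hoff⟩ := hmain (Pr Y) ⟨H, H.continuous⟩ O₁ U ℝ
    (fun q => (un q).1) (tchart_hgt m Y)
    (by
      rintro ⟨j, hj⟩
      refine ⟨s j • EuclideanSpace.proj 0, (un j).1, fun z _ => ?_⟩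
      change (un (H (A j z))).1 = s j * z 0 + (un j).1
      rw [hH, hAa, add_comm]
      rfl)
    (by
      intro p
      rcases hLU p with h1 | h1
      · exact Or.inl h1
      · right
        rw [hUd] at h1
        obtain ⟨y, hy, z, hz, hzx⟩ := mem_iUnion₂.1 (ht (show p ∈ {p : Pr X | (un p).1 ∈ Icc (0 : ℝ) 1}
          from ⟨h1.1.le, h1.2.le⟩))
        rw [mem_ball_zero_iff] at hz
        exact ⟨⟨y, hy⟩, z, hz.le, hzx⟩)
    (by
      rintro ⟨j, hj⟩ z hz
      have h4 := hst j _ (htl z hz)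
      have hun : un (A j z) = ((un j).1 + s j * z 0,
        (φ (un j).2).symm (φ (un j).2 (un j).2 + s j • tl z)) := by rw [hAa]; rfl
      rcases hx (un (A j z)).1 (un (A j z)).2 with h1 | h1
      · refine Or.inl ?_
        change LD (m + 1) H (A j z)
        rw [hH]
        exact h1
      · refine Or.inr ?_
        have hms : (un (A j z)).2 ∈ (φ (un j).2).source := by
          rw [hun]
          exact (φ (un j).2).map_target h4
        obtain ⟨B, hB, h5⟩ := h1 (φ (un j).2) (hφS _) hms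
        refine ⟨fun q => cn (un q).1 (B (un q).2), ?_, ?_⟩
        · change LD (m + 1) _ (H (A j z))
          rw [hH]
          exact LD.comp_fun (g := fun q : Pr (E m) => (cn (un q).1 (un q).2 : E (m + 1)))
            (f := fun q : Pr Y => (mk ((un q).1, B (un q).2) : Pr (E m))) (LD_cnun _)
            (LD_prod hB _)
        · have h6 : cn (un (A j z)).1 (φ (un j).2 (un (A j z)).2) =
              cn (un j).1 (φ (un j).2 (un j).2) + s j • z := by
            rw [hun]
            change cn ((un j).1 + s j * z 0) (φ (un j).2 ((φ (un j).2).symm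
              (φ (un j).2 (un j).2 + s j • tl z))) = _
            rw [(φ (un j).2).right_inv h4]
            rw [← cn_tl (cn (un j).1 (φ (un j).2 (un j).2) + s j • z)]
            rw [map_add, map_smul, tl_cn]
            rfl
          rw [h6] at h5
          have h7 := EA.sim (h := fun z => cn (z 0) (B (f (z 0, (φ (un j).2).symm (tl z)))))
            (cn (un j).1 (φ (un j).2 (un j).2)) (hs j) h5
          refine h7.congr (Eventually.of_forall fun w => ?_)
          change cn (un (H (A j w))).1 (B (un (H (A j w))).2) = _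
          rw [hH, hAa]
          change cn ((un j).1 + s j * w 0) (B (f ((un j).1 + s j * w 0,
            (φ (un j).2).symm (φ (un j).2 (un j).2 + s j • tl w)))) =
            cn ((un j).1 + s j * w 0) (B (f ((un j).1 + s j * w 0, (φ (un j).2).symm
              (tl (cn (un j).1 (φ (un j).2 (un j).2) + s j • w)))))
          rw [map_add, map_smul, tl_cn])
    hO₁ (by
      intro p
      rw [hO₁d]
      change (un p, (un (H p)).2) ∈ O
      rw [hH]
      exact hfO (un p)) hUo hLU
  have hl : IsLocalDiffeomorph (𝓡 (m + 1)) (𝓡 (m + 1)) ∞ f' := hL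
  have hbij : Bijective f' := bijective_of_homRel H f' hl.isLocalHomeomorph O₁ C hC hHR
  have hlev' : ∀ p, (un (f' p)).1 = (un p).1 := fun p => (hlev p).trans (by
    change (un (H p)).1 = (un p).1
    rw [hH]
    rfl)
  have hs' : ContMDiff (𝓡 (m + 1)) (𝓡 (m + 1)) ∞ f' := fun p => (hL p).contMDiffAt
  refine ⟨fun q => (un (f' (mk q))).2, ?_, ?_, ?_, ?_, ?_⟩
  · exact (smooth_snd (X := Y)).comp (hs'.comp (smooth_mk (X := X)))
  · intro t
    constructor
    · intro x x' hxx
      have h2 : f' (mk (t, x)) = f' (mk (t, x')) := by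
        apply un_inj
        refine Prod.ext ?_ hxx
        rw [hlev', hlev']
        rfl
      have h3 := hbij.1 h2
      exact congrArg (fun r : Pr X => (un r).2) h3
    · intro y
      obtain ⟨p, hp⟩ := hbij.2 (mk (t, y))
      refine ⟨(un p).2, ?_⟩
      have h2 : (un p).1 = t := by
        rw [← hlev', hp]
        rfl
      have h3 : mk (t, (un p).2) = p := by
        apply un_inj
        exact Prod.ext h2.symm rfl
      change (un (f' (mk (t, (un p).2)))).2 = y
      rw [h3, hp]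
      rfl
  · intro t x
    exact LD_slice hbij hL hlev' t x
  · intro t x htx
    have h1 : (mk (t, x) : Pr X) ∉ U := by
      rw [hUd]
      rintro ⟨h2, h3⟩
      rcases htx with h4 | h4
      · exact absurd h2 (not_lt.2 h4)
      · exact absurd h3 (not_lt.2 h4)
    have h2 := hoff _ h1
    change (un (f' (mk (t, x)))).2 = _
    rw [h2]
    change (un (H (mk (t, x)))).2 = _
    rw [hH]
    rfl
  · intro q
    have h1 := (hHR.off (mk q)).1
    rw [hO₁d] at h1
    exact h1

end Pool.Agent.K7.H28.AF
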