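import Pool.Agent.K7.H28.AF.EIso

/-!
# Isotopies which are almost affine at small scales: translation of the hypotheses
-/

set_option autoImplicit false

open Set Filter Topology Metric Function MeasureTheory
open scoped Manifold ContDiff

noncomputable section

namespace Pool.Agent.K7.H28.AF

open Pool.Agent.Y522 Pool.Agent.Y522.NA Pool.Agent.Y434.CI

/-- the linear isomorphism `(t, w) ↦ (t, L (w + t v))` -/
def shear {m : ℕ} (L : E m ≃L[ℝ] E m) (v : E m) : E (m + 1) ≃L[ℝ] E (m + 1) :=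
  LinearEquiv.toContinuousLinearEquiv
    { toFun := fun z => cn (z 0) (L (tl z + z 0 • v))
      invFun := fun z => cn (z 0) (L.symm (tl z) - z 0 • v)
      map_add' := fun x y => by
        have h1 : (x + y) 0 = x 0 + y 0 := rfl
        have h1' : (tl (x + y) : E m) = tl x + tl y := map_add _ _ _
        rw [h1, h1', add_smul]
        have h2 : L (tl x + tl y + (x 0 • v + y 0 • v)) =
            L (tl x + x 0 • v) + L (tl y + y 0 • v) := by
          have h3 : (tl x : E m) + tl y + (x 0 • v + y 0 • v) =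
            (tl x + x 0 • v) + (tl y + y 0 • v) := by abel
          rw [h3]
          exact map_add L _ _
        rw [h2]
        ext i
        refine Fin.cases ?_ (fun i => ?_) i
        · rfl
        · rfl
      map_smul' := fun c x => by
        have h1 : (c • x) 0 = c * x 0 := rfl
        have h1' : (tl (c • x) : E m) = c • tl x := map_smul _ _ _
        rw [h1, h1', mul_smul, ← smul_add, map_smul]
        ext i
        refine Fin.cases ?_ (fun i => ?_) i
        · rfl
        · rfl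
      left_inv := fun z => by
        simp only [cn_zero, tl_cn, L.symm_apply_apply, add_sub_cancel_right, cn_tl]
      right_inv := fun z => by
        simp only [cn_zero, tl_cn, sub_add_cancel, L.apply_symm_apply, cn_tl] }

theorem shear_symm {m : ℕ} (L : E m ≃L[ℝ] E m) (v : E m) (z : E (m + 1)) :
    (shear L v).symm z = cn (z 0) (L.symm (tl z) - z 0 • v) := rfl

theorem abs_head {m : ℕ} (z : E (m + 1)) : |z 0| ≤ ‖z‖ := by
  have := PiLp.norm_apply_le z 0
  rwa [Real.norm_eq_abs] at this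

/-- the family is almost affine, in terms of space and time -/
theorem ea_of_family {m : ℕ} {g : ℝ × E m → E m} {t : ℝ} {c : E m} {ε r : ℝ} (hr : 0 < r)
    (h : ∀ (s : ℝ) (p : E m), |s - t| ≤ r → ‖p - c‖ ≤ r → ∀ δ : ℝ, 0 < δ → δ ≤ r →
      ∃ (L : E m ≃L[ℝ] E m) (v : E m), ∀ (s' : ℝ) (q : E m), |s' - s| ≤ δ → ‖q - p‖ ≤ δ →
        ‖L.symm (g (s', q) - g (s, p)) - (q - p) - (s' - s) • v‖ ≤ ε * δ) :
    EA (m + 1) ε (fun z => cn (z 0) (g (z 0, tl z))) (cn t c) := by
  refine ⟨r, hr, fun p hp δ hδ hδr => ?_⟩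
  rw [mem_closedBall, dist_eq_norm] at hp
  have h1 : |p 0 - t| ≤ r := (abs_head (p - cn t c)).trans hp
  have h2 : ‖tl p - c‖ ≤ r := by
    have h3 := norm_tl_le (p - cn t c)
    rw [map_sub, tl_cn] at h3
    exact h3.trans hp
  obtain ⟨L, v, hL⟩ := h (p 0) (tl p) h1 h2 δ hδ hδr
  refine ⟨shear L v, fun q hq => ?_⟩
  have h3 : |q 0 - p 0| ≤ δ := (abs_head (q - p)).trans hq
  have h4 : ‖(tl q : E m) - tl p‖ ≤ δ := by
    have h5 := norm_tl_le (q - p)
    rw [map_sub] at h5
    exact h5.trans hq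
  have h5 := hL (q 0) (tl q) h3 h4
  have h6 : (shear L v).symm (cn (q 0) (g (q 0, tl q)) - cn (p 0) (g (p 0, tl p))) - (q - p) =
      cn 0 (L.symm (g (q 0, tl q) - g (p 0, tl p)) - (tl q - tl p) - (q 0 - p 0) • v) := by
    rw [shear_symm]
    have e0 : (cn (q 0) (g (q 0, tl q)) - cn (p 0) (g (p 0, tl p)) : E (m + 1)) 0 =
      q 0 - p 0 := rfl
    rw [e0, map_sub, tl_cn, tl_cn]
    ext i
    refine Fin.cases ?_ (fun i => ?_) i
    · change (q 0 - p 0) - (q 0 - p 0) = 0
      ring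
    · change (L.symm (g (q 0, tl q) - g (p 0, tl p))) i - ((q 0 - p 0) • v) i -
        (q i.succ - p i.succ) = (L.symm (g (q 0, tl q) - g (p 0, tl p))) i -
          (q i.succ - p i.succ) - ((q 0 - p 0) • v) i
      ring
  rw [h6]
  have h7 : ∀ w : E m, ‖(cn 0 w : E (m + 1))‖ = ‖w‖ := by
    intro w
    have h8 := norm_cn_sq 0 w
    rw [zero_pow two_ne_zero, zero_add] at h8
    exact (sq_eq_sq₀ (norm_nonneg _) (norm_nonneg _)).1 h8
  rw [h7]
  exact h5

section

variable {m : ℕ} {X Y : Type} [TopologicalSpace X] [ChartedSpace (E m) X] [IsManifold (𝓡 m) ∞ X]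
  [TopologicalSpace Y] [ChartedSpace (E m) Y] [IsManifold (𝓡 m) ∞ Y]

theorem ld_un (p : Pr X) : IsLocalDiffeomorphAt (𝓡 (m + 1)) ((𝓘(ℝ, ℝ)).prod (𝓡 m)) ∞
    (un : Pr X → ℝ × X) p :=
  ⟨{ toFun := un
     invFun := mk
     source := univ
     target := univ
     map_source' := fun _ _ => mem_univ _
     map_target' := fun _ _ => mem_univ _
     left_inv' := fun _ _ => rfl
     right_inv' := fun _ _ => rfl
     open_source := isOpen_univ
     open_target := isOpen_univ
     contMDiffOn_toFun := smooth_un.contMDiffOn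
     contMDiffOn_invFun := smooth_mk.contMDiffOn }, mem_univ _, fun _ _ => rfl⟩

theorem ld_mk (p : ℝ × X) : IsLocalDiffeomorphAt ((𝓘(ℝ, ℝ)).prod (𝓡 m)) (𝓡 (m + 1)) ∞
    (mk : ℝ × X → Pr X) p :=
  ⟨{ toFun := mk
     invFun := un
     source := univ
     target := univ
     map_source' := fun _ _ => mem_univ _
     map_target' := fun _ _ => mem_univ _
     left_inv' := fun _ _ => rfl
     right_inv' := fun _ _ => rfl
     open_source := isOpen_univ
     open_target := isOpen_univ
     contMDiffOn_toFun := smooth_mk.contMDiffOn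
     contMDiffOn_invFun := smooth_un.contMDiffOn }, mem_univ _, fun _ _ => rfl⟩

theorem LD_lft_of {f : ℝ × X → Y} {q : ℝ × X}
    (h : IsLocalDiffeomorphAt ((𝓘(ℝ, ℝ)).prod (𝓡 m)) ((𝓘(ℝ, ℝ)).prod (𝓡 m)) ∞
      (fun q : ℝ × X => (q.1, f q)) q) : LD (m + 1) (lft f) (mk q) := by
  have h1 : IsLocalDiffeomorphAt (𝓡 (m + 1)) ((𝓘(ℝ, ℝ)).prod (𝓡 m)) ∞
      ((fun q : ℝ × X => (q.1, f q)) ∘ un) (mk q) := IsLocalDiffeomorphAt.comp (hf := ld_un (m := m) (mk q)) (hg := h)
  exact IsLocalDiffeomorphAt.comp (hf := h1) (hg := ld_mk (m := m) (X := Y) _)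

end

end Pool.Agent.K7.H28.AF
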