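import Pool.Agent.K7.H28.AF.Class
import Pool.Agent.Y954.SH.MollS

/-!
# One smoothing step for maps which are asymptotically affine at small scales
-/

set_option autoImplicit false

open Set Filter Topology Metric Function MeasureTheory
open scoped Manifold ContDiff

noncomputable section

namespace Pool.Agent.K7.H28.AF

open Pool.Agent.Y522 Pool.Agent.Y207.SH3

/-- uniform scales on compact sets -/
theorem uniform_scale {n : ℕ} {G : E n → E n} {K : Set (E n)} (hK : IsCompact K)
    (hG : ∀ z ∈ K, AAt n G z) (ε : ℝ) (hε : 0 < ε) : ∃ r : ℝ, 0 < r ∧ AffOn n G K ε r := by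
  refine hK.induction_on (p := fun s => ∃ r : ℝ, 0 < r ∧ AffOn n G s ε r) ?_ ?_ ?_ ?_
  · exact ⟨1, one_pos, fun p hp => absurd hp (notMem_empty p)⟩
  · rintro s t hst ⟨r, hr, h⟩
    exact ⟨r, hr, h.mono hst le_rfl le_rfl⟩
  · rintro s t ⟨r, hr, h⟩ ⟨r', hr', h'⟩
    refine ⟨min r r', lt_min hr hr', fun p hp δ hδ hδr => ?_⟩
    rcases hp with hp | hp
    · exact h p hp δ hδ (hδr.trans (min_le_left _ _))
    · exact h' p hp δ hδ (hδr.trans (min_le_right _ _))
  · intro z hz
    obtain ⟨r, hr, h⟩ := hG z hz ε hε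
    exact ⟨closedBall z r, mem_nhdsWithin_of_mem_nhds (closedBall_mem_nhds z hr), r, hr, h⟩

theorem astep (n : ℕ) (X : Type) [TopologicalSpace X] [T2Space X] [ChartedSpace (E n) X]
    (F : X → E n) (W : Set X) (A : E n → X) (e : ℝ) (hWo : IsOpen W) (hF : ContinuousOn F W)
    (hAi : InjOn A (closedBall 0 2)) (hAd : ∀ z ∈ closedBall (0 : E n) 2, LD n A z)
    (hAW : ∀ z ∈ closedBall (0 : E n) 2, A z ∈ W) (he : 0 < e)
    (hx : ∀ x ∈ W, LD n F x ∨ AAE n F x) :
    ∃ F' : X → E n, ContinuousOn F' W ∧ (∀ p, p ∉ A '' closedBall 0 1 → F' p = F p) ∧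
      (∀ p, ‖F' p - F p‖ ≤ e) ∧ (∀ p, LD n F p → LD n F' p) ∧
      (∀ z, ‖z‖ ≤ 1 / 2 → LD n F' (A z)) ∧ (∀ x ∈ W, LD n F' x ∨ AAE n F' x) ∧
      ∀ (V : Type) [NormedAddCommGroup V] [NormedSpace ℝ V] [CompleteSpace V]
        (Λ a : E n →L[ℝ] V) (b : V), (∀ z ∈ closedBall (0 : E n) 2, Λ (F (A z)) = a z + b) →
        ∀ x, Λ (F' x) = Λ (F x) := by
  -- the map in the chart
  obtain ⟨G, hGd⟩ : ∃ G : E n → E n, G = fun z => F (A z) := ⟨_, rfl⟩
  have hG : ContinuousOn G (closedBall 0 2) := by
    intro z hz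
    rw [hGd]
    have h1 : ContinuousAt F (A z) := hF.continuousAt (hWo.mem_nhds (hAW z hz))
    exact (h1.comp (hAd z hz).continuousAt).continuousWithinAt
  have hGA : ∀ z ∈ closedBall (0 : E n) 2, AAt n G z := by
    intro z hz
    rw [hGd]
    exact AAE.chart (hAd z hz) (hx _ (hAW z hz))
  obtain ⟨ε₀, hε₀, hLD0⟩ := moll_LD n
  obtain ⟨r₀, hr₀, hU⟩ := uniform_scale (isCompact_closedBall (0 : E n) 2) hGA ε₀ hε₀
  obtain ⟨δ', hδ', hδG⟩ : ∃ δ' : ℝ, 0 < δ' ∧ ∀ x ∈ closedBall (0 : E n) 2,
      ∀ y ∈ closedBall (0 : E n) 2, dist x y < δ' → dist (G x) (G y) < e := by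
    have hu := (isCompact_closedBall (0 : E n) 2).uniformContinuousOn_of_continuous hG
    rw [Metric.uniformContinuousOn_iff] at hu
    exact hu e he
  -- the bump function
  obtain ⟨χ, hχ⟩ : ∃ χ : E n → ℝ, χ = fun z => bmp n z := ⟨_, rfl⟩
  have hχs : ContDiff ℝ ∞ χ := by
    rw [hχ]
    exact (bmp n).contDiff
  have hχ0 : ∀ z, 0 ≤ χ z := by
    intro z
    rw [hχ]
    exact (bmp n).nonneg
  have hχ1 : ∀ z, χ z ≤ 1 := by
    intro z
    rw [hχ]
    exact (bmp n).le_one
  have hχz : ∀ z, 1 ≤ ‖z‖ → χ z = 0 := by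
    intro z hz
    rw [hχ]
    exact (bmp n).zero_of_le_dist (by rw [dist_zero_right]; exact hz)
  have hχp : ∀ z, ‖z‖ < 1 → 0 < χ z := by
    intro z hz
    rw [hχ]
    exact (bmp n).pos_of_mem_ball (by rw [mem_ball_zero_iff]; exact hz)
  obtain ⟨K, hK⟩ : ∃ K : NNReal, LipschitzWith K χ := by
    refine hχs.lipschitzWith_of_hasCompactSupport ?_ (by simp)
    rw [hχ]
    exact (bmp n).hasCompactSupport
  have hKp : (0 : ℝ) < K + 1 := by
    have := K.coe_nonneg
    linarith
  obtain ⟨ε, hεpos, hε4, hεK, hεr, hεδ⟩ : ∃ ε : ℝ, 0 < ε ∧ ε ≤ 1 / 4 ∧ ε * K ≤ 1 / 2 ∧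
      3 * ε ≤ r₀ ∧ ε < δ' := by
    obtain ⟨e1, he1, he2, he3⟩ : ∃ e1 : ℝ, 0 < e1 ∧ 3 * e1 ≤ r₀ ∧ e1 < δ' :=
      ⟨min (r₀ / 3) (δ' / 2), lt_min (by linarith) (by linarith), by
        have := min_le_left (r₀ / 3) (δ' / 2)
        linarith, (min_le_right _ _).trans_lt (by linarith)⟩
    refine ⟨min e1 (min (1 / 4) (1 / 2 / (K + 1))),
      lt_min he1 (lt_min (by norm_num) (div_pos (by norm_num) hKp)),
      (min_le_right _ _).trans (min_le_left _ _), ?_, ?_, (min_le_left _ _).trans_lt he3⟩
    · have h1 : min e1 (min (1 / 4) (1 / 2 / (K + 1))) ≤ 1 / 2 / ((K : ℝ) + 1) :=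
        (min_le_right _ _).trans (min_le_right _ _)
      calc min e1 (min (1 / 4) (1 / 2 / (K + 1))) * (K : ℝ)
          ≤ 1 / 2 / (K + 1) * K := mul_le_mul_of_nonneg_right h1 K.coe_nonneg
        _ ≤ 1 / 2 / (K + 1) * (K + 1) := by
            apply mul_le_mul_of_nonneg_left (by linarith)
            exact (div_pos (by norm_num) hKp).le
        _ = 1 / 2 := div_mul_cancel₀ _ hKp.ne'
    · have := min_le_left e1 (min (1 / 4) (1 / 2 / ((K : ℝ) + 1)))
      linarith
  obtain ⟨c, hc⟩ : ∃ c : E n → ℝ, c = fun z => ε * χ z := ⟨_, rfl⟩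
  have hcs : ContDiff ℝ ∞ c := by
    rw [hc]
    exact contDiff_const.mul hχs
  have hc0 : ∀ z, 0 ≤ c z := by
    intro z
    rw [hc]
    exact mul_nonneg hεpos.le (hχ0 z)
  have hcε : ∀ z, c z ≤ ε := by
    intro z
    rw [hc]
    calc ε * χ z ≤ ε * 1 := mul_le_mul_of_nonneg_left (hχ1 z) hεpos.le
      _ = ε := mul_one ε
  have hc4 : ∀ z, c z ≤ 1 / 4 := fun z => (hcε z).trans hε4
  have hcz : ∀ z, 1 ≤ ‖z‖ → c z = 0 := by
    intro z hz
    rw [hc]
    change ε * χ z = 0
    rw [hχz z hz, mul_zero]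
  have hc1 : ∀ z, 1 < ‖z‖ → c z = 0 := fun z hz => hcz z hz.le
  have hcp : ∀ z, ‖z‖ < 1 → 0 < c z := by
    intro z hz
    rw [hc]
    exact mul_pos hεpos (hχp z hz)
  have hcL : ∀ y z, |c y - c z| ≤ 1 / 2 * ‖y - z‖ := by
    intro y z
    rw [hc]
    change |ε * χ y - ε * χ z| ≤ _
    rw [← mul_sub, abs_mul, abs_of_pos hεpos]
    have h1 : |χ y - χ z| ≤ K * ‖y - z‖ := by
      have h2 := hK.dist_le_mul y z
      rwa [Real.dist_eq, dist_eq_norm] at h2
    calc ε * |χ y - χ z| ≤ ε * (K * ‖y - z‖) := mul_le_mul_of_nonneg_left h1 hεpos.le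
      _ = (ε * K) * ‖y - z‖ := by ring
      _ ≤ 1 / 2 * ‖y - z‖ := mul_le_mul_of_nonneg_right hεK (norm_nonneg _)
  obtain ⟨hS1, hS2, hS3, hS4⟩ := Pool.Agent.Y954.SH.mollS n G c hG hcs hc0 hc4 hc1
  have hin : ∀ z : E n, ‖z‖ ≤ 1 → ∀ s : E n, ‖s‖ ≤ 1 → ‖z + c z • s‖ ≤ 3 / 2 := by
    intro z hz s hs
    calc ‖z + c z • s‖ ≤ ‖z‖ + ‖c z • s‖ := norm_add_le _ _
      _ = ‖z‖ + c z * ‖s‖ := by rw [norm_smul, Real.norm_of_nonneg (hc0 z)]
      _ ≤ 1 + 1 / 4 * 1 := by
          apply add_le_add hz
          exact mul_le_mul (hc4 z) hs (norm_nonneg _) (by norm_num)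
      _ ≤ 3 / 2 := by norm_num
  have hpos : ∀ z, 0 < c z → LD n (Moll n G c) z := by
    intro z hz
    have hz1 : ‖z‖ ≤ 1 := by
      by_contra h
      rw [hc1 z (not_le.1 h)] at hz
      exact lt_irrefl _ hz
    have hz2 : z ∈ closedBall (0 : E n) 2 := by
      rw [mem_closedBall_zero_iff]
      linarith
    obtain ⟨L, hL⟩ := hU z hz2 (3 * c z) (by linarith) (by linarith [hcε z])
    refine hLD0 G c z L hz (hG.mono ?_) (fun z' => hcL z' z) hL ?_
    · intro y hy
      rw [mem_closedBall, dist_eq_norm] at hy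
      rw [mem_closedBall_zero_iff]
      have h3 : y = (y - z) + z := by abel
      rw [h3]
      refine (norm_add_le _ _).trans ?_
      have := hc4 z
      linarith
    · have h1 : ∀ᶠ y in 𝓝 z, 0 < c y :=
        hcs.continuous.continuousAt.eventually (lt_mem_nhds hz)
      filter_upwards [h1] with y hy
      exact hS3 y hy
  -- the new map
  have hMF : ∀ z : E n, ‖z‖ ≤ 2 → MF A c F (A z) = Moll n G c z := by
    intro z hz
    rw [hGd]
    exact MF_of hAi hc1 hz
  have hcl : IsClosed (A '' closedBall (0 : E n) 1) := by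
    apply IsCompact.isClosed
    apply (isCompact_closedBall (0 : E n) 1).image_of_continuousOn
    intro z hz
    exact (hAd z (closedBall_subset_closedBall (by norm_num) hz)).continuousAt.continuousWithinAt
  have hloc : ∀ z : E n, ‖z‖ ≤ 1 → ∃ p : X → E n, LD n p (A z) ∧ p (A z) = z ∧
      MF A c F =ᶠ[𝓝 (A z)] fun w => Moll n G c (p w) := by
    intro z hz
    obtain ⟨p, hp1, hp2, hp3, hp4⟩ :=
      (hAd z (by rw [mem_closedBall_zero_iff]; linarith)).exists_inverse
    refine ⟨p, hp1, hp2, ?_⟩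
    have h1 : ∀ᶠ w in 𝓝 (A z), ‖p w‖ < 2 := by
      refine hp1.continuousAt.norm.eventually (p := fun r : ℝ => r < 2) ?_
      change ∀ᶠ y in 𝓝 ‖p (A z)‖, y < 2
      rw [hp2]
      exact gt_mem_nhds (by linarith)
    filter_upwards [h1, hp4] with w hw1 hw2
    rw [← hMF (p w) hw1.le, hw2]
  have hoff : ∀ x, x ∉ A '' closedBall (0 : E n) 1 → MF A c F =ᶠ[𝓝 x] F := by
    intro x hx
    filter_upwards [hcl.isOpen_compl.mem_nhds hx] with y hy
    exact MF_off hy
  have hLD : ∀ z : E n, ‖z‖ ≤ 1 → LD n (Moll n G c) z → LD n (MF A c F) (A z) := by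
    intro z hz h
    obtain ⟨p, hp1, hp2, hp3⟩ := hloc z hz
    refine LD.congr ?_ hp3
    refine LD.comp_fun ?_ hp1
    rw [hp2]
    exact h
  refine ⟨MF A c F, ?_, ?_, ?_, ?_, ?_, ?_, ?_⟩
  · -- continuity
    intro x hxW
    refine ContinuousAt.continuousWithinAt ?_
    by_cases hx : x ∈ A '' closedBall (0 : E n) 1
    · obtain ⟨z, hz, rfl⟩ := hx
      rw [mem_closedBall_zero_iff] at hz
      obtain ⟨p, hp1, hp2, hp3⟩ := hloc z hz
      rw [continuousAt_congr hp3]
      have h1 : ContinuousAt (Moll n G c) (p (A z)) := by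
        rw [hp2]
        apply hS1.continuousAt
        refine mem_of_superset (ball_mem_nhds z (ε := 1 / 2) (by norm_num)) ?_
        intro y hy
        rw [mem_ball, dist_eq_norm] at hy
        rw [mem_closedBall_zero_iff]
        have h2 := norm_le_norm_add_norm_sub' y z
        linarith
      exact h1.comp hp1.continuousAt
    · rw [continuousAt_congr (hoff x hx)]
      exact hF.continuousAt (hWo.mem_nhds hxW)
  · intro p hp
    exact MF_off hp
  · intro x
    by_cases hx : x ∈ A '' closedBall (0 : E n) 1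
    · obtain ⟨z, hz, rfl⟩ := hx
      rw [mem_closedBall_zero_iff] at hz
      rw [hMF z (by linarith)]
      have hFG : F (A z) = G z := by rw [hGd]
      rw [hFG]
      unfold Moll
      apply Pool.Agent.Y25.SH.norm_mean_sub_le
      · refine hG.comp (by fun_prop) ?_
        intro s hs
        rw [mem_closedBall_zero_iff] at hs ⊢
        exact (hin z hz s hs).trans (by norm_num)
      · intro s hs
        have h1 := hδG (z + c z • s) (by
          rw [mem_closedBall_zero_iff]
          exact (hin z hz s hs).trans (by norm_num)) z (by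
          rw [mem_closedBall_zero_iff]
          linarith) (by
          rw [dist_eq_norm, add_sub_cancel_left, norm_smul, Real.norm_of_nonneg (hc0 z)]
          calc c z * ‖s‖ ≤ ε * 1 := mul_le_mul (hcε z) hs (norm_nonneg _) hεpos.le
            _ < δ' := by linarith)
        rw [dist_eq_norm] at h1
        exact h1.le
    · rw [MF_off hx, sub_self, norm_zero]
      exact he.le
  · intro x hx
    by_cases hxA : x ∈ A '' closedBall (0 : E n) 1
    · obtain ⟨z, hz, rfl⟩ := hxA
      rw [mem_closedBall_zero_iff] at hz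
      apply hLD z hz
      rcases (hc0 z).lt_or_eq with h | h
      · exact hpos z h
      · have hGz : LD n G z := by
          rw [hGd]
          exact LD.comp_fun hx (hAd z (by rw [mem_closedBall_zero_iff]; linarith))
        have hev : ∀ᶠ y in 𝓝 z, ContDiffAt ℝ ∞ G y := by
          filter_upwards [hGz.eventually] with y hy
          exact hy.contDiffAt
        obtain ⟨h1, h2⟩ := hS4 z hz h.symm hev
        obtain ⟨e, he⟩ := hGz.exists_equiv
        refine LD_of_contDiffAt ?_ e ?_
        · filter_upwards [eventually_eventually_nhds.2 hev] with y hy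
          rcases (hc0 y).lt_or_eq with h3 | h3
          · exact hS3 y h3
          · rcases le_or_gt ‖y‖ 1 with h4 | h4
            · exact (hS4 y h4 h3.symm hy).1
            · refine hy.self_of_nhds.congr_of_eventuallyEq ?_
              have h5 : ∀ᶠ w in 𝓝 y, 1 < ‖w‖ := continuous_norm.continuousAt.eventually
                (lt_mem_nhds h4)
              filter_upwards [h5] with w hw
              exact hS2 w (hc1 w hw)
        · rw [← he.fderiv, ← h2]
          exact (h1.differentiableAt (by simp)).hasFDerivAt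
    · exact LD.congr hx (hoff x hxA)
  · intro z hz
    exact hLD z (by linarith) (hpos z (hcp z (by linarith)))
  · intro x hxW
    by_cases hxA : x ∈ A '' closedBall (0 : E n) 1
    · obtain ⟨z, hz, rfl⟩ := hxA
      rw [mem_closedBall_zero_iff] at hz
      have hz2 : z ∈ closedBall (0 : E n) 2 := by
        rw [mem_closedBall_zero_iff]
        linarith
      rcases (hc0 z).lt_or_eq with h | h
      · exact Or.inl (hLD z hz (hpos z h))
      · right
        refine AAE.of_chart (hAd z hz2) ?_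
        refine ((hGA z hz2).moll hG hc0 hc4 hc1 hcL hz h.symm).congr ?_
        have h1 : ∀ᶠ y in 𝓝 z, ‖y‖ < 2 :=
          continuous_norm.continuousAt.eventually (gt_mem_nhds (by linarith))
        filter_upwards [h1] with y hy
        exact hMF y hy.le
    · rcases hx x hxW with h | h
      · exact Or.inl (LD.congr h (hoff x hxA))
      · exact Or.inr (AAE.congr h (hoff x hxA))
  · intro V _ _ _ Λ a b hΛ x
    by_cases hxA : x ∈ A '' closedBall (0 : E n) 1
    · obtain ⟨z, hz, rfl⟩ := hxA
      rw [mem_closedBall_zero_iff] at hz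
      rw [hMF z (by linarith)]
      have hz2 : z ∈ closedBall (0 : E n) 2 := by
        rw [mem_closedBall_zero_iff]
        linarith
      have hcont : ContinuousOn (fun s : E n => G (z + c z • s)) (closedBall 0 1) := by
        refine hG.comp (by fun_prop) ?_
        intro s hs
        rw [mem_closedBall_zero_iff] at hs ⊢
        exact (hin z hz s hs).trans (by norm_num)
      have i1 := kr_smul_integrable hcont
      unfold Moll
      rw [← ContinuousLinearMap.integral_comp_comm Λ i1]
      have h1 : ∀ s : E n, Λ (kr n s • G (z + c z • s)) =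
          kr n s • (a z + b) + kr n s • (c z • a s) := by
        intro s
        by_cases hs : kr n s = 0
        · rw [hs, zero_smul, zero_smul, zero_smul, map_zero, add_zero]
        · rw [map_smul, ← smul_add]
          congr 1
          have h2 := hΛ (z + c z • s) (by
            rw [mem_closedBall_zero_iff]
            exact (hin z hz s (kr_lt hs).le).trans (by norm_num))
          rw [hGd]
          change Λ (F (A (z + c z • s))) = _
          rw [h2, map_add, map_smul]
          abel
      simp only [h1]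
      have i2 : Integrable (fun s : E n => kr n s • (a z + b)) := kr_integrable.smul_const _
      have i3 : Integrable (fun s : E n => kr n s • (c z • a s)) :=
        kr_smul_integrable (by fun_prop)
      rw [integral_add i2 i3, integral_smul_const, kr_int, one_smul]
      have i4 : Integrable (fun s : E n => kr n s • s) :=
        kr_smul_integrable (f := fun s : E n => s) (by fun_prop)
      have h3 : ∫ s, kr n s • (c z • a s) = (0 : V) := by
        have h4 : ∀ s : E n, kr n s • (c z • a s) = (c z • a) (kr n s • s) := by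
          intro s
          rw [map_smul]
          rfl
        simp only [h4]
        rw [ContinuousLinearMap.integral_comp_comm (c z • a) i4, kr_first, map_zero]
      rw [h3, add_zero, hΛ z hz2]
    · rw [MF_off hxA]

end Pool.Agent.K7.H28.AF
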