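import Pool.Agent.K7.H28.AF.EBasic
import Pool.Agent.K7.H28.AF.Step

/-!
# One smoothing step for maps which are almost affine at small scales, with a fixed error
-/

set_option autoImplicit false

open Set Filter Topology Metric Function MeasureTheory
open scoped Manifold ContDiff

noncomputable section

namespace Pool.Agent.K7.H28.AF

open Pool.Agent.Y522 Pool.Agent.Y207.SH3

/-- The mollification of a map which is almost affine at small scales is so at the points
where the radius vanishes, with a larger error. -/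
theorem EA.moll (n : ℕ) : ∃ C₁ : ℝ, 1 ≤ C₁ ∧ ∀ (ε' : ℝ) (G : E n → E n) (c : E n → ℝ) (z₀ : E n),
    0 < ε' → EA n ε' G z₀ → ContinuousOn G (closedBall 0 2) → (∀ z, 0 ≤ c z) →
    (∀ z, c z ≤ 1 / 4) → (∀ z, 1 < ‖z‖ → c z = 0) → (∀ y z, |c y - c z| ≤ 1 / 2 * ‖y - z‖) →
    ‖z₀‖ ≤ 1 → c z₀ = 0 → EA n (C₁ * ε') (Moll n G c) z₀ := by
  obtain ⟨C, hC0, hC⟩ := moll_aff n
  refine ⟨6 + C, by linarith, fun ε' G c z₀ hε' H hG h0 h1 h2 hL hz₀ hcz => ?_⟩
  obtain ⟨ε, hεd⟩ : ∃ ε : ℝ, ε = (6 + C) * ε' := ⟨_, rfl⟩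
  rw [← hεd]
  have hε'1 : 6 * ε' ≤ ε := by rw [hεd]; nlinarith
  have hε'2 : C * ε' ≤ ε := by rw [hεd]; nlinarith
  obtain ⟨r', hr', hA⟩ := H
  obtain ⟨r, hr, hr1, hr2⟩ : ∃ r : ℝ, 0 < r ∧ 3 * r ≤ r' ∧ r ≤ 1 / 8 :=
    ⟨min (r' / 3) (1 / 8), lt_min (by linarith) (by norm_num), by
      have := min_le_left (r' / 3) (1 / 8)
      linarith, min_le_right _ _⟩
  refine ⟨r, hr, fun p hp δ hδ hδr => ?_⟩
  have hp' : ‖p - z₀‖ ≤ r := by
    rw [mem_closedBall, dist_eq_norm] at hp
    exact hp
  have hpn : ‖p‖ ≤ 1 + r := by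
    have h3 : p = z₀ + (p - z₀) := by abel
    rw [h3]
    exact (norm_add_le _ _).trans (add_le_add hz₀ hp')
  have hcp : c p ≤ 1 / 2 * r := by
    have h3 := hL p z₀
    rw [hcz, sub_zero] at h3
    exact (le_abs_self _).trans (h3.trans (by linarith))
  have hpr' : p ∈ closedBall z₀ r' := closedBall_subset_closedBall (by linarith) hp
  rcases le_or_gt (c p) δ with hcδ | hcδ
  · -- the scale is larger than the radius
    obtain ⟨L, hL1⟩ := hA p hpr' (3 * δ) (by linarith) (by linarith)
    have hball : ∀ q : E n, ‖q - p‖ ≤ δ → ∀ s : E n, ‖s‖ ≤ 1 → ‖(q + c q • s) - p‖ ≤ 3 * δ := by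
      intro q hq s hs
      have h3 : c q ≤ 2 * δ := by
        have h4 := (le_abs_self _).trans (hL q p)
        linarith
      have h4 : q + c q • s - p = (q - p) + c q • s := by abel
      rw [h4]
      refine (norm_add_le _ _).trans ?_
      rw [norm_smul, Real.norm_of_nonneg (h0 q)]
      have h5 : c q * ‖s‖ ≤ c q * 1 := mul_le_mul_of_nonneg_left hs (h0 q)
      linarith
    have hbig : ∀ y : E n, ‖y - p‖ ≤ 3 * δ → y ∈ closedBall (0 : E n) 2 := by
      intro y hy
      rw [mem_closedBall_zero_iff]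
      have h3 : y = (y - p) + p := by abel
      rw [h3]
      refine (norm_add_le _ _).trans ?_
      linarith
    have key : ∀ q : E n, ‖q - p‖ ≤ δ →
        ‖(L.symm (Moll n G c q) - L.symm (G p)) - (q - p)‖ ≤ 3 * ε' * δ := by
      intro q hq
      have c1 : ContinuousOn (fun s : E n => G (q + c q • s)) (closedBall 0 1) := by
        refine hG.comp (by fun_prop) ?_
        intro s hs
        rw [mem_closedBall_zero_iff] at hs
        exact hbig _ (hball q hq s hs)
      have c2 : ContinuousOn (fun s : E n => L.symm (G (q + c q • s)) - L.symm (G p) - c q • s)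
          (closedBall 0 1) :=
        ((L.symm.continuous.comp_continuousOn c1).sub continuousOn_const).sub (by fun_prop)
      have h3 := Pool.Agent.Y25.SH.norm_mean_sub_le (v := q - p) (r := 3 * ε' * δ) c2 (by
        intro s hs
        have h4 := hL1 _ (hball q hq s hs)
        have h5 : L.symm (G (q + c q • s)) - L.symm (G p) - c q • s - (q - p) =
            L.symm (G (q + c q • s) - G p) - (q + c q • s - p) := by
          have h6 : L.symm (G (q + c q • s) - G p) = L.symm (G (q + c q • s)) - L.symm (G p) :=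
            map_sub _ _ _
          rw [h6]
          abel
        rw [h5]
        refine h4.trans (le_of_eq ?_)
        ring)
      have h4 : ∫ s, kr n s • (L.symm (G (q + c q • s)) - L.symm (G p) - c q • s) =
          L.symm (Moll n G c q) - L.symm (G p) := by
        have i1 := kr_smul_integrable c1
        have i2 : Integrable (fun s : E n => L.symm (kr n s • G (q + c q • s))) :=
          (L.symm : E n →L[ℝ] E n).integrable_comp i1
        have i3 : Integrable (fun s : E n => kr n s • L.symm (G p)) := kr_integrable.smul_const _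
        have i4 : Integrable (fun s : E n => kr n s • (c q • s)) :=
          kr_smul_integrable (by fun_prop)
        have h5 : ∀ s : E n, kr n s • (L.symm (G (q + c q • s)) - L.symm (G p) - c q • s) =
            (L.symm (kr n s • G (q + c q • s)) - kr n s • L.symm (G p)) - kr n s • (c q • s) := by
          intro s
          rw [map_smul, smul_sub, smul_sub]
        simp only [h5]
        have j1 : ∫ s, (L.symm (kr n s • G (q + c q • s)) - kr n s • L.symm (G p)) -
            kr n s • (c q • s) = (∫ s, (L.symm (kr n s • G (q + c q • s)) -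
              kr n s • L.symm (G p))) - ∫ s, kr n s • (c q • s) := integral_sub (i2.sub i3) i4
        have j2 : ∫ s, (L.symm (kr n s • G (q + c q • s)) - kr n s • L.symm (G p)) =
            (∫ s, L.symm (kr n s • G (q + c q • s))) - ∫ s, kr n s • L.symm (G p) :=
          integral_sub i2 i3
        have j3 : ∫ s, kr n s • (c q • s) = (0 : E n) := by
          have h6 : ∀ s : E n, kr n s • (c q • s) = c q • (kr n s • s) := fun s => smul_comm _ _ _
          simp only [h6]
          rw [integral_smul, kr_first, smul_zero]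
        have j4 : ∫ s, L.symm (kr n s • G (q + c q • s)) = L.symm (Moll n G c q) :=
          (L.symm : E n →L[ℝ] E n).integral_comp_comm i1
        rw [j1, j2, j3, j4, sub_zero, integral_smul_const, kr_int, one_smul]
      rw [h4] at h3
      exact h3
    refine ⟨L, fun q hq => ?_⟩
    have h3 := key q hq
    have h4 := key p (by rw [sub_self, norm_zero]; exact hδ.le)
    have h5 : L.symm (Moll n G c q - Moll n G c p) - (q - p) =
        ((L.symm (Moll n G c q) - L.symm (G p)) - (q - p)) -
          ((L.symm (Moll n G c p) - L.symm (G p)) - (p - p)) := by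
      have h6 : L.symm (Moll n G c q - Moll n G c p) =
        L.symm (Moll n G c q) - L.symm (Moll n G c p) := map_sub _ _ _
      rw [h6]
      abel
    rw [h5]
    refine (norm_sub_le _ _).trans ?_
    calc _ ≤ 3 * ε' * δ + 3 * ε' * δ := add_le_add h3 h4
      _ = (6 * ε') * δ := by ring
      _ ≤ ε * δ := mul_le_mul_of_nonneg_right hε'1 hδ.le
  · -- the scale is smaller than the radius
    have hcp0 : 0 < c p := hδ.trans hcδ
    have hp1 : ‖p‖ ≤ 1 := by
      by_contra h
      rw [h2 p (not_le.1 h)] at hcp0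
      exact lt_irrefl _ hcp0
    obtain ⟨L, hL1⟩ := hA p hpr' (3 * c p) (by linarith) (by linarith)
    refine ⟨L, fun q hq => ?_⟩
    have h3 := hC G c p q L ε' hcp0 hε'.le (hG.mono (by
      intro y hy
      rw [mem_closedBall, dist_eq_norm] at hy
      rw [mem_closedBall_zero_iff]
      have h3 : y = (y - p) + p := by abel
      rw [h3]
      refine (norm_add_le _ _).trans ?_
      have := h1 p
      linarith)) (hL q p) (hq.trans hcδ.le) hL1
    refine h3.trans ?_
    calc C * ε' * ‖q - p‖ ≤ C * ε' * δ := mul_le_mul_of_nonneg_left hq (by positivity)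
      _ ≤ ε * δ := mul_le_mul_of_nonneg_right hε'2 hδ.le

theorem estep (n : ℕ) : ∃ (ε₀ C₁ : ℝ), 0 < ε₀ ∧ 1 ≤ C₁ ∧ ∀ (X : Type) [TopologicalSpace X]
    [T2Space X] [ChartedSpace (E n) X]
    (F : X → E n) (W : Set X) (A : E n → X) (e ε' : ℝ), IsOpen W → ContinuousOn F W →
    InjOn A (closedBall 0 2) → (∀ z ∈ closedBall (0 : E n) 2, LD n A z) →
    (∀ z ∈ closedBall (0 : E n) 2, A z ∈ W) → 0 < e → 0 < ε' → ε' ≤ ε₀ →
    (∀ z ∈ closedBall (0 : E n) 2, EA n ε' (fun p => F (A p)) z) →
    ∃ F' : X → E n, ContinuousOn F' W ∧ (∀ p, p ∉ A '' closedBall 0 1 → F' p = F p) ∧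
      (∀ p, ‖F' p - F p‖ ≤ e) ∧ (∀ p, LD n F p → LD n F' p) ∧
      (∀ z, ‖z‖ ≤ 1 / 2 → LD n F' (A z)) ∧
      (∀ z, ‖z‖ ≤ 1 → LD n F' (A z) ∨ EA n (C₁ * ε') (fun p => F' (A p)) z) ∧
      ∀ (V : Type) [NormedAddCommGroup V] [NormedSpace ℝ V] [CompleteSpace V]
        (Λ a : E n →L[ℝ] V) (b : V), (∀ z ∈ closedBall (0 : E n) 2, Λ (F (A z)) = a z + b) →
        ∀ x, Λ (F' x) = Λ (F x) := by
  obtain ⟨ε₀, hε₀, hLD0⟩ := moll_LD n
  obtain ⟨C₁, hC₁, hmoll⟩ := EA.moll n
  refine ⟨ε₀, C₁, hε₀, hC₁, ?_⟩
  intro X _ _ _ F W A e ε' hWo hF hAi hAd hAW he hε' hεε₀ hx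
  -- the map in the chart
  obtain ⟨G, hGd⟩ : ∃ G : E n → E n, G = fun z => F (A z) := ⟨_, rfl⟩
  have hG : ContinuousOn G (closedBall 0 2) := by
    intro z hz
    rw [hGd]
    have h1 : ContinuousAt F (A z) := hF.continuousAt (hWo.mem_nhds (hAW z hz))
    exact (h1.comp (hAd z hz).continuousAt).continuousWithinAt
  have hGA : ∀ z ∈ closedBall (0 : E n) 2, EA n ε' G z := by
    intro z hz
    rw [hGd]
    exact hx z hz
  obtain ⟨r₀, hr₀, hU'⟩ := EA.uniform (isCompact_closedBall (0 : E n) 2) hGA
  have hU := hU'.mono (Subset.refl _) hεε₀ (le_refl r₀)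
  obtain ⟨δ', hδ', hδG⟩ : ∃ δ' : ℝ, 0 < δ' ∧ ∀ x ∈ closedBall (0 : E n) 2,
      ∀ y ∈ closedBall (0 : E n) 2, dist x y < δ' → dist (G x) (G y) < e := by
    have hu := (isCompact_closedBall (0 : E n) 2).uniformContinuousOn_of_continuous hG
    rw [Metric.uniformContinuousOn_iff] at hu
    exact hu e he
  -- the bump function
  obtain ⟨χ, hχ⟩ : ∃ χ : E n → ℝ, χ = fun z => bmp n z := ⟨_, rfl⟩
  have hχs : ContDiff ℝ ∞ χ := by
    rw [hχ]
    exact (bmp n).contDiff
  have hχ0 : ∀ z, 0 ≤ χ z := by
    intro z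
    rw [hχ]
    exact (bmp n).nonneg
  have hχ1 : ∀ z, χ z ≤ 1 := by
    intro z
    rw [hχ]
    exact (bmp n).le_one
  have hχz : ∀ z, 1 ≤ ‖z‖ → χ z = 0 := by
    intro z hz
    rw [hχ]
    exact (bmp n).zero_of_le_dist (by rw [dist_zero_right]; exact hz)
  have hχp : ∀ z, ‖z‖ < 1 → 0 < χ z := by
    intro z hz
    rw [hχ]
    exact (bmp n).pos_of_mem_ball (by rw [mem_ball_zero_iff]; exact hz)
  obtain ⟨K, hK⟩ : ∃ K : NNReal, LipschitzWith K χ := by
    refine hχs.lipschitzWith_of_hasCompactSupport ?_ (by simp)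
    rw [hχ]
    exact (bmp n).hasCompactSupport
  have hKp : (0 : ℝ) < K + 1 := by
    have := K.coe_nonneg
    linarith
  obtain ⟨ε, hεpos, hε4, hεK, hεr, hεδ⟩ : ∃ ε : ℝ, 0 < ε ∧ ε ≤ 1 / 4 ∧ ε * K ≤ 1 / 2 ∧
      3 * ε ≤ r₀ ∧ ε < δ' := by
    obtain ⟨e1, he1, he2, he3⟩ : ∃ e1 : ℝ, 0 < e1 ∧ 3 * e1 ≤ r₀ ∧ e1 < δ' :=
      ⟨min (r₀ / 3) (δ' / 2), lt_min (by linarith) (by linarith), by
        have := min_le_left (r₀ / 3) (δ' / 2)
        linarith, (min_le_right _ _).trans_lt (by linarith)⟩
    refine ⟨min e1 (min (1 / 4) (1 / 2 / (K + 1))),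
      lt_min he1 (lt_min (by norm_num) (div_pos (by norm_num) hKp)),
      (min_le_right _ _).trans (min_le_left _ _), ?_, ?_, (min_le_left _ _).trans_lt he3⟩
    · have h1 : min e1 (min (1 / 4) (1 / 2 / (K + 1))) ≤ 1 / 2 / ((K : ℝ) + 1) :=
        (min_le_right _ _).trans (min_le_right _ _)
      calc min e1 (min (1 / 4) (1 / 2 / (K + 1))) * (K : ℝ)
          ≤ 1 / 2 / (K + 1) * K := mul_le_mul_of_nonneg_right h1 K.coe_nonneg
        _ ≤ 1 / 2 / (K + 1) * (K + 1) := by
            apply mul_le_mul_of_nonneg_left (by linarith)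
            exact (div_pos (by norm_num) hKp).le
        _ = 1 / 2 := div_mul_cancel₀ _ hKp.ne'
    · have := min_le_left e1 (min (1 / 4) (1 / 2 / ((K : ℝ) + 1)))
      linarith
  obtain ⟨c, hc⟩ : ∃ c : E n → ℝ, c = fun z => ε * χ z := ⟨_, rfl⟩
  have hcs : ContDiff ℝ ∞ c := by
    rw [hc]
    exact contDiff_const.mul hχs
  have hc0 : ∀ z, 0 ≤ c z := by
    intro z
    rw [hc]
    exact mul_nonneg hεpos.le (hχ0 z)
  have hcε : ∀ z, c z ≤ ε := by
    intro z
    rw [hc]
    calc ε * χ z ≤ ε * 1 := mul_le_mul_of_nonneg_left (hχ1 z) hεpos.le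
      _ = ε := mul_one ε
  have hc4 : ∀ z, c z ≤ 1 / 4 := fun z => (hcε z).trans hε4
  have hcz : ∀ z, 1 ≤ ‖z‖ → c z = 0 := by
    intro z hz
    rw [hc]
    change ε * χ z = 0
    rw [hχz z hz, mul_zero]
  have hc1 : ∀ z, 1 < ‖z‖ → c z = 0 := fun z hz => hcz z hz.le
  have hcp : ∀ z, ‖z‖ < 1 → 0 < c z := by
    intro z hz
    rw [hc]
    exact mul_pos hεpos (hχp z hz)
  have hcL : ∀ y z, |c y - c z| ≤ 1 / 2 * ‖y - z‖ := by
    intro y z
    rw [hc]
    change |ε * χ y - ε * χ z| ≤ _
    rw [← mul_sub, abs_mul, abs_of_pos hεpos]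
    have h1 : |χ y - χ z| ≤ K * ‖y - z‖ := by
      have h2 := hK.dist_le_mul y z
      rwa [Real.dist_eq, dist_eq_norm] at h2
    calc ε * |χ y - χ z| ≤ ε * (K * ‖y - z‖) := mul_le_mul_of_nonneg_left h1 hεpos.le
      _ = (ε * K) * ‖y - z‖ := by ring
      _ ≤ 1 / 2 * ‖y - z‖ := mul_le_mul_of_nonneg_right hεK (norm_nonneg _)
  obtain ⟨hS1, hS2, hS3, hS4⟩ := Pool.Agent.Y954.SH.mollS n G c hG hcs hc0 hc4 hc1
  have hin : ∀ z : E n, ‖z‖ ≤ 1 → ∀ s : E n, ‖s‖ ≤ 1 → ‖z + c z • s‖ ≤ 3 / 2 := by
    intro z hz s hs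
    calc ‖z + c z • s‖ ≤ ‖z‖ + ‖c z • s‖ := norm_add_le _ _
      _ = ‖z‖ + c z * ‖s‖ := by rw [norm_smul, Real.norm_of_nonneg (hc0 z)]
      _ ≤ 1 + 1 / 4 * 1 := by
          apply add_le_add hz
          exact mul_le_mul (hc4 z) hs (norm_nonneg _) (by norm_num)
      _ ≤ 3 / 2 := by norm_num
  have hpos : ∀ z, 0 < c z → LD n (Moll n G c) z := by
    intro z hz
    have hz1 : ‖z‖ ≤ 1 := by
      by_contra h
      rw [hc1 z (not_le.1 h)] at hz
      exact lt_irrefl _ hz
    have hz2 : z ∈ closedBall (0 : E n) 2 := by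
      rw [mem_closedBall_zero_iff]
      linarith
    obtain ⟨L, hL⟩ := hU z hz2 (3 * c z) (by linarith) (by linarith [hcε z])
    refine hLD0 G c z L hz (hG.mono ?_) (fun z' => hcL z' z) hL ?_
    · intro y hy
      rw [mem_closedBall, dist_eq_norm] at hy
      rw [mem_closedBall_zero_iff]
      have h3 : y = (y - z) + z := by abel
      rw [h3]
      refine (norm_add_le _ _).trans ?_
      have := hc4 z
      linarith
    · have h1 : ∀ᶠ y in 𝓝 z, 0 < c y :=
        hcs.continuous.continuousAt.eventually (lt_mem_nhds hz)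
      filter_upwards [h1] with y hy
      exact hS3 y hy
  -- the new map
  have hMF : ∀ z : E n, ‖z‖ ≤ 2 → MF A c F (A z) = Moll n G c z := by
    intro z hz
    rw [hGd]
    exact MF_of hAi hc1 hz
  have hcl : IsClosed (A '' closedBall (0 : E n) 1) := by
    apply IsCompact.isClosed
    apply (isCompact_closedBall (0 : E n) 1).image_of_continuousOn
    intro z hz
    exact (hAd z (closedBall_subset_closedBall (by norm_num) hz)).continuousAt.continuousWithinAt
  have hloc : ∀ z : E n, ‖z‖ ≤ 1 → ∃ p : X → E n, LD n p (A z) ∧ p (A z) = z ∧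
      MF A c F =ᶠ[𝓝 (A z)] fun w => Moll n G c (p w) := by
    intro z hz
    obtain ⟨p, hp1, hp2, hp3, hp4⟩ :=
      (hAd z (by rw [mem_closedBall_zero_iff]; linarith)).exists_inverse
    refine ⟨p, hp1, hp2, ?_⟩
    have h1 : ∀ᶠ w in 𝓝 (A z), ‖p w‖ < 2 := by
      refine hp1.continuousAt.norm.eventually (p := fun r : ℝ => r < 2) ?_
      change ∀ᶠ y in 𝓝 ‖p (A z)‖, y < 2
      rw [hp2]
      exact gt_mem_nhds (by linarith)
    filter_upwards [h1, hp4] with w hw1 hw2
    rw [← hMF (p w) hw1.le, hw2]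
  have hoff : ∀ x, x ∉ A '' closedBall (0 : E n) 1 → MF A c F =ᶠ[𝓝 x] F := by
    intro x hx
    filter_upwards [hcl.isOpen_compl.mem_nhds hx] with y hy
    exact MF_off hy
  have hLD : ∀ z : E n, ‖z‖ ≤ 1 → LD n (Moll n G c) z → LD n (MF A c F) (A z) := by
    intro z hz h
    obtain ⟨p, hp1, hp2, hp3⟩ := hloc z hz
    refine LD.congr ?_ hp3
    refine LD.comp_fun ?_ hp1
    rw [hp2]
    exact h
  refine ⟨MF A c F, ?_, ?_, ?_, ?_, ?_, ?_, ?_⟩
  · -- continuity
    intro x hxW
    refine ContinuousAt.continuousWithinAt ?_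
    by_cases hx : x ∈ A '' closedBall (0 : E n) 1
    · obtain ⟨z, hz, rfl⟩ := hx
      rw [mem_closedBall_zero_iff] at hz
      obtain ⟨p, hp1, hp2, hp3⟩ := hloc z hz
      rw [continuousAt_congr hp3]
      have h1 : ContinuousAt (Moll n G c) (p (A z)) := by
        rw [hp2]
        apply hS1.continuousAt
        refine mem_of_superset (ball_mem_nhds z (ε := 1 / 2) (by norm_num)) ?_
        intro y hy
        rw [mem_ball, dist_eq_norm] at hy
        rw [mem_closedBall_zero_iff]
        have h2 := norm_le_norm_add_norm_sub' y z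
        linarith
      exact h1.comp hp1.continuousAt
    · rw [continuousAt_congr (hoff x hx)]
      exact hF.continuousAt (hWo.mem_nhds hxW)
  · intro p hp
    exact MF_off hp
  · intro x
    by_cases hx : x ∈ A '' closedBall (0 : E n) 1
    · obtain ⟨z, hz, rfl⟩ := hx
      rw [mem_closedBall_zero_iff] at hz
      rw [hMF z (by linarith)]
      have hFG : F (A z) = G z := by rw [hGd]
      rw [hFG]
      unfold Moll
      apply Pool.Agent.Y25.SH.norm_mean_sub_le
      · refine hG.comp (by fun_prop) ?_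
        intro s hs
        rw [mem_closedBall_zero_iff] at hs ⊢
        exact (hin z hz s hs).trans (by norm_num)
      · intro s hs
        have h1 := hδG (z + c z • s) (by
          rw [mem_closedBall_zero_iff]
          exact (hin z hz s hs).trans (by norm_num)) z (by
          rw [mem_closedBall_zero_iff]
          linarith) (by
          rw [dist_eq_norm, add_sub_cancel_left, norm_smul, Real.norm_of_nonneg (hc0 z)]
          calc c z * ‖s‖ ≤ ε * 1 := mul_le_mul (hcε z) hs (norm_nonneg _) hεpos.le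
            _ < δ' := by linarith)
        rw [dist_eq_norm] at h1
        exact h1.le
    · rw [MF_off hx, sub_self, norm_zero]
      exact he.le
  · intro x hx
    by_cases hxA : x ∈ A '' closedBall (0 : E n) 1
    · obtain ⟨z, hz, rfl⟩ := hxA
      rw [mem_closedBall_zero_iff] at hz
      apply hLD z hz
      rcases (hc0 z).lt_or_eq with h | h
      · exact hpos z h
      · have hGz : LD n G z := by
          rw [hGd]
          exact LD.comp_fun hx (hAd z (by rw [mem_closedBall_zero_iff]; linarith))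
        have hev : ∀ᶠ y in 𝓝 z, ContDiffAt ℝ ∞ G y := by
          filter_upwards [hGz.eventually] with y hy
          exact hy.contDiffAt
        obtain ⟨h1, h2⟩ := hS4 z hz h.symm hev
        obtain ⟨e, he⟩ := hGz.exists_equiv
        refine LD_of_contDiffAt ?_ e ?_
        · filter_upwards [eventually_eventually_nhds.2 hev] with y hy
          rcases (hc0 y).lt_or_eq with h3 | h3
          · exact hS3 y h3
          · rcases le_or_gt ‖y‖ 1 with h4 | h4
            · exact (hS4 y h4 h3.symm hy).1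
            · refine hy.self_of_nhds.congr_of_eventuallyEq ?_
              have h5 : ∀ᶠ w in 𝓝 y, 1 < ‖w‖ := continuous_norm.continuousAt.eventually
                (lt_mem_nhds h4)
              filter_upwards [h5] with w hw
              exact hS2 w (hc1 w hw)
        · rw [← he.fderiv, ← h2]
          exact (h1.differentiableAt (by simp)).hasFDerivAt
    · exact LD.congr hx (hoff x hxA)
  · intro z hz
    exact hLD z (by linarith) (hpos z (hcp z (by linarith)))
  · intro z hz
    have hz2 : z ∈ closedBall (0 : E n) 2 := by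
      rw [mem_closedBall_zero_iff]
      linarith
    rcases (hc0 z).lt_or_eq with h | h
    · exact Or.inl (hLD z hz (hpos z h))
    · right
      refine (hmoll ε' G c z hε' (hGA z hz2) hG hc0 hc4 hc1 hcL hz h.symm).congr ?_
      have h1 : ∀ᶠ y in 𝓝 z, ‖y‖ < 2 :=
        continuous_norm.continuousAt.eventually (gt_mem_nhds (by linarith))
      filter_upwards [h1] with y hy
      exact hMF y hy.le
  · intro V _ _ _ Λ a b hΛ x
    by_cases hxA : x ∈ A '' closedBall (0 : E n) 1
    · obtain ⟨z, hz, rfl⟩ := hxA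
      rw [mem_closedBall_zero_iff] at hz
      rw [hMF z (by linarith)]
      have hz2 : z ∈ closedBall (0 : E n) 2 := by
        rw [mem_closedBall_zero_iff]
        linarith
      have hcont : ContinuousOn (fun s : E n => G (z + c z • s)) (closedBall 0 1) := by
        refine hG.comp (by fun_prop) ?_
        intro s hs
        rw [mem_closedBall_zero_iff] at hs ⊢
        exact (hin z hz s hs).trans (by norm_num)
      have i1 := kr_smul_integrable hcont
      unfold Moll
      rw [← ContinuousLinearMap.integral_comp_comm Λ i1]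
      have h1 : ∀ s : E n, Λ (kr n s • G (z + c z • s)) =
          kr n s • (a z + b) + kr n s • (c z • a s) := by
        intro s
        by_cases hs : kr n s = 0
        · rw [hs, zero_smul, zero_smul, zero_smul, map_zero, add_zero]
        · rw [map_smul, ← smul_add]
          congr 1
          have h2 := hΛ (z + c z • s) (by
            rw [mem_closedBall_zero_iff]
            exact (hin z hz s (kr_lt hs).le).trans (by norm_num))
          rw [hGd]
          change Λ (F (A (z + c z • s))) = _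
          rw [h2, map_add, map_smul]
          abel
      simp only [h1]
      have i2 : Integrable (fun s : E n => kr n s • (a z + b)) := kr_integrable.smul_const _
      have i3 : Integrable (fun s : E n => kr n s • (c z • a s)) :=
        kr_smul_integrable (by fun_prop)
      rw [integral_add i2 i3, integral_smul_const, kr_int, one_smul]
      have i4 : Integrable (fun s : E n => kr n s • s) :=
        kr_smul_integrable (f := fun s : E n => s) (by fun_prop)
      have h3 : ∫ s, kr n s • (c z • a s) = (0 : V) := by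
        have h4 : ∀ s : E n, kr n s • (c z • a s) = (c z • a) (kr n s • s) := by
          intro s
          rw [map_smul]
          rfl
        simp only [h4]
        rw [ContinuousLinearMap.integral_comp_comm (c z • a) i4, kr_first, map_zero]
      rw [h3, add_zero, hΛ z hz2]
    · rw [MF_off hxA]

end Pool.Agent.K7.H28.AF
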