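import Pool.Agent.K7.H28.AF.Basic

/-!
# Maps which are asymptotically affine at small scales: growth of the linear parts, and change of
coordinates in the target
-/

set_option autoImplicit false

open Set Filter Topology Metric Function
open scoped Manifold ContDiff

noncomputable section

namespace Pool.Agent.K7.H28.AF

open Pool.Agent.Y522

variable {n : ℕ}

/-- the norm of a linear isomorphism -/
abbrev nrm (L : E n ≃L[ℝ] E n) : ℝ := ‖(L : E n →L[ℝ] E n)‖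

theorem compare {h : E n → E n} {p : E n} {δ a b : ℝ} (hδ : 0 < δ) (ha : a ≤ 1 / 32)
    (hb : b ≤ 1 / 32) (ha0 : 0 ≤ a) (L₁ L₂ : E n ≃L[ℝ] E n)
    (h1 : ∀ q : E n, ‖q - p‖ ≤ δ → ‖L₁.symm (h q - h p) - (q - p)‖ ≤ a * δ)
    (h2 : ∀ q : E n, ‖q - p‖ ≤ δ → ‖L₂.symm (h q - h p) - (q - p)‖ ≤ b * δ) (u : E n) :
    ‖L₂.symm (L₁ u)‖ ≤ 9 / 8 * ‖u‖ := by
  obtain ⟨T, hT⟩ : ∃ T : E n →L[ℝ] E n, T = (L₂.symm : E n →L[ℝ] E n).comp
    (L₁ : E n →L[ℝ] E n) := ⟨_, rfl⟩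
  have hTu : ∀ w, T w = L₂.symm (L₁ w) := fun w => by rw [hT]; rfl
  have key : ∀ w : E n, ‖w‖ = δ → ‖T w‖ ≤ (1 + b + ‖T‖ * a) * δ := by
    intro w hw
    have hq : ‖(p + w) - p‖ ≤ δ := by rw [add_sub_cancel_left]; exact hw.le
    have e1 := h1 _ hq
    have e2 := h2 _ hq
    rw [add_sub_cancel_left] at e1 e2
    have e3 : T w = w + (L₂.symm (h (p + w) - h p) - w) -
        T (L₁.symm (h (p + w) - h p) - w) := by
      have e4 : T (L₁.symm (h (p + w) - h p) - w) =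
          T (L₁.symm (h (p + w) - h p)) - T w := map_sub T _ _
      rw [e4, hTu (L₁.symm _), L₁.apply_symm_apply]
      abel
    rw [e3]
    calc _ ≤ ‖w + (L₂.symm (h (p + w) - h p) - w)‖ + ‖T (L₁.symm (h (p + w) - h p) - w)‖ :=
          norm_sub_le _ _
      _ ≤ (‖w‖ + ‖L₂.symm (h (p + w) - h p) - w‖) + ‖T‖ * ‖L₁.symm (h (p + w) - h p) - w‖ :=
          add_le_add (norm_add_le _ _) (T.le_opNorm _)
      _ ≤ (δ + b * δ) + ‖T‖ * (a * δ) := by
          refine add_le_add (add_le_add hw.le e2) ?_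
          exact mul_le_mul_of_nonneg_left e1 (norm_nonneg _)
      _ = _ := by ring
  have hb0 : 0 ≤ 1 + b + ‖T‖ * a := by
    have hpp : ‖p - p‖ ≤ δ := by rw [sub_self, norm_zero]; exact hδ.le
    have h3 := (norm_nonneg _).trans (h2 p hpp)
    have h4 : 0 ≤ b := by
      by_contra hneg
      have : b * δ < 0 := mul_neg_of_neg_of_pos (not_le.1 hneg) hδ
      linarith
    have := mul_nonneg (norm_nonneg T) ha0
    linarith
  have hall : ∀ w : E n, ‖T w‖ ≤ (1 + b + ‖T‖ * a) * ‖w‖ := by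
    intro w
    rcases eq_or_ne w 0 with rfl | hw
    · simp
    · have hw0 : 0 < ‖w‖ := norm_pos_iff.2 hw
      have h3 : ‖(δ / ‖w‖) • w‖ = δ := by
        rw [norm_smul, Real.norm_of_nonneg (by positivity)]
        field_simp
      have h4 := key _ h3
      rw [map_smul, norm_smul, Real.norm_of_nonneg (by positivity)] at h4
      have h5 : ‖T w‖ = (‖w‖ / δ) * (δ / ‖w‖ * ‖T w‖) := by field_simp
      rw [h5]
      calc ‖w‖ / δ * (δ / ‖w‖ * ‖T w‖) ≤ ‖w‖ / δ * ((1 + b + ‖T‖ * a) * δ) :=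
            mul_le_mul_of_nonneg_left h4 (by positivity)
        _ = _ := by field_simp
  have hn : ‖T‖ ≤ 1 + b + ‖T‖ * a := T.opNorm_le_bound hb0 hall
  have hn2 : ‖T‖ ≤ 9 / 8 := by
    have : ‖T‖ * a ≤ ‖T‖ * (1 / 32) := mul_le_mul_of_nonneg_left ha (norm_nonneg _)
    linarith
  rw [← hTu]
  exact (T.le_opNorm u).trans (mul_le_mul_of_nonneg_right hn2 (norm_nonneg _))

theorem compare_norm {h : E n → E n} {p : E n} {δ a b : ℝ} (hδ : 0 < δ) (ha : a ≤ 1 / 32)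
    (hb : b ≤ 1 / 32) (ha0 : 0 ≤ a) (hb0 : 0 ≤ b) (L₁ L₂ : E n ≃L[ℝ] E n)
    (h1 : ∀ q : E n, ‖q - p‖ ≤ δ → ‖L₁.symm (h q - h p) - (q - p)‖ ≤ a * δ)
    (h2 : ∀ q : E n, ‖q - p‖ ≤ δ → ‖L₂.symm (h q - h p) - (q - p)‖ ≤ b * δ) :
    nrm L₁ ≤ 9 / 8 * nrm L₂ ∧ nrm L₁.symm ≤ 9 / 8 * nrm L₂.symm := by
  constructor
  · refine ContinuousLinearMap.opNorm_le_bound _ (by positivity) fun u => ?_
    have h3 : (L₁ : E n →L[ℝ] E n) u = (L₂ : E n →L[ℝ] E n) (L₂.symm (L₁ u)) :=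
      (L₂.apply_symm_apply _).symm
    rw [h3]
    calc _ ≤ nrm L₂ * ‖L₂.symm (L₁ u)‖ := ContinuousLinearMap.le_opNorm _ _
      _ ≤ nrm L₂ * (9 / 8 * ‖u‖) :=
          mul_le_mul_of_nonneg_left (compare hδ ha hb ha0 L₁ L₂ h1 h2 u) (norm_nonneg _)
      _ = _ := by ring
  · refine ContinuousLinearMap.opNorm_le_bound _ (by positivity) fun u => ?_
    have h3 : (L₁.symm : E n →L[ℝ] E n) u = L₁.symm (L₂ (L₂.symm u)) := by
      rw [L₂.apply_symm_apply]
      rfl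
    rw [h3]
    calc _ ≤ 9 / 8 * ‖L₂.symm u‖ := compare hδ hb ha hb0 L₂ L₁ h2 h1 _
      _ ≤ 9 / 8 * (nrm L₂.symm * ‖u‖) :=
          mul_le_mul_of_nonneg_left ((L₂.symm : E n →L[ℝ] E n).le_opNorm u) (by norm_num)
      _ = _ := by ring

/-- the linear parts grow slowly when the scale tends to zero -/
theorem AAt.growth {h : E n → E n} {z : E n} (H : AAt n h z) (ε : ℝ) (hε : 0 < ε) :
    ∃ r : ℝ, 0 < r ∧ ∀ p ∈ closedBall z r, ∀ δ : ℝ, 0 < δ → δ ≤ r → ∃ L : E n ≃L[ℝ] E n,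
      (∀ q : E n, ‖q - p‖ ≤ δ → ‖L.symm (h q - h p) - (q - p)‖ ≤ ε * δ) ∧
      nrm L ^ 2 * nrm L.symm * δ ≤ ε := by
  obtain ⟨r₀, hr₀, h0⟩ := H (1 / 256) (by norm_num)
  obtain ⟨L₀, hL₀⟩ := h0 z (mem_closedBall_self hr₀.le) r₀ hr₀ le_rfl
  obtain ⟨M, hMd⟩ : ∃ M : ℝ, M = max (9 / 8 * nrm L₀) (9 / 8 * nrm L₀.symm) := ⟨_, rfl⟩
  have hM1 : 9 / 8 * nrm L₀ ≤ M := by rw [hMd]; exact le_max_left _ _
  have hM2 : 9 / 8 * nrm L₀.symm ≤ M := by rw [hMd]; exact le_max_right _ _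
  have hM0 : 0 ≤ M := le_trans (by positivity) hM1
  have claim : ∀ k : ℕ, ∀ p ∈ closedBall z (r₀ / 2), ∀ δ : ℝ, 0 < δ → r₀ / 4 ≤ 2 ^ k * δ →
      2 ^ k * δ ≤ r₀ / 2 → ∀ L : E n ≃L[ℝ] E n,
      (∀ q : E n, ‖q - p‖ ≤ δ → ‖L.symm (h q - h p) - (q - p)‖ ≤ 1 / 256 * δ) →
      nrm L ≤ M * (9 / 8) ^ k ∧ nrm L.symm ≤ M * (9 / 8) ^ k := by
    intro k
    induction k with
    | zero =>
      intro p hp δ hδ h1 h2 L hL
      rw [pow_zero, one_mul] at h1 h2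
      rw [pow_zero, mul_one]
      rw [mem_closedBall, dist_eq_norm] at hp
      have h3 := compare_norm (a := 1 / 256) (b := 1 / 32) hδ (by norm_num) le_rfl (by norm_num)
        (by norm_num) L L₀ hL (by
          intro q hq
          have hqz : ‖q - z‖ ≤ r₀ := by
            have h4 : q - z = (q - p) + (p - z) := by abel
            rw [h4]
            refine (norm_add_le _ _).trans ?_
            linarith
          have h5 := hL₀ q hqz
          have h6 := hL₀ p (by linarith)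
          have h7 : L₀.symm (h q - h p) - (q - p) =
              (L₀.symm (h q - h z) - (q - z)) - (L₀.symm (h p - h z) - (p - z)) := by
            have h8 : h q - h p = (h q - h z) - (h p - h z) := by abel
            rw [h8, map_sub]
            abel
          rw [h7]
          refine (norm_sub_le _ _).trans ?_
          linarith)
      exact ⟨h3.1.trans hM1, h3.2.trans hM2⟩
    | succ k ih =>
      intro p hp δ hδ h1 h2 L hL
      have h2k : (1 : ℝ) ≤ 2 ^ k := one_le_pow₀ (by norm_num)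
      have e1 : (2 : ℝ) ^ k * (2 * δ) = 2 ^ (k + 1) * δ := by ring
      have e2 : 2 * δ ≤ r₀ := by
        have : 1 * (2 * δ) ≤ 2 ^ k * (2 * δ) := mul_le_mul_of_nonneg_right h2k (by linarith)
        rw [e1] at this
        linarith
      obtain ⟨L₂, hL₂⟩ := h0 p (closedBall_subset_closedBall (by linarith) hp) (2 * δ)
        (by linarith) e2
      obtain ⟨h3, h4⟩ := ih p hp (2 * δ) (by linarith) (by rw [e1]; exact h1)
        (by rw [e1]; exact h2) L₂ hL₂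
      have h5 := compare_norm (a := 1 / 256) (b := 1 / 128) hδ (by norm_num) (by norm_num)
        (by norm_num) (by norm_num) L L₂ hL (by
          intro q hq
          refine (hL₂ q (by linarith)).trans ?_
          linarith)
      constructor
      · calc nrm L ≤ 9 / 8 * nrm L₂ := h5.1
          _ ≤ 9 / 8 * (M * (9 / 8) ^ k) := mul_le_mul_of_nonneg_left h3 (by norm_num)
          _ = M * (9 / 8) ^ (k + 1) := by ring
      · calc nrm L.symm ≤ 9 / 8 * nrm L₂.symm := h5.2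
          _ ≤ 9 / 8 * (M * (9 / 8) ^ k) := mul_le_mul_of_nonneg_left h4 (by norm_num)
          _ = M * (9 / 8) ^ (k + 1) := by ring
  -- the final choice
  obtain ⟨r₁, hr₁, h1⟩ := H (min ε (1 / 256)) (lt_min hε (by norm_num))
  obtain ⟨K, hK⟩ : ∃ K : ℕ, M ^ 3 * r₀ * (729 / 1024 : ℝ) ^ K < ε := by
    have h2 : Tendsto (fun k : ℕ => M ^ 3 * r₀ * (729 / 1024 : ℝ) ^ k) atTop (𝓝 (M ^ 3 * r₀ * 0)) :=
      (tendsto_pow_atTop_nhds_zero_of_lt_one (by norm_num) (by norm_num)).const_mul _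
    rw [mul_zero] at h2
    exact ((tendsto_order.1 h2).2 ε hε).exists
  have hKp : (0 : ℝ) < 2 ^ K := by positivity
  refine ⟨min r₁ (r₀ / 4 / 2 ^ K), lt_min hr₁ (by positivity), fun p hp δ hδ hδr => ?_⟩
  have hδ1 : δ ≤ r₀ / 4 / 2 ^ K := hδr.trans (min_le_right _ _)
  have hK1 : (1 : ℝ) ≤ 2 ^ K := one_le_pow₀ (by norm_num)
  have hδ2 : 2 ^ K * δ ≤ r₀ / 4 := by
    rw [le_div_iff₀ hKp] at hδ1
    linarith
  have hδ3 : δ ≤ r₀ / 4 := by
    have : 1 * δ ≤ 2 ^ K * δ := mul_le_mul_of_nonneg_right hK1 hδ.le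
    linarith
  have hp2 : p ∈ closedBall z (r₀ / 2) := by
    refine closedBall_subset_closedBall ?_ hp
    refine (min_le_right _ _).trans ?_
    rw [div_le_iff₀ hKp]
    nlinarith
  obtain ⟨L, hL⟩ := h1 p (closedBall_subset_closedBall (min_le_left _ _) hp) δ hδ
    (hδr.trans (min_le_left _ _))
  refine ⟨L, fun q hq => (hL q hq).trans (mul_le_mul_of_nonneg_right (min_le_left _ _) hδ.le), ?_⟩
  obtain ⟨m, hm1, hm2⟩ := exists_nat_pow_near (x := r₀ / (4 * δ)) (y := (2 : ℝ)) (by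
    rw [le_div_iff₀ (by positivity)]
    linarith) (by norm_num)
  rw [le_div_iff₀ (by positivity)] at hm1
  rw [div_lt_iff₀ (by positivity)] at hm2
  have hk1 : r₀ / 4 ≤ 2 ^ (m + 1) * δ := by linarith
  have hk2 : 2 ^ (m + 1) * δ ≤ r₀ / 2 := by
    have : (2 : ℝ) ^ (m + 1) * δ = 2 * (2 ^ m * δ) := by ring
    rw [this]
    linarith
  have hKm : K ≤ m + 1 := by
    by_contra hlt
    have h4 : m + 1 + 1 ≤ K := by omega
    have h5 : (2 : ℝ) ^ (m + 1 + 1) ≤ 2 ^ K := pow_le_pow_right₀ (by norm_num) h4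
    have h6 : (2 : ℝ) ^ (m + 1 + 1) * δ ≤ 2 ^ K * δ := mul_le_mul_of_nonneg_right h5 hδ.le
    have h7 : (2 : ℝ) ^ (m + 1 + 1) * δ = 2 * (2 ^ (m + 1) * δ) := by ring
    linarith
  obtain ⟨h2, h3⟩ := claim (m + 1) p hp2 δ hδ hk1 hk2 L (fun q hq =>
    (hL q hq).trans (mul_le_mul_of_nonneg_right (min_le_right _ _) hδ.le))
  have hpos : (0 : ℝ) < 2 ^ (m + 1) := by positivity
  have e4 : δ ≤ r₀ / 2 ^ (m + 1) := by
    rw [le_div_iff₀ hpos]
    linarith
  have e5 : nrm L ^ 2 ≤ (M * (9 / 8) ^ (m + 1)) ^ 2 := pow_le_pow_left₀ (norm_nonneg _) h2 2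
  calc nrm L ^ 2 * nrm L.symm * δ
      ≤ (M * (9 / 8) ^ (m + 1)) ^ 2 * (M * (9 / 8) ^ (m + 1)) * (r₀ / 2 ^ (m + 1)) := by
        gcongr
    _ = M ^ 3 * r₀ * (((9 / 8) ^ (m + 1)) ^ 3 / 2 ^ (m + 1)) := by ring
    _ = M ^ 3 * r₀ * (729 / 1024 : ℝ) ^ (m + 1) := by
        congr 1
        rw [← pow_mul, mul_comm (m + 1) 3, pow_mul, ← div_pow]
        norm_num
    _ ≤ M ^ 3 * r₀ * (729 / 1024 : ℝ) ^ K := by
        refine mul_le_mul_of_nonneg_left ?_ (by positivity)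
        exact pow_le_pow_of_le_one (by norm_num) (by norm_num) hKm
    _ ≤ ε := hK.le

/-- second order expansion of a local diffeomorphism -/
theorem expand {β : E n → E n} {y₀ : E n} (hβ : LD n β y₀) :
    ∃ (ρ C M : ℝ), 0 < ρ ∧ 0 ≤ C ∧ 0 ≤ M ∧ ∀ v ∈ ball y₀ ρ, ∃ e : E n ≃L[ℝ] E n,
      (∀ u ∈ ball y₀ ρ, ‖β u - β v - e (u - v)‖ ≤ C * ‖u - v‖ ^ 2) ∧
      ∀ y, ‖e.symm y‖ ≤ M * ‖y‖ := by
  obtain ⟨D₀, hD₀⟩ := hβ.exists_equiv
  have hcd : ContDiffAt ℝ 1 (fderiv ℝ β) y₀ :=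
    hβ.contDiffAt.fderiv_right (m := 1) (WithTop.coe_le_coe.2 le_top)
  obtain ⟨C, t, ht, hLip⟩ := hcd.exists_lipschitzOnWith
  obtain ⟨κ, hκd⟩ : ∃ κ : ℝ, κ = nrm D₀.symm := ⟨_, rfl⟩
  have hκ : 0 ≤ κ := by rw [hκd]; exact norm_nonneg _
  obtain ⟨ρ₁, hρ₁, hb⟩ := Metric.eventually_nhds_iff_ball.1
    ((hβ.eventually.and (eventually_mem_set.2 ht)) :
      ∀ᶠ y in 𝓝 y₀, LD n β y ∧ y ∈ t)
  obtain ⟨ρ, hρ, hρ1, hρ2⟩ : ∃ ρ : ℝ, 0 < ρ ∧ ρ ≤ ρ₁ ∧ κ * (C * ρ) ≤ 1 / 2 := by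
    refine ⟨min ρ₁ (1 / (2 * (κ + 1) * (C + 1))), lt_min hρ₁ (by positivity), min_le_left _ _, ?_⟩
    calc κ * (C * min ρ₁ (1 / (2 * (κ + 1) * (C + 1))))
        ≤ κ * (C * (1 / (2 * (κ + 1) * (C + 1)))) := by
          gcongr
          exact min_le_right _ _
      _ ≤ (κ + 1) * ((C + 1) * (1 / (2 * (κ + 1) * (C + 1)))) := by
          gcongr
          · linarith
          · linarith
      _ = 1 / 2 := by field_simp
  refine ⟨ρ, C, 2 * κ, hρ, C.coe_nonneg, by positivity, fun v hv => ?_⟩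
  have hv1 := hb v (ball_subset_ball hρ1 hv)
  obtain ⟨e, he⟩ := hv1.1.exists_equiv
  refine ⟨e, fun u hu => ?_, ?_⟩
  · have hconv : Convex ℝ (ball y₀ ρ ∩ closedBall v ‖u - v‖) :=
      (convex_ball _ _).inter (convex_closedBall _ _)
    have h1 := hconv.norm_image_sub_le_of_norm_hasFDerivWithin_le' (f := β)
      (f' := fun y => fderiv ℝ β y) (φ := (e : E n →L[ℝ] E n)) (C := C * ‖u - v‖) (x := v) (y := u)
      (by
        rintro y ⟨hy, -⟩
        have hy1 := (hb y (ball_subset_ball hρ1 hy)).1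
        exact ((hy1.contDiffAt.differentiableAt (by simp)).hasFDerivAt).hasFDerivWithinAt)
      (by
        rintro y ⟨hy, hyv⟩
        rw [mem_closedBall, dist_eq_norm] at hyv
        have h2 := hLip.dist_le_mul y (hb y (ball_subset_ball hρ1 hy)).2 v hv1.2
        rw [dist_eq_norm, dist_eq_norm, he.fderiv] at h2
        exact h2.trans (mul_le_mul_of_nonneg_left hyv C.coe_nonneg))
      ⟨hv, mem_closedBall_self (norm_nonneg _)⟩
      ⟨hu, by rw [mem_closedBall, dist_eq_norm]⟩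
    calc ‖β u - β v - e (u - v)‖ ≤ C * ‖u - v‖ * ‖u - v‖ := h1
      _ = C * ‖u - v‖ ^ 2 := by ring
  · intro y
    obtain ⟨w, rfl⟩ := e.surjective y
    rw [e.symm_apply_apply]
    have h2 := hLip.dist_le_mul v hv1.2 y₀ (mem_of_mem_nhds ht)
    rw [dist_eq_norm, dist_eq_norm, he.fderiv, hD₀.fderiv] at h2
    have h3 : ‖v - y₀‖ ≤ ρ := by
      rw [mem_ball, dist_eq_norm] at hv
      exact hv.le
    have h4 : ‖D₀ w‖ ≤ ‖e w‖ + C * ρ * ‖w‖ := by
      have h5 : D₀ w = e w - ((e : E n →L[ℝ] E n) - (D₀ : E n →L[ℝ] E n)) w := by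
        rw [_root_.sub_apply]
        change D₀ w = e w - (e w - D₀ w)
        abel
      rw [h5]
      refine (norm_sub_le _ _).trans (add_le_add le_rfl ?_)
      refine (ContinuousLinearMap.le_opNorm _ _).trans (mul_le_mul_of_nonneg_right ?_
        (norm_nonneg _))
      exact h2.trans (mul_le_mul_of_nonneg_left h3 C.coe_nonneg)
    have h5 : ‖w‖ ≤ κ * ‖D₀ w‖ := by
      have h6 := (D₀.symm : E n →L[ℝ] E n).le_opNorm (D₀ w)
      have h7 : (D₀.symm : E n →L[ℝ] E n) (D₀ w) = w := D₀.symm_apply_apply w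
      rw [h7] at h6
      rw [hκd]
      exact h6
    have h6 : ‖w‖ ≤ κ * ‖e w‖ + κ * (C * ρ) * ‖w‖ := by
      refine h5.trans ?_
      calc κ * ‖D₀ w‖ ≤ κ * (‖e w‖ + C * ρ * ‖w‖) := mul_le_mul_of_nonneg_left h4 hκ
        _ = _ := by ring
    have h7 : κ * (C * ρ) * ‖w‖ ≤ 1 / 2 * ‖w‖ := mul_le_mul_of_nonneg_right hρ2 (norm_nonneg _)
    linarith

/-- change of coordinates in the target -/
theorem AAt.comp_left {h β : E n → E n} {z : E n} (hc : ContinuousAt h z) (hβ : LD n β (h z))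
    (H : AAt n h z) : AAt n (fun p => β (h p)) z := by
  intro ε hε
  obtain ⟨ρ, C, M, hρ, hC, hM, hexp⟩ := expand hβ
  obtain ⟨ε₁, hε₁, hε₁1, hε₁2⟩ : ∃ e : ℝ, 0 < e ∧ e ≤ 1 ∧ e * (1 + 4 * M * C) ≤ ε := by
    refine ⟨min 1 (ε / (1 + 4 * M * C)), lt_min one_pos (by positivity), min_le_left _ _, ?_⟩
    calc min 1 (ε / (1 + 4 * M * C)) * (1 + 4 * M * C) ≤ ε / (1 + 4 * M * C) * (1 + 4 * M * C) :=
          mul_le_mul_of_nonneg_right (min_le_right _ _) (by positivity)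
      _ = ε := by
          rw [div_mul_cancel₀]
          positivity
  obtain ⟨r₁, hr₁, h1⟩ := H.growth ε₁ hε₁
  obtain ⟨r₂, hr₂, h2⟩ := Metric.continuousAt_iff.1 hc ρ hρ
  refine ⟨min r₁ (r₂ / 3), lt_min hr₁ (by linarith), fun p hp δ hδ hδr => ?_⟩
  obtain ⟨L, hL, hLn⟩ := h1 p (closedBall_subset_closedBall (min_le_left _ _) hp) δ hδ
    (hδr.trans (min_le_left _ _))
  have hpz : ‖p - z‖ ≤ r₂ / 3 := by
    rw [mem_closedBall, dist_eq_norm] at hp
    exact hp.trans (min_le_right _ _)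
  have hvρ : h p ∈ ball (h z) ρ := h2 (by rw [dist_eq_norm]; linarith)
  obtain ⟨e, he1, he2⟩ := hexp (h p) hvρ
  refine ⟨L.trans e, fun q hq => ?_⟩
  have hqz : ‖q - z‖ < r₂ := by
    have h3 : q - z = (q - p) + (p - z) := by abel
    rw [h3]
    refine (norm_add_le _ _).trans_lt ?_
    have := hδr.trans (min_le_right _ _)
    linarith
  have huρ : h q ∈ ball (h z) ρ := h2 (by rw [dist_eq_norm]; exact hqz)
  have h3 := hL q hq
  have h4 : ‖h q - h p‖ ≤ 2 * nrm L * δ := by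
    have h5 : h q - h p = L ((q - p) + (L.symm (h q - h p) - (q - p))) := by
      rw [add_sub_cancel, L.apply_symm_apply]
    rw [h5]
    calc _ ≤ nrm L * ‖(q - p) + (L.symm (h q - h p) - (q - p))‖ :=
          (L : E n →L[ℝ] E n).le_opNorm _
      _ ≤ nrm L * (δ + ε₁ * δ) := mul_le_mul_of_nonneg_left
          ((norm_add_le _ _).trans (add_le_add hq h3)) (norm_nonneg _)
      _ ≤ nrm L * (δ + 1 * δ) := by gcongr
      _ = _ := by ring
  have h5 : (L.trans e).symm (β (h q) - β (h p)) - (q - p) =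
      (L.symm (h q - h p) - (q - p)) + L.symm (e.symm (β (h q) - β (h p) - e (h q - h p))) := by
    have h6 : (L.trans e).symm (β (h q) - β (h p)) = L.symm (e.symm (β (h q) - β (h p))) := rfl
    have h7 : e.symm (β (h q) - β (h p) - e (h q - h p)) =
        e.symm (β (h q) - β (h p)) - (h q - h p) := by
      have h9 : e.symm (β (h q) - β (h p) - e (h q - h p)) =
          e.symm (β (h q) - β (h p)) - e.symm (e (h q - h p)) := map_sub _ _ _
      rw [h9, e.symm_apply_apply]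
    have h8 : L.symm (e.symm (β (h q) - β (h p)) - (h q - h p)) =
        L.symm (e.symm (β (h q) - β (h p))) - L.symm (h q - h p) := map_sub _ _ _
    rw [h6, h7, h8]
    abel
  change ‖(L.trans e).symm (β (h q) - β (h p)) - (q - p)‖ ≤ ε * δ
  rw [h5]
  have h6 : ‖L.symm (e.symm (β (h q) - β (h p) - e (h q - h p)))‖ ≤ 4 * M * C * ε₁ * δ := by
    calc _ ≤ nrm L.symm * ‖e.symm (β (h q) - β (h p) - e (h q - h p))‖ :=
          (L.symm : E n →L[ℝ] E n).le_opNorm _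
      _ ≤ nrm L.symm * (M * (C * (2 * nrm L * δ) ^ 2)) := by
          refine mul_le_mul_of_nonneg_left ((he2 _).trans ?_) (norm_nonneg _)
          refine mul_le_mul_of_nonneg_left ((he1 _ huρ).trans ?_) hM
          refine mul_le_mul_of_nonneg_left ?_ hC
          exact pow_le_pow_left₀ (norm_nonneg _) h4 2
      _ = 4 * M * C * δ * (nrm L ^ 2 * nrm L.symm * δ) := by ring
      _ ≤ 4 * M * C * δ * ε₁ := mul_le_mul_of_nonneg_left hLn (by positivity)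
      _ = _ := by ring
  calc _ ≤ ε₁ * δ + 4 * M * C * ε₁ * δ := (norm_add_le _ _).trans (add_le_add h3 h6)
    _ = (ε₁ * (1 + 4 * M * C)) * δ := by ring
    _ ≤ ε * δ := mul_le_mul_of_nonneg_right hε₁2 hδ.le

end Pool.Agent.K7.H28.AF
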