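import Pool.Agent.K7.H28.AF.Growth
import Pool.Agent.Y954.SH.MollS
import Pool.Agent.Y207.SH.MStepA
import Pool.Agent.Y25.SH.StepV

/-!
# The mollification of a map which is nearly affine at the scale of the mollification
-/

set_option autoImplicit false

open Set Filter Topology Metric Function MeasureTheory
open scoped Manifold ContDiff Convolution

noncomputable section

namespace Pool.Agent.K7.H28.AF

open Pool.Agent.Y522 Pool.Agent.Y954.SH
open Pool.Agent.Y207.SH3 (kr_smul_integrable)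

/-- the scaled kernels form a Lipschitz family -/
theorem gk_lip (n : ℕ) : ∃ C : ℝ, 0 ≤ C ∧ ∀ (ρ : ℝ) (a w : E n), |ρ - 1| ≤ 1 / 2 → ‖a‖ ≤ 1 →
    ‖w‖ ≤ 3 → |gk n ρ (a - w) - gk n 1 (0 - w)| ≤ C * (|ρ - 1| + ‖a‖) := by
  obtain ⟨U, hU⟩ : ∃ U : Set (ℝ × E n), U = {q | 0 < q.1} := ⟨_, rfl⟩
  have hUo : IsOpen U := by rw [hU]; exact isOpen_lt continuous_const continuous_fst
  obtain ⟨f, hf⟩ : ∃ f : ℝ × E n → ℝ, f = fun q => gk n q.1 q.2 := ⟨_, rfl⟩
  have hfs : ContDiffOn ℝ ∞ f U := by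
    rw [hf]
    unfold gk
    have e0 : ∀ q ∈ U, (q : ℝ × E n).1 ≠ 0 := by
      intro q hq
      rw [hU] at hq
      exact (ne_of_gt hq)
    have e1 : ContDiffOn ℝ ∞ (fun q : ℝ × E n => q.1) U := contDiff_fst.contDiffOn
    apply ContDiffOn.mul
    · exact (e1.pow n).inv fun q hq => pow_ne_zero n (e0 q hq)
    · apply kr_smooth.comp_contDiffOn
      exact (e1.inv e0).smul contDiff_snd.contDiffOn
  obtain ⟨K, hK⟩ : ∃ K : Set (ℝ × E n), K = closedBall (1 : ℝ) (1 / 2) ×ˢ closedBall (0 : E n) 4 :=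
    ⟨_, rfl⟩
  have hKU : K ⊆ U := by
    rintro ⟨ρ, w⟩ hq
    rw [hK] at hq
    rw [hU]
    have h1 := hq.1
    simp only [mem_closedBall, Real.dist_eq] at h1
    have h2 := abs_le.1 h1
    change 0 < ρ
    linarith [h2.1]
  have hKc : IsCompact K := by
    rw [hK]
    exact (isCompact_closedBall _ _).prod (isCompact_closedBall _ _)
  have hKv : Convex ℝ K := by
    rw [hK]
    exact (convex_closedBall _ _).prod (convex_closedBall _ _)
  have hd : ∀ q ∈ U, DifferentiableAt ℝ f q := fun q hq =>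
    (hfs.contDiffAt (hUo.mem_nhds hq)).differentiableAt (by simp)
  have hcont : ContinuousOn (fderiv ℝ f) U :=
    hfs.continuousOn_fderiv_of_isOpen hUo (by simp)
  obtain ⟨C, hC⟩ := hKc.exists_bound_of_continuousOn (hcont.mono hKU)
  have hC0 : 0 ≤ C := by
    refine (norm_nonneg _).trans (hC (1, 0) ?_)
    rw [hK]
    exact ⟨by simp, by simp⟩
  refine ⟨C, hC0, fun ρ a w hρ ha hw => ?_⟩
  have h1 : ((ρ, a - w) : ℝ × E n) ∈ K := by
    rw [hK]
    refine ⟨by rw [mem_closedBall, Real.dist_eq]; exact hρ, ?_⟩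
    rw [mem_closedBall_zero_iff]
    refine (norm_sub_le _ _).trans ?_
    linarith
  have h2 : ((1, 0 - w) : ℝ × E n) ∈ K := by
    rw [hK]
    refine ⟨by rw [mem_closedBall, dist_self]; norm_num, ?_⟩
    rw [mem_closedBall_zero_iff]
    change ‖(0 : E n) - w‖ ≤ 4
    rw [zero_sub, norm_neg]
    linarith
  have h3 := hKv.norm_image_sub_le_of_norm_fderiv_le (f := f) (C := C)
    (fun q hq => hd q (hKU hq)) hC h2 h1
  rw [hf, Real.norm_eq_abs] at h3
  refine h3.trans (mul_le_mul_of_nonneg_left ?_ hC0)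
  have h4 : ((ρ, a - w) : ℝ × E n) - (1, 0 - w) = (ρ - 1, a) := by
    ext1
    · rfl
    · change a - w - (0 - w) = a
      abel
  rw [h4, Prod.norm_def, Real.norm_eq_abs]
  exact max_le (le_add_of_nonneg_right (norm_nonneg _)) (le_add_of_nonneg_left (abs_nonneg _))

theorem gk_zero {n : ℕ} {ρ : ℝ} (hρ : 0 < ρ) {w : E n} (hw : ρ ≤ ‖w‖) : gk n ρ w = 0 := by
  unfold gk
  rw [kr_zero, mul_zero]
  rw [norm_smul, norm_inv, Real.norm_of_nonneg hρ.le, inv_mul_eq_div, le_div_iff₀ hρ]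
  linarith

theorem moll_diff (n : ℕ) : ∃ C : ℝ, 0 ≤ C ∧ ∀ (e : E n → E n) (M : ℝ), 0 ≤ M →
    ContinuousOn e (closedBall 0 3) → (∀ w, ‖w‖ ≤ 3 → ‖e w‖ ≤ M) → ∀ (ρ : ℝ) (a : E n),
    |ρ - 1| ≤ 1 / 2 → ‖a‖ ≤ 1 →
    ‖(∫ s, kr n s • e (a + ρ • s)) - ∫ s, kr n s • e (0 + (1 : ℝ) • s)‖ ≤
      C * M * (|ρ - 1| + ‖a‖) := by
  obtain ⟨C, hC0, hC⟩ := gk_lip n
  refine ⟨C * volume.real (closedBall (0 : E n) 3), by positivity, ?_⟩
  intro e M hM he heM ρ a hρ ha
  have hρ0 : 0 < ρ := by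
    have := (abs_le.1 hρ).1
    linarith
  have hρ2 : ρ ≤ 3 / 2 := by
    have := (abs_le.1 hρ).2
    linarith
  rw [moll_conv e a hρ0, moll_conv e 0 one_pos]
  unfold convolution
  simp only [LL_apply]
  have hint : ∀ (ρ' : ℝ) (b : E n), 0 < ρ' → ρ' ≤ 3 / 2 → ‖b‖ ≤ 1 →
      Integrable (fun t => gk n ρ' (b - t) • e t) := by
    intro ρ' b hρ' hρ'2 hb
    have hcg : Continuous fun t : E n => gk n ρ' (b - t) := by
      unfold gk
      exact continuous_const.mul (kr_smooth.continuous.comp (by fun_prop))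
    have h1 : IntegrableOn (fun t => gk n ρ' (b - t) • e t) (closedBall 0 3) :=
      (hcg.continuousOn.smul he).integrableOn_compact (isCompact_closedBall _ _)
    refine (integrableOn_iff_integrable_of_support_subset ?_).1 h1
    intro t ht
    by_contra hne
    rw [mem_closedBall_zero_iff, not_le] at hne
    apply ht
    change gk n ρ' (b - t) • e t = 0
    rw [gk_zero hρ', zero_smul]
    have h2 : ‖t‖ ≤ ‖b‖ + ‖b - t‖ := by
      have h3 : t = b - (b - t) := by abel
      conv_lhs => rw [h3]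
      exact norm_sub_le _ _
    linarith
  rw [← integral_sub (hint ρ a hρ0 hρ2 ha) (hint 1 0 one_pos (by norm_num) (by simp))]
  have hz : ∀ t ∉ closedBall (0 : E n) 3,
      gk n ρ (a - t) • e t - gk n 1 (0 - t) • e t = 0 := by
    intro t ht
    rw [mem_closedBall_zero_iff, not_le] at ht
    have h2 : ‖t‖ ≤ ‖a‖ + ‖a - t‖ := by
      have h3 : t = a - (a - t) := by abel
      conv_lhs => rw [h3]
      exact norm_sub_le _ _
    rw [gk_zero hρ0 (by linarith), gk_zero one_pos (by rw [zero_sub, norm_neg]; linarith)]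
    simp
  rw [← setIntegral_eq_integral_of_forall_compl_eq_zero hz]
  have h4 := norm_setIntegral_le_of_norm_le_const (μ := volume) (s := closedBall (0 : E n) 3)
    (f := fun t => gk n ρ (a - t) • e t - gk n 1 (0 - t) • e t)
    (C := C * (|ρ - 1| + ‖a‖) * M) (isCompact_closedBall _ _).measure_lt_top (by
      intro t ht
      rw [mem_closedBall_zero_iff] at ht
      rw [← sub_smul, norm_smul, Real.norm_eq_abs]
      exact mul_le_mul (hC ρ a t hρ ha ht) (heM t ht) (norm_nonneg _) (by positivity))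
  refine h4.trans (le_of_eq ?_)
  ring

theorem kr_first (n : ℕ) : ∫ s, kr n s • s = (0 : E n) := by
  have h1 : ∫ s, kr n (-s) • (-s) = ∫ s, kr n s • s :=
    integral_neg_eq_self (fun s : E n => kr n s • s) volume
  have h2 : ∀ s : E n, kr n (-s) • (-s) = -(kr n s • s) := by
    intro s
    rw [kr_neg, smul_neg]
  simp only [h2] at h1
  rw [integral_neg] at h1
  have h3 : (2 : ℝ) • (∫ s, kr n s • s : E n) = 0 := by
    rw [two_smul]
    nth_rewrite 1 [← h1]
    exact neg_add_cancel _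
  exact (smul_eq_zero.1 h3).resolve_left two_ne_zero

/-- The mollification of a map which is nearly affine at the scale of the mollification has nearly
the same linear part at all smaller scales. -/
theorem moll_aff (n : ℕ) : ∃ C : ℝ, 0 ≤ C ∧ ∀ (G : E n → E n) (c : E n → ℝ) (z z' : E n)
    (L : E n ≃L[ℝ] E n) (ε : ℝ), 0 < c z → 0 ≤ ε → ContinuousOn G (closedBall z (3 * c z)) →
    |c z' - c z| ≤ 1 / 2 * ‖z' - z‖ → ‖z' - z‖ ≤ c z →
    (∀ y, ‖y - z‖ ≤ 3 * c z → ‖L.symm (G y - G z) - (y - z)‖ ≤ ε * (3 * c z)) →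
    ‖L.symm (Moll n G c z' - Moll n G c z) - (z' - z)‖ ≤ C * ε * ‖z' - z‖ := by
  obtain ⟨C, hC0, hC⟩ := moll_diff n
  refine ⟨C * 3 * (3 / 2), by positivity, ?_⟩
  intro G c z z' L ε hcz hε hG hcc hzz hL
  obtain ⟨c₀, hc₀⟩ : ∃ c₀ : ℝ, c₀ = c z := ⟨_, rfl⟩
  rw [← hc₀] at hcz hG hcc hzz hL
  obtain ⟨a, had⟩ : ∃ a : E n, a = c₀⁻¹ • (z' - z) := ⟨_, rfl⟩
  obtain ⟨ρ, hρd⟩ : ∃ ρ : ℝ, ρ = c z' / c₀ := ⟨_, rfl⟩
  have hna : ‖a‖ = ‖z' - z‖ / c₀ := by
    rw [had, norm_smul, norm_inv, Real.norm_of_nonneg hcz.le, inv_mul_eq_div]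
  have ha1 : ‖a‖ ≤ 1 := by
    rw [hna, div_le_one hcz]
    exact hzz
  have hρ1 : |ρ - 1| ≤ 1 / 2 * ‖a‖ := by
    have h1 : ρ - 1 = (c z' - c₀) / c₀ := by
      rw [hρd]
      field_simp
    rw [h1, abs_div, abs_of_pos hcz, hna, div_le_iff₀ hcz]
    refine hcc.trans (le_of_eq ?_)
    field_simp
  have hρ2 : |ρ - 1| ≤ 1 / 2 := by linarith
  have hca : c₀ • a = z' - z := by
    rw [had, smul_smul, mul_inv_cancel₀ hcz.ne', one_smul]
  have hcρ : c₀ * ρ = c z' := by
    rw [hρd]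
    field_simp
  obtain ⟨e, hed⟩ : ∃ e : E n → E n, e = fun w => L.symm (G (z + c₀ • w) - G z) - c₀ • w :=
    ⟨_, rfl⟩
  have hin : ∀ w : E n, ‖w‖ ≤ 3 → ‖(z + c₀ • w) - z‖ ≤ 3 * c₀ := by
    intro w hw
    rw [add_sub_cancel_left, norm_smul, Real.norm_of_nonneg hcz.le]
    nlinarith
  have hec : ContinuousOn e (closedBall 0 3) := by
    rw [hed]
    have h1 : ContinuousOn (fun w : E n => G (z + c₀ • w)) (closedBall 0 3) := by
      refine hG.comp (by fun_prop) ?_
      intro w hw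
      rw [mem_closedBall_zero_iff] at hw
      rw [mem_closedBall, dist_eq_norm]
      exact hin w hw
    have h2 : ContinuousOn (fun w : E n => L.symm (G (z + c₀ • w) - G z)) (closedBall 0 3) :=
      L.symm.continuous.comp_continuousOn (h1.sub continuousOn_const)
    exact h2.sub (by fun_prop)
  have heM : ∀ w : E n, ‖w‖ ≤ 3 → ‖e w‖ ≤ ε * (3 * c₀) := by
    intro w hw
    have h1 := hL _ (hin w hw)
    rw [add_sub_cancel_left] at h1
    rw [hed]
    exact h1
  have key := hC e (ε * (3 * c₀)) (by positivity) hec heM ρ a hρ2 ha1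
  -- formula for the mollification
  have hform : ∀ (b : E n) (σ : ℝ), ‖b‖ ≤ 1 → |σ - 1| ≤ 1 / 2 →
      L.symm (∫ s, kr n s • G (z + c₀ • (b + σ • s))) =
        (∫ s, kr n s • e (b + σ • s)) + c₀ • b + L.symm (G z) := by
    intro b σ hb hσ
    have hσ1 := abs_le.1 hσ
    have hbs : ∀ s : E n, ‖s‖ ≤ 1 → ‖b + σ • s‖ ≤ 3 := by
      intro s hs
      refine (norm_add_le _ _).trans ?_
      rw [norm_smul, Real.norm_of_nonneg (by linarith [hσ1.1])]
      nlinarith [norm_nonneg s, hσ1.2]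
    have c1 : ContinuousOn (fun s : E n => G (z + c₀ • (b + σ • s))) (closedBall 0 1) := by
      refine hG.comp (by fun_prop) ?_
      intro s hs
      rw [mem_closedBall_zero_iff] at hs
      rw [mem_closedBall, dist_eq_norm]
      exact hin _ (hbs s hs)
    have c2 : ContinuousOn (fun s : E n => e (b + σ • s)) (closedBall 0 1) := by
      refine hec.comp (by fun_prop) ?_
      intro s hs
      rw [mem_closedBall_zero_iff] at hs
      rw [mem_closedBall_zero_iff]
      exact hbs s hs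
    have i1 := kr_smul_integrable c1
    have i2 := kr_smul_integrable c2
    have i3 : Integrable (fun s : E n => kr n s • ((c₀ * σ) • s)) :=
      kr_smul_integrable (by fun_prop)
    have i4 : Integrable (fun s : E n => kr n s • (c₀ • b + L.symm (G z))) :=
      kr_integrable.smul_const _
    have h1 : L.symm (∫ s, kr n s • G (z + c₀ • (b + σ • s))) =
        ∫ s, L.symm (kr n s • G (z + c₀ • (b + σ • s))) :=
      ((L.symm : E n →L[ℝ] E n).integral_comp_comm i1).symm
    have h2 : ∀ s : E n, L.symm (kr n s • G (z + c₀ • (b + σ • s))) =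
        (kr n s • e (b + σ • s) + kr n s • ((c₀ * σ) • s)) +
          kr n s • (c₀ • b + L.symm (G z)) := by
      intro s
      rw [map_smul, ← smul_add, ← smul_add]
      congr 1
      rw [hed]
      change L.symm (G (z + c₀ • (b + σ • s))) =
        (L.symm (G (z + c₀ • (b + σ • s)) - G z) - c₀ • (b + σ • s)) + (c₀ * σ) • s +
          (c₀ • b + L.symm (G z))
      rw [map_sub, smul_add, smul_smul]
      abel
    rw [h1]
    simp only [h2]
    have h3 : ∫ s, kr n s • ((c₀ * σ) • s) = (0 : E n) := by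
      have h4 : ∀ s : E n, kr n s • ((c₀ * σ) • s) = (c₀ * σ) • (kr n s • s) := fun s => smul_comm _ _ _
      simp only [h4]
      rw [integral_smul, kr_first, smul_zero]
    have j1 : ∫ s, (kr n s • e (b + σ • s) + kr n s • ((c₀ * σ) • s)) +
        kr n s • (c₀ • b + L.symm (G z)) = (∫ s, (kr n s • e (b + σ • s) +
          kr n s • ((c₀ * σ) • s))) + ∫ s, kr n s • (c₀ • b + L.symm (G z)) :=
      integral_add (i2.add i3) i4
    have j2 : ∫ s, (kr n s • e (b + σ • s) + kr n s • ((c₀ * σ) • s)) =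
        (∫ s, kr n s • e (b + σ • s)) + ∫ s, kr n s • ((c₀ * σ) • s) := integral_add i2 i3
    rw [j1, j2, h3, add_zero, integral_smul_const, kr_int, one_smul]
    abel
  have hz' : Moll n G c z' = ∫ s, kr n s • G (z + c₀ • (a + ρ • s)) := by
    unfold Moll
    congr 1
    funext s
    congr 2
    rw [smul_add, hca, smul_smul, hcρ]
    abel
  have hz : Moll n G c z = ∫ s, kr n s • G (z + c₀ • ((0 : E n) + (1 : ℝ) • s)) := by
    unfold Moll
    congr 1
    funext s
    congr 2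
    rw [zero_add, one_smul, hc₀]
  have e1 := hform a ρ ha1 hρ2
  have e2 := hform 0 1 (by simp) (by norm_num)
  rw [← hz'] at e1
  rw [← hz] at e2
  have e3 : L.symm (Moll n G c z' - Moll n G c z) - (z' - z) =
      (∫ s, kr n s • e (a + ρ • s)) - ∫ s, kr n s • e (0 + (1 : ℝ) • s) := by
    have e4 : L.symm (Moll n G c z' - Moll n G c z) =
      L.symm (Moll n G c z') - L.symm (Moll n G c z) := map_sub _ _ _
    rw [e4, e1, e2, hca, smul_zero]
    abel
  rw [e3]
  refine key.trans ?_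
  have h5 : |ρ - 1| + ‖a‖ ≤ 3 / 2 * ‖a‖ := by linarith
  calc C * (ε * (3 * c₀)) * (|ρ - 1| + ‖a‖) ≤ C * (ε * (3 * c₀)) * (3 / 2 * ‖a‖) :=
        mul_le_mul_of_nonneg_left h5 (by positivity)
    _ = C * 3 * (3 / 2) * ε * (c₀ * ‖a‖) := by ring
    _ = C * 3 * (3 / 2) * ε * ‖z' - z‖ := by
        rw [hna]
        congr 1
        field_simp

end Pool.Agent.K7.H28.AF
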