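import Pool.Agent.K7.H28.AF.Step

/-!
# Maps which are asymptotically affine at small scales: smoothing near a compact set
-/

set_option autoImplicit false

open Set Filter Topology Metric Function MeasureTheory
open scoped Manifold ContDiff

noncomputable section

namespace Pool.Agent.K7.H28.AF

open Pool.Agent.Y522

theorem box_exists {n : ℕ} {X : Type} [TopologicalSpace X] [ChartedSpace (E n) X]
    {A : E n → X} {W : Set X} (hW : IsOpen W) (hxW : A 0 ∈ W)
    (hA : LD n A 0) (Q : E n → Prop) (hQ : ∀ᶠ z in 𝓝 (0 : E n), Q z) :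
    ∃ s : ℝ, 0 < s ∧ InjOn (fun z : E n => A (s • z)) (closedBall 0 2) ∧
      (∀ z ∈ closedBall (0 : E n) 2, LD n (fun z : E n => A (s • z)) z) ∧
      (∀ z ∈ closedBall (0 : E n) 2, A (s • z) ∈ W) ∧
      ∀ z ∈ closedBall (0 : E n) 2, Q (s • z) := by
  obtain ⟨u, hu, hinj⟩ := hA.eventually_injOn
  have hAW : A ⁻¹' W ∈ 𝓝 (0 : E n) := hA.continuousAt.preimage_mem_nhds (hW.mem_nhds hxW)
  obtain ⟨r1, hr1, hball⟩ := (nhds_basis_closedBall (x := (0 : E n))).mem_iff.mp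
    (Filter.inter_mem (Filter.inter_mem (Filter.inter_mem hu hA.eventually) hAW) hQ)
  have hmem : ∀ z ∈ closedBall (0 : E n) 2, (r1 / 2) • z ∈ closedBall (0 : E n) r1 := by
    intro z hz
    rw [mem_closedBall_zero_iff] at hz ⊢
    rw [norm_smul, Real.norm_eq_abs, abs_of_pos (by linarith)]
    calc r1 / 2 * ‖z‖ ≤ r1 / 2 * 2 := mul_le_mul_of_nonneg_left hz (by linarith)
      _ = r1 := by ring
  have h2 : (r1 / 2 : ℝ) ≠ 0 := by linarith
  refine ⟨r1 / 2, by linarith, ?_, ?_, ?_, ?_⟩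
  · intro a ha b hb hab
    have h1 := hinj (hball (hmem a ha)).1.1.1 (hball (hmem b hb)).1.1.1 hab
    exact smul_right_injective _ h2 h1
  · intro z hz
    have h3 : LD n (fun y : E n => (r1 / 2) • y) z :=
      LD_linear (ContinuousLinearEquiv.smulLeft (Units.mk0 (r1 / 2) h2)) z
    have h4 : LD n A ((r1 / 2) • z) := (hball (hmem z hz)).1.1.2
    exact LD.comp_fun (g := A) (f := fun y : E n => (r1 / 2) • y) h4 h3
  · intro z hz
    exact (hball (hmem z hz)).1.2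
  · intro z hz
    exact (hball (hmem z hz)).2

/-- charts in which `Λ ∘ F` is affine -/
def Adapted (n : ℕ) {X V : Type} [TopologicalSpace X] [ChartedSpace (E n) X]
    [NormedAddCommGroup V] [NormedSpace ℝ V] (τ : X → V) (x : X) : Prop :=
  ∃ (A : E n → X) (a : E n →L[ℝ] V) (b : V), A 0 = x ∧ LD n A 0 ∧
    ∀ᶠ z in 𝓝 (0 : E n), τ (A z) = a z + b

theorem aphase (n : ℕ) (X : Type) [TopologicalSpace X] [T2Space X] [ChartedSpace (E n) X]
    (F : X → E n) (W K : Set X) (V : Type) [NormedAddCommGroup V] [NormedSpace ℝ V]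
    [CompleteSpace V] (Λ : E n →L[ℝ] V) (hWo : IsOpen W) (hF : ContinuousOn F W)
    (hx : ∀ x ∈ W, LD n F x ∨ AAE n F x) (hK : IsCompact K) (hKW : K ⊆ W)
    (hΛ : ∀ x ∈ K, ¬ LD n F x → Adapted n (fun y => Λ (F y)) x) :
    ∃ C : Set X, IsCompact C ∧ C ⊆ W ∧ ∀ e : ℝ, 0 < e → ∃ F' : X → E n,
      ContinuousOn F' W ∧ (∀ p, p ∉ C → F' p = F p) ∧ (∀ p, ‖F' p - F p‖ ≤ e) ∧
      (∀ x, LD n F x → LD n F' x) ∧ (∀ x ∈ K, LD n F' x) ∧
      (∀ x ∈ W, LD n F' x ∨ AAE n F' x) ∧ ∀ x, Λ (F' x) = Λ (F x) := by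
  classical
  -- the bad points of `K`
  obtain ⟨K₁, hK₁d⟩ : ∃ K₁ : Set X, K₁ = K ∩ {x | ¬ LD n F x} := ⟨_, rfl⟩
  have hK₁m : ∀ x, x ∈ K₁ ↔ x ∈ K ∧ ¬ LD n F x := fun x => by rw [hK₁d]; rfl
  have hK₁ : IsCompact K₁ := by
    rw [hK₁d]
    refine hK.inter_right ?_
    rw [← isOpen_compl_iff, isOpen_iff_mem_nhds]
    intro x hx'
    have h1 : LD n F x := by
      by_contra h
      exact hx' h
    filter_upwards [h1.eventually] with y hy h2
    exact h2 hy
  have h1 : ∀ x ∈ K₁, ∃ (B : E n → X) (a : E n →L[ℝ] V) (b : V), B 0 = x ∧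
      InjOn B (closedBall 0 2) ∧
      (∀ z ∈ closedBall (0 : E n) 2, LD n B z) ∧ (∀ z ∈ closedBall (0 : E n) 2, B z ∈ W) ∧
      ∀ z ∈ closedBall (0 : E n) 2, Λ (F (B z)) = a z + b := by
    intro x hxK
    obtain ⟨h2, h3⟩ := (hK₁m x).1 hxK
    obtain ⟨A, a, b, hA0, hA, hab⟩ := hΛ x h2 h3
    obtain ⟨s, hs, g1, g2, g3, g4⟩ := box_exists hWo (by rw [hA0]; exact hKW h2) hA _ hab
    refine ⟨fun z => A (s • z), s • a, b, by simp [hA0], g1, g2, g3, fun z hz => ?_⟩
    have g5 : Λ (F (A (s • z))) = a (s • z) + b := g4 z hz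
    change Λ (F (A (s • z))) = (s • a) z + b
    rw [g5, map_smul]
    rfl
  choose! B a b hB0 hBi hBd hBW hBa using h1
  have hU : ∀ x (hx : x ∈ K₁), B x '' ball 0 (1 / 2) ∈ 𝓝 x := by
    intro x hx
    have h2 : LD n (B x) 0 := hBd x hx 0 (by simp)
    have h3 := h2.image_mem_nhds (ball_mem_nhds (0 : E n) (by norm_num : (0 : ℝ) < 1 / 2))
    rwa [hB0 x hx] at h3
  obtain ⟨t, htK, ht⟩ := hK₁.elim_nhds_subcover (fun x => B x '' ball 0 (1 / 2)) hU
  obtain ⟨C, hCdef⟩ : ∃ C : Set X, C = ⋃ x ∈ t, B x '' closedBall 0 1 := ⟨_, rfl⟩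
  have hCc : IsCompact C := by
    rw [hCdef]
    refine t.isCompact_biUnion fun x hxt => ?_
    apply (isCompact_closedBall _ _).image_of_continuousOn
    intro z hz
    exact (hBd x (htK x hxt) z (closedBall_subset_closedBall (by norm_num)
      hz)).continuousAt.continuousWithinAt
  have hCW : C ⊆ W := by
    intro x hxC
    rw [hCdef, mem_iUnion₂] at hxC
    obtain ⟨y, hy, z, hz, rfl⟩ := hxC
    exact hBW y (htK y hy) z (closedBall_subset_closedBall (by norm_num) hz)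
  refine ⟨C, hCc, hCW, fun e he => ?_⟩
  obtain ⟨e', he', hNe⟩ : ∃ e' : ℝ, 0 < e' ∧ t.card * e' ≤ e := by
    refine ⟨e / (t.card + 1), by positivity, ?_⟩
    rw [mul_div_assoc', div_le_iff₀ (by positivity)]
    nlinarith
  -- the induction
  have key : ∀ s : Finset X, s ⊆ t → ∃ F' : X → E n, ContinuousOn F' W ∧
      (∀ p, ‖F' p - F p‖ ≤ s.card * e') ∧
      (∀ p, (∀ x ∈ t, p ∉ B x '' closedBall 0 1) → F' p = F p) ∧ (∀ p, LD n F p → LD n F' p) ∧
      (∀ x ∈ s, ∀ z, ‖z‖ ≤ 1 / 2 → LD n F' (B x z)) ∧ (∀ x ∈ W, LD n F' x ∨ AAE n F' x) ∧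
      ∀ x, Λ (F' x) = Λ (F x) := by
    intro s
    induction s using Finset.induction_on with
    | empty =>
      intro _
      exact ⟨F, hF, fun p => by simp, fun _ _ => rfl, fun _ h => h,
        fun x hx => absurd hx (Finset.notMem_empty x), hx, fun _ => rfl⟩
    | insert y s hys ih =>
      intro hst
      obtain ⟨F', h2, h3, h4, h5, h6, h7, h8⟩ := ih ((Finset.subset_insert y s).trans hst)
      have hyt : y ∈ t := hst (Finset.mem_insert_self y s)
      have hyK := htK y hyt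
      obtain ⟨F'', g1, g2, g3, g4, g5, g6, g7⟩ := astep n X F' W (B y) e' hWo h2 (hBi y hyK)
        (hBd y hyK) (hBW y hyK) he' h7
      refine ⟨F'', g1, ?_, ?_, fun p hp => g4 p (h5 p hp), ?_, g6, ?_⟩
      · intro p
        have e4 : F'' p - F p = (F'' p - F' p) + (F' p - F p) := by abel
        rw [e4, Finset.card_insert_of_notMem hys]
        push_cast
        calc _ ≤ ‖F'' p - F' p‖ + ‖F' p - F p‖ := norm_add_le _ _
          _ ≤ e' + s.card * e' := add_le_add (g3 p) (h3 p)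
          _ = (s.card + 1) * e' := by ring
      · intro p hp
        rw [g2 p (hp y hyt), h4 p hp]
      · intro x hxs z hz
        rcases Finset.mem_insert.1 hxs with h9 | h9
        · subst h9
          exact g5 z hz
        · exact g4 _ (h6 x h9 z hz)
      · intro x
        rw [g7 V Λ (a y) (b y) (fun z hz => by rw [h8, hBa y hyK z hz]) x, h8]
  obtain ⟨F', h2, h3, h4, h5, h6, h7, h8⟩ := key t (Finset.Subset.refl t)
  refine ⟨F', h2, ?_, fun p => (h3 p).trans hNe, h5, ?_, h7, h8⟩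
  · intro p hp
    apply h4
    intro x hxt hpx
    apply hp
    rw [hCdef]
    exact mem_iUnion₂.2 ⟨x, hxt, hpx⟩
  · intro x hxK
    by_cases hxL : LD n F x
    · exact h5 x hxL
    · obtain ⟨y, hy, z, hz, rfl⟩ := mem_iUnion₂.1 (ht ((hK₁m x).2 ⟨hxK, hxL⟩))
      rw [mem_ball_zero_iff] at hz
      exact h6 y hy z hz.le

end Pool.Agent.K7.H28.AF
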