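import Pool.Agent.K7.H28.AF.TameDefs
import Pool.Agent.K7.H28.AF.All
import Pool.Agent.K7.H28.AF.Euclid
import Pool.Agent.R865.SchT

/-!
# A class of homeomorphisms between smooth 4-manifolds which are approximated by diffeomorphisms
-/

set_option autoImplicit false

open Set Filter Topology Metric Function
open scoped Manifold ContDiff

noncomputable section

namespace Pool.Agent.K7.H28.AF.T4

attribute [-instance] TopCat.of.chartedSpace

theorem approx_symm {M N : Mfd4} (g : M ≃ₜ N) (hg : Approximable M N g) :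
    Approximable N M g.symm := by
  intro O hO hgO
  obtain ⟨Φ, C, hC, hΦ, hoff⟩ := hg (Prod.swap ⁻¹' O) (hO.preimage continuous_swap) (fun x => by
    have := hgO (g x)
    rw [g.symm_apply_apply] at this
    exact this)
  refine ⟨Φ.symm, g '' C, hC.image g.continuous, fun y => ?_, fun y hy => ?_⟩
  · have := hΦ (Φ.symm y)
    rw [Φ.apply_symm_apply] at this
    exact this
  · have h1 : g.symm y ∉ C := fun h => hy ⟨_, h, g.apply_symm_apply y⟩
    have h2 := hoff _ h1
    rw [g.apply_symm_apply] at h2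
    rw [← h2, Φ.symm_apply_apply, h2]

theorem approx_trans {M N P : Mfd4} (g : M ≃ₜ N) (h : N ≃ₜ P)
    (hg : Approximable M N g) (hh : Approximable N P h) : Approximable M P (g.trans h) := by
  intro O hO hgO
  have c1 : Continuous fun z : N × P => ((g.symm z.1, z.2) : M × P) :=
    (g.symm.continuous.comp continuous_fst).prodMk continuous_snd
  obtain ⟨Ψ, D, hD, hΨ, hoff2⟩ := hh ((fun z : N × P => ((g.symm z.1, z.2) : M × P)) ⁻¹' O)
    (hO.preimage c1) (fun y => by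
      have := hgO (g.symm y)
      rw [Homeomorph.trans_apply, g.apply_symm_apply] at this
      exact this)
  have c2 : Continuous fun z : M × N => ((z.1, Ψ z.2) : M × P) :=
    continuous_fst.prodMk (Ψ.continuous.comp continuous_snd)
  obtain ⟨Φ, C, hC, hΦ, hoff⟩ := hg ((fun z : M × N => ((z.1, Ψ z.2) : M × P)) ⁻¹' O)
    (hO.preimage c2) (fun x => by
      have := hΨ (g x)
      simp only [mem_preimage, g.symm_apply_apply] at this
      exact this)
  refine ⟨Φ.trans Ψ, C ∪ g.symm '' D, hC.union (hD.image g.symm.continuous), hΦ, fun x hx => ?_⟩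
  have h1 : Φ x = g x := hoff x fun h => hx (Or.inl h)
  have h2 : g x ∉ D := fun h => hx (Or.inr ⟨_, h, g.symm_apply_apply x⟩)
  change Ψ (Φ x) = h (g x)
  rw [h1, hoff2 _ h2]

theorem approx_extend {M N M' N' : Mfd4} (g : M ≃ₜ N) (g' : M' ≃ₜ N') (i : M' → M)
    (j : N' → N) (hi : IsOpenEmbedding i) (hj : IsOpenEmbedding j) (hid : ∀ x, LocDiff i x)
    (hjd : ∀ y, LocDiff j y) (hij : ∀ x, j (g' x) = g (i x)) (hb : bad g ⊆ range i)
    (H : Approximable M' N' g') : Approximable M N g := by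
  classical
  intro O hO hgO
  have hco : Continuous fun q : M' × N' => ((i q.1, j q.2) : M × N) :=
    (hi.continuous.comp continuous_fst).prodMk (hj.continuous.comp continuous_snd)
  obtain ⟨Φ', C', hC', hG', hoff'⟩ := H ((fun q : M' × N' => ((i q.1, j q.2) : M × N)) ⁻¹' O)
    (hO.preimage hco) (fun x => by
      change (i x, j (g' x)) ∈ O
      rw [hij]
      exact hgO (i x))
  have hT2 : T2Space M := M.hausdorff
  obtain ⟨Φ, hΦd⟩ : ∃ Φ : M → N, Φ = fun x => if h : x ∈ range i then j (Φ' h.choose) else g x :=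
    ⟨_, rfl⟩
  have hΦi : ∀ z, Φ (i z) = j (Φ' z) := by
    intro z
    have h : i z ∈ range i := ⟨z, rfl⟩
    have h1 : h.choose = z := hi.injective h.choose_spec
    rw [hΦd]
    change (if h : i z ∈ range i then j (Φ' h.choose) else g (i z)) = _
    rw [dif_pos h, h1]
  have hΦn : ∀ x, x ∉ range i → Φ x = g x := fun x hx => by rw [hΦd]; exact dif_neg hx
  have hoff : ∀ x, x ∉ i '' C' → Φ x = g x := by
    intro x hx
    by_cases h : x ∈ range i
    · obtain ⟨z, rfl⟩ := h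
      rw [hΦi, hoff' z fun hz => hx ⟨z, hz, rfl⟩, hij]
    · exact hΦn x h
  have hinj : Injective Φ := by
    intro x y hxy
    by_cases h : x ∈ range i <;> by_cases h' : y ∈ range i
    · obtain ⟨z, rfl⟩ := h
      obtain ⟨w, rfl⟩ := h'
      rw [hΦi, hΦi] at hxy
      rw [Φ'.injective (hj.injective hxy)]
    · obtain ⟨z, rfl⟩ := h
      rw [hΦi, hΦn y h'] at hxy
      exfalso
      apply h'
      refine ⟨g'.symm (Φ' z), ?_⟩
      apply g.injective
      rw [← hij, g'.apply_symm_apply, hxy]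
    · obtain ⟨w, rfl⟩ := h'
      rw [hΦi, hΦn x h] at hxy
      exfalso
      apply h
      refine ⟨g'.symm (Φ' w), ?_⟩
      apply g.injective
      rw [← hij, g'.apply_symm_apply, hxy]
    · rw [hΦn x h, hΦn y h'] at hxy
      exact g.injective hxy
  have hsurj : Surjective Φ := by
    intro y
    by_cases h : g.symm y ∈ range i
    · obtain ⟨z, hz⟩ := h
      refine ⟨i (Φ'.symm (g' z)), ?_⟩
      rw [hΦi, Φ'.apply_symm_apply, hij, hz, g.apply_symm_apply]
    · refine ⟨g.symm y, ?_⟩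
      rw [hΦn _ h, g.apply_symm_apply]
  have hLD : ∀ x, LocDiff Φ x := by
    intro x
    by_cases h : x ∈ range i
    · obtain ⟨z, rfl⟩ := h
      have hN : Nonempty M' := ⟨z⟩
      obtain ⟨k, hk⟩ : ∃ k : M → M', ∀ z, k (i z) = z :=
        ⟨invFun i, leftInverse_invFun hi.injective⟩
      have h1 : Pool.Agent.Y522.LD 4 k (i z) :=
        Pool.Agent.Y522.LD.inverse isOpen_univ (fun x _ => hid x) (fun x _ => hk x) (mem_univ z)
      have h2 : Pool.Agent.Y522.LD 4 (fun w => j (Φ' w)) (k (i z)) := by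
        rw [hk]
        exact Pool.Agent.Y522.LD.comp_fun (g := j) (f := Φ') (hjd _) (Φ'.isLocalDiffeomorph z)
      have h3 : Pool.Agent.Y522.LD 4 (fun x => j (Φ' (k x))) (i z) :=
        Pool.Agent.Y522.LD.comp_fun (g := fun w => j (Φ' w)) (f := k) h2 h1
      refine Pool.Agent.Y522.LD.congr h3 ?_
      filter_upwards [hi.isOpen_range.mem_nhds ⟨z, rfl⟩] with y hy
      obtain ⟨w, rfl⟩ := hy
      rw [hΦi, hk]
    · have h1 : x ∉ i '' C' := fun ⟨z, _, hz⟩ => h ⟨z, hz⟩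
      have h2 : LocDiff g x := by
        by_contra hn
        exact h (hb hn)
      refine Pool.Agent.Y522.LD.congr h2 ?_
      filter_upwards [(hC'.image hi.continuous).isClosed.isOpen_compl.mem_nhds h1] with y hy
      exact hoff y hy
  have hl : IsLocalDiffeomorph (𝓡 4) (𝓡 4) ∞ Φ := hLD
  refine ⟨hl.diffeomorphOfBijective ⟨hinj, hsurj⟩, i '' C', hC'.image hi.continuous, fun x => ?_,
    hoff⟩
  change (x, Φ x) ∈ O
  by_cases h : x ∈ range i
  · obtain ⟨z, rfl⟩ := h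
    rw [hΦi]
    exact hG' z
  · rw [hΦn x h]
    exact hgO x

theorem corank_aux (X Y : Type) [TopologicalSpace X] [TopologicalSpace Y]
    [ChartedSpace R4 X] [ChartedSpace R4 Y] (hX1 : IsManifold (𝓡 4) ∞ X) (hX2 : T2Space X)
    (hY : IsManifold (𝓡 4) ∞ Y) (g : X ≃ₜ Y) (hb : IsCompact (bad g)) (hg : Smooth g)
    (hr : ∀ x, 3 ≤ rank (der g x)) (O : Set (X × Y)) (hO : IsOpen O) (hgO : GraphIn g O) :
    ∃ (Φ : Diffeomorph (𝓡 4) (𝓡 4) X Y ∞) (C : Set X), IsCompact C ∧ GraphIn Φ O ∧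
      ∀ x, x ∉ C → Φ x = g x := by
  obtain ⟨F, C, hC, hF, hd, hG, hoff⟩ :=
    Pool.Agent.R765.corankOne (m := 3) g hg (fun x _ => hr x) hb O hO hgO
  have hl : IsLocalDiffeomorph (𝓡 4) (𝓡 4) ∞ F := hd
  exact ⟨hl.diffeomorphOfBijective hF, C, hC, hG, hoff⟩

theorem cone_aux (X Y : Type) [TopologicalSpace X] [TopologicalSpace Y]
    [ChartedSpace R4 X] [ChartedSpace R4 Y] (hX1 : IsManifold (𝓡 4) ∞ X) (hX2 : T2Space X)
    (hY : IsManifold (𝓡 4) ∞ Y) (g : X ≃ₜ Y) (hb : IsCompact (bad g))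
    (hg : ∀ x, LocDiff g x ∨ ConeMonotone g x)
    (O : Set (X × Y)) (hO : IsOpen O) (hgO : GraphIn g O) :
    ∃ (Φ : Diffeomorph (𝓡 4) (𝓡 4) X Y ∞) (C : Set X), IsCompact C ∧ GraphIn Φ O ∧
      ∀ x, x ∉ C → Φ x = g x := by
  obtain ⟨F, C, hC, hF, hd, hG, hoff⟩ := Pool.Agent.R765.coneMonotone 4 X Y g O (fun x => by
    rcases hg x with h | ⟨A, B, h1, h2, h3, h4⟩
    · exact Or.inl h
    · exact Or.inr ⟨B, h3, A, h1, h2, h4⟩) hb hO hgO
  have hl : IsLocalDiffeomorph (𝓡 4) (𝓡 4) ∞ F := hd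
  exact ⟨hl.diffeomorphOfBijective hF, C, hC, hG, hoff⟩

theorem affine_aux (X Y : Type) [TopologicalSpace X] [TopologicalSpace Y]
    [ChartedSpace R4 X] [ChartedSpace R4 Y] (hX1 : IsManifold (𝓡 4) ∞ X) (hX2 : T2Space X)
    (hY : IsManifold (𝓡 4) ∞ Y) (g : X ≃ₜ Y) (hb : IsCompact (bad g))
    (hg : ∀ x, LocDiff g x ∨ AsymptoticallyAffine g x)
    (O : Set (X × Y)) (hO : IsOpen O) (hgO : GraphIn g O) :
    ∃ (Φ : Diffeomorph (𝓡 4) (𝓡 4) X Y ∞) (C : Set X), IsCompact C ∧ GraphIn Φ O ∧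
      ∀ x, x ∉ C → Φ x = g x := by
  obtain ⟨F, C, hC, hF, hd, hG, hoff⟩ := Pool.Agent.K7.H28.AF.asymAffine 4 X Y g O (fun x => by
    rcases hg x with h | ⟨A, B, h1, h2, h3, h4⟩
    · exact Or.inl h
    · refine Or.inr ⟨B, h3, A, h1, h2, fun ε hε => ?_⟩
      obtain ⟨r, hr, h5⟩ := h4 ε hε
      exact ⟨r, hr, fun p hp => h5 p (mem_closedBall_zero_iff.1 hp)⟩) hb hO hgO
  have hl : IsLocalDiffeomorph (𝓡 4) (𝓡 4) ∞ F := hd
  exact ⟨hl.diffeomorphOfBijective hF, C, hC, hG, hoff⟩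

/-- **The members of the class are approximated by diffeomorphisms.** -/
theorem approx_of_tame : ∃ ε₀ : ℝ, 0 < ε₀ ∧ ∀ (M N : Mfd4) (g : M ≃ₜ N), Tame ε₀ M N g →
    Approximable M N g := by
  obtain ⟨ε₀, hε₀, hAA⟩ := Pool.Agent.K7.H28.AF.almostAffine 4
  refine ⟨ε₀, hε₀, fun M N g hg => ?_⟩
  induction hg with
  | @corankOne M N g hb hs hr => exact corank_aux M N M.smooth M.hausdorff N.smooth g hb hs hr
  | @coneMonotone M N g hb hc => exact cone_aux M N M.smooth M.hausdorff N.smooth g hb hc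
  | @asymptoticallyAffine M N g hb hc =>
    exact affine_aux M N M.smooth M.hausdorff N.smooth g hb hc
  | @almostAffine V W g hb hc =>
    intro O hO hgO
    obtain ⟨F, C, hC, hF, hd, hG, hoff⟩ := hAA V W g O hO hgO hb hc
    have hl : IsLocalDiffeomorph (𝓡 4) (𝓡 4) ∞ F := hd
    exact ⟨hl.diffeomorphOfBijective hF, C, hC, hG, hoff⟩
  | inverse g _ ih => exact approx_symm g ih
  | composition g h _ _ ih1 ih2 => exact approx_trans g h ih1 ih2
  | extension g g' i j hi hj hid hjd hij hb _ ih =>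
    exact approx_extend g g' i j hi hj hid hjd hij hb ih
  | limit g h C h1 _ ih =>
    intro O hO hgO
    obtain ⟨hC, hG, hoff⟩ := h1 O hO hgO
    obtain ⟨Φ, D, hD, hΦ, hoff2⟩ := ih O hO hgO O hO hG
    refine ⟨Φ, C O ∪ D, hC.union hD, hΦ, fun x hx => ?_⟩
    rw [hoff2 x fun h => hx (Or.inr h), hoff x fun h => hx (Or.inl h)]

end Pool.Agent.K7.H28.AF.T4
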