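import Pool.Agent.Y522.Basic

/-!
# A class of homeomorphisms between smooth 4-manifolds: definitions
-/

set_option autoImplicit false

open Set Filter Topology Metric Function
open scoped Manifold ContDiff

noncomputable section

namespace Pool.Agent.K7.H28.AF.T4

attribute [-instance] TopCat.of.chartedSpace

/-- `ℝ⁴` -/
abbrev R4 : Type := EuclideanSpace ℝ (Fin 4)

/-- smooth 4-manifolds (Hausdorff, without boundary) -/
structure Mfd4 where
  /-- the set of points -/
  pts : Type
  [top : TopologicalSpace pts]
  [chart : ChartedSpace R4 pts]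
  smooth : IsManifold (𝓡 4) ∞ pts
  hausdorff : T2Space pts

instance : CoeSort Mfd4 Type := ⟨Mfd4.pts⟩

instance (M : Mfd4) : TopologicalSpace M := M.top

instance (M : Mfd4) : ChartedSpace R4 M := M.chart

/-- an open subset of `ℝ⁴` as a smooth manifold -/
def openSubset (V : TopologicalSpace.Opens R4) : Mfd4 where
  pts := V
  smooth := inferInstance
  hausdorff := inferInstance

/-- the inclusion of an open subset of `ℝ⁴` in `ℝ⁴` -/
def incl (V : TopologicalSpace.Opens R4) : openSubset V → R4 := fun y => (show V from y).1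

/-- the open unit ball of `ℝ⁴` -/
def unitBall : TopologicalSpace.Opens R4 := ⟨ball 0 1, isOpen_ball⟩

section defs

variable {M N : Type} [TopologicalSpace M] [TopologicalSpace N] [ChartedSpace R4 M]
  [ChartedSpace R4 N]

/-- `f` is a map of class `C^∞` -/
def Smooth (f : M → N) : Prop := ContMDiff (𝓡 4) (𝓡 4) ∞ f

/-- the derivative of `f` at `x`, as a linear map from `ℝ⁴` to `ℝ⁴` (in the preferred charts) -/
def der (f : M → N) (x : M) : R4 →L[ℝ] R4 := mfderiv (𝓡 4) (𝓡 4) f x

/-- the rank of a linear map -/
def rank (L : R4 →L[ℝ] R4) : ℕ := Module.finrank ℝ (LinearMap.range L.toLinearMap)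

/-- `f` is a local diffeomorphism (of class `C^∞`, with smooth inverse) at `x` -/
def LocDiff (f : M → N) (x : M) : Prop := IsLocalDiffeomorphAt (𝓡 4) (𝓡 4) ∞ f x

/-- For every direction `v` the increments of `h` near `0` in the directions near `v` lie in a
proper cone. -/
def ConeIncrements (h : R4 → R4) : Prop :=
  ∀ v : R4, v ≠ 0 → ∃ (r : ℝ) (ℓ : R4 →L[ℝ] ℝ), 0 < r ∧ ∀ p q : R4, ‖p‖ ≤ r → ‖q‖ ≤ r →
    ∀ t : ℝ, 0 < t → ‖q - p - t • v‖ ≤ r * t → r * ‖h q - h p‖ < ℓ (h q - h p)

/-- At the points `p` near `0` and at the small scales `δ` the map `h` is affine up to an error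
`ε δ`, for every `ε > 0`; the error is measured after composition with a linear isomorphism `L⁻¹`,
where `L` depends on `p` and `δ` (no bound is required for `L` and its inverse). -/
def AffineIncrements (h : R4 → R4) : Prop :=
  ∀ ε : ℝ, 0 < ε → ∃ r : ℝ, 0 < r ∧ ∀ p : R4, ‖p‖ ≤ r → ∀ δ : ℝ, 0 < δ → δ ≤ r →
    ∃ L : R4 ≃L[ℝ] R4, ∀ q : R4, ‖q - p‖ ≤ δ → ‖L.symm (h q - h p) - (q - p)‖ ≤ ε * δ

/-- `f` is cone monotone at `x`: it has increments in proper cones in some smooth coordinates
around `x = A 0` and around `f x` (`A` is a smooth parametrization around `x`, `B` a smooth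
coordinate system around `f x`). -/
def ConeMonotone (f : M → N) (x : M) : Prop :=
  ∃ (A : R4 → M) (B : N → R4), A 0 = x ∧ LocDiff A 0 ∧ LocDiff B (f x) ∧
    ConeIncrements fun p => B (f (A p))

/-- `f` is asymptotically affine at small scales near `x`, in some smooth coordinates around `x`
and `f x`. -/
def AsymptoticallyAffine (f : M → N) (x : M) : Prop :=
  ∃ (A : R4 → M) (B : N → R4), A 0 = x ∧ LocDiff A 0 ∧ LocDiff B (f x) ∧
    AffineIncrements fun p => B (f (A p))

/-- the set of the points at which `f` is not a local diffeomorphism -/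
def bad (f : M → N) : Set M := {x | ¬ LocDiff f x}

/-- the graph of `f` is contained in `O` -/
def GraphIn (f : M → N) (O : Set (M × N)) : Prop := ∀ x, (x, f x) ∈ O

end defs

/-- The homeomorphism `g` between open subsets of `ℝ⁴` is `ε`-almost affine at small scales near
`x`: affine up to an error `ε δ` at the scales `δ ≤ r`, measured as in `AffineIncrements`. -/
def AlmostAffine (ε : ℝ) {V W : TopologicalSpace.Opens R4} (g : openSubset V ≃ₜ openSubset W)
    (x : openSubset V) : Prop :=
  ∃ r : ℝ, 0 < r ∧ ∀ p : openSubset V, ‖incl V p - incl V x‖ ≤ r → ∀ δ : ℝ, 0 < δ → δ ≤ r →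
    ∃ L : R4 ≃L[ℝ] R4, ∀ q : openSubset V, ‖incl V q - incl V p‖ ≤ δ →
      ‖L.symm (incl W (g q) - incl W (g p)) - (incl V q - incl V p)‖ ≤ ε * δ

/-- The least class of homeomorphisms of smooth 4-manifolds which contains the following
homeomorphisms with a compact set of bad points (points at which they are not local
diffeomorphisms):

* the smooth ones with derivatives of rank at least three;
* the ones which are everywhere local diffeomorphisms or cone monotone;
* the ones which are everywhere local diffeomorphisms or asymptotically affine at small scales;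
* the ones between open subsets of `ℝ⁴` which are `ε₀`-almost affine at small scales near the bad
  points;

and which is closed under inverses, compositions, extensions (`g` belongs to the class if its bad
points belong to an open set on which it restricts to a member) and limits relative to infinity
(`g` belongs to the class if every neighbourhood of its graph contains the graph of a member which
agrees with `g` outside a compact set). -/
inductive Tame (ε₀ : ℝ) : (M N : Mfd4) → (M ≃ₜ N) → Prop
  | corankOne {M N : Mfd4} (g : M ≃ₜ N) : IsCompact (bad g) →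
      Smooth g → (∀ x, 3 ≤ rank (der g x)) → Tame ε₀ M N g
  | coneMonotone {M N : Mfd4} (g : M ≃ₜ N) : IsCompact (bad g) →
      (∀ x, LocDiff g x ∨ ConeMonotone g x) → Tame ε₀ M N g
  | asymptoticallyAffine {M N : Mfd4} (g : M ≃ₜ N) : IsCompact (bad g) →
      (∀ x, LocDiff g x ∨ AsymptoticallyAffine g x) → Tame ε₀ M N g
  | almostAffine {V W : TopologicalSpace.Opens R4} (g : openSubset V ≃ₜ openSubset W) :
      IsCompact (bad g) → (∀ x ∈ bad g, AlmostAffine ε₀ g x) →
      Tame ε₀ (openSubset V) (openSubset W) g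
  | inverse {M N : Mfd4} (g : M ≃ₜ N) : Tame ε₀ M N g → Tame ε₀ N M g.symm
  | composition {M N P : Mfd4} (g : M ≃ₜ N) (h : N ≃ₜ P) :
      Tame ε₀ M N g → Tame ε₀ N P h → Tame ε₀ M P (g.trans h)
  | extension {M N M' N' : Mfd4} (g : M ≃ₜ N) (g' : M' ≃ₜ N') (i : M' → M) (j : N' → N) :
      IsOpenEmbedding i → IsOpenEmbedding j → (∀ x, LocDiff i x) → (∀ y, LocDiff j y) →
      (∀ x, j (g' x) = g (i x)) → bad g ⊆ range i → Tame ε₀ M' N' g' → Tame ε₀ M N g
  | limit {M N : Mfd4} (g : M ≃ₜ N) (h : Set (M × N) → (M ≃ₜ N)) (C : Set (M × N) → Set M) :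
      (∀ O, IsOpen O → GraphIn g O → IsCompact (C O) ∧ GraphIn (h O) O ∧
        ∀ x, x ∉ C O → h O x = g x) →
      (∀ O, IsOpen O → GraphIn g O → Tame ε₀ M N (h O)) → Tame ε₀ M N g

/-- every neighbourhood of the graph of `g` contains the graph of a diffeomorphism which agrees with
`g` outside a compact set -/
def Approximable (M N : Mfd4) (g : M ≃ₜ N) : Prop :=
  ∀ O : Set (M × N), IsOpen O → GraphIn g O →
    ∃ (Φ : Diffeomorph (𝓡 4) (𝓡 4) M N ∞) (C : Set M), IsCompact C ∧ GraphIn Φ O ∧
      ∀ x, x ∉ C → Φ x = g x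

end Pool.Agent.K7.H28.AF.T4
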